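import Pool.Agent.N672.DN.Riesz

open Finset

namespace Pool.N672.DN

variable {q : ℕ} [Fact q.Prime]

theorem parseval {d m : ℕ} (C : Fin d → Matrix (Fin m) (Fin m) (ZMod q))
    (s : Fin d → Fin m → ZMod q) :
    ∑ g : Fin d → Fin m → ZMod q, ‖AA C s g‖ ^ 2 =
      (q : ℝ) ^ (d * m) * ∑ x : Fin d → Fin m → ZMod q, Dl C s x ^ 2 := by
  have e1 : ∀ g : Fin d → Fin m → ZMod q, ((‖AA C s g‖ ^ 2 : ℝ) : ℂ) =
      ∑ x : Fin d → Fin m → ZMod q, ∑ y : Fin d → Fin m → ZMod q,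
        ((Dl C s x : ℂ) * (Dl C s y : ℂ)) * ch (pr2 (x - y) g) := by
    intro g
    have : ((‖AA C s g‖ ^ 2 : ℝ) : ℂ) = AA C s g * (starRingEnd ℂ) (AA C s g) := by
      rw [Complex.mul_conj, Complex.normSq_eq_norm_sq]
    rw [this, ← AA_neg]
    unfold AA
    rw [Finset.sum_mul]
    apply Finset.sum_congr rfl
    intro x _
    rw [Finset.mul_sum]
    apply Finset.sum_congr rfl
    intro y _
    rw [pr2_comm (x - y) g, pr2_sub_right, pr2_neg_left, sub_eq_add_neg, ch_add]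
    ring
  have e2 : ((∑ g : Fin d → Fin m → ZMod q, ‖AA C s g‖ ^ 2 : ℝ) : ℂ) =
      (((q : ℝ) ^ (d * m) * ∑ x : Fin d → Fin m → ZMod q, Dl C s x ^ 2 : ℝ) : ℂ) := by
    rw [Complex.ofReal_sum, Finset.sum_congr rfl fun g _ => e1 g, Finset.sum_comm]
    push_cast
    rw [Finset.mul_sum]
    apply Finset.sum_congr rfl
    intro x _
    rw [Finset.sum_comm]
    have e3 : ∀ y : Fin d → Fin m → ZMod q, ∑ g : Fin d → Fin m → ZMod q,
        ((Dl C s x : ℂ) * (Dl C s y : ℂ)) * ch (pr2 (x - y) g) =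
        ((Dl C s x : ℂ) * (Dl C s y : ℂ)) * (if x - y = 0 then (q : ℂ) ^ (d * m) else 0) := by
      intro y
      rw [← Finset.mul_sum, sum_ch_pr2]
    rw [Finset.sum_congr rfl fun y _ => e3 y, Finset.sum_eq_single x]
    · rw [sub_self, if_pos rfl]; ring
    · intro b _ hb
      rw [if_neg (fun h => hb (sub_eq_zero.mp h).symm), mul_zero]
    · intro h; exact absurd (Finset.mem_univ x) h
  exact_mod_cast e2

theorem bessel {d m : ℕ} {ι : Type*} [Fintype ι]
    {C : Fin d → Matrix (Fin m) (Fin m) (ZMod q)} (s : Fin d → Fin m → ZMod q)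
    (h : ι → Fin d → Fin m → ZMod q) (k : ι → Fin d → Fin m) (hd : 0 < d)
    (hinj : Function.Injective h) (htop : ∀ a i, isTop (h a i) (k a i))
    (hK : ∀ a, h a ∈ K C)
    (hNS : ∀ v ∈ K C, v ≠ 0 → d + d < wt v)
    (M c : ℝ) (hM : ∀ x, |Dl C s x| ≤ M) (hc0 : 0 ≤ c)
    (hc : ∀ a, c ≤ (1 / 2 : ℝ) ^ d * ((q : ℝ) ^ m / (q : ℝ) ^ (∑ i, ((k a i : ℕ) + 1)))) :
    (Fintype.card ι : ℝ) * c ^ 2 ≤ M ^ 2 := by
  classical
  have hq : (0 : ℝ) < q := by exact_mod_cast (Fact.out : q.Prime).pos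
  have hginj : Function.Injective (fun a => mn (h a) (k a)) := by
    intro a b hab
    simp only [] at hab
    apply hinj
    rw [mn_eq, mn_eq] at hab
    have e1 : h a - h b = tp (h a) (k a) + -tp (h b) (k b) := by
      have : h a - h b = (h a - tp (h a) (k a)) - (h b - tp (h b) (k b)) +
        (tp (h a) (k a) + -tp (h b) (k b)) := by abel
      rw [this, hab]; abel
    by_contra hne
    have h1 := hNS (h a - h b) (Submodule.sub_mem _ (hK a) (hK b)) (sub_ne_zero.mpr hne)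
    rw [e1] at h1
    have h2 := wt_add (tp (h a) (k a)) (-tp (h b) (k b))
    have h3 := wt_tp (h a) (k a)
    have h4 := (wt_neg (tp (h b) (k b))).trans (wt_tp (h b) (k b))
    omega
  have e1 : ∑ a : ι, ‖AA C s (mn (h a) (k a))‖ ^ 2 ≤ ∑ g : Fin d → Fin m → ZMod q, ‖AA C s g‖ ^ 2 := by
    rw [← Finset.sum_image (s := univ) (g := fun a => mn (h a) (k a)) (f := fun g => ‖AA C s g‖ ^ 2)
      (fun a _ b _ hab => hginj hab)]
    apply Finset.sum_le_sum_of_subset_of_nonneg (Finset.subset_univ _)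
    intro g _ _
    positivity
  have e2 : ∑ a : ι, ((q : ℝ) ^ (d * m) * c) ^ 2 ≤ ∑ a : ι, ‖AA C s (mn (h a) (k a))‖ ^ 2 := by
    apply Finset.sum_le_sum
    intro a _
    apply pow_le_pow_left₀ (by positivity)
    refine le_trans ?_ (coefOne s (h a) (k a) (hK a) (htop a) hd hNS)
    exact mul_le_mul_of_nonneg_left (hc a) (by positivity)
  have e3 : ∑ x : Fin d → Fin m → ZMod q, Dl C s x ^ 2 ≤ (q : ℝ) ^ (d * m) * M ^ 2 := by
    calc _ ≤ ∑ x : Fin d → Fin m → ZMod q, M ^ 2 := by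
          apply Finset.sum_le_sum
          intro x _
          rw [← sq_abs]
          exact pow_le_pow_left₀ (abs_nonneg _) (hM x) 2
      _ = _ := by
          rw [Finset.sum_const, Finset.card_univ, Fintype.card_fun, Fintype.card_fun, ZMod.card,
            Fintype.card_fin, Fintype.card_fin, nsmul_eq_mul]
          push_cast
          rw [← pow_mul, mul_comm m d]
  rw [parseval] at e1
  have e4 := e2.trans e1
  rw [Finset.sum_const, Finset.card_univ, nsmul_eq_mul] at e4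
  have e5 : (0 : ℝ) < (q : ℝ) ^ (d * m) := by positivity
  have e6 : (q : ℝ) ^ (d * m) * ((q : ℝ) ^ (d * m) * ((Fintype.card ι : ℝ) * c ^ 2)) ≤
      (q : ℝ) ^ (d * m) * ((q : ℝ) ^ (d * m) * M ^ 2) := by
    calc _ = (Fintype.card ι : ℝ) * ((q : ℝ) ^ (d * m) * c) ^ 2 := by ring
      _ ≤ _ := e4
      _ ≤ _ := mul_le_mul_of_nonneg_left e3 e5.le
  exact le_of_mul_le_mul_left (le_of_mul_le_mul_left e6 e5) e5

end Pool.N672.DN
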