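import Pool.Agent.N672.DN.Fou

open Finset

namespace Pool.N672.DN

variable {q : ℕ} [Fact q.Prime]

/-- the homomorphism `C ↦ ⟨h, C n⟩` -/
def evH {d m : ℕ} (h : Fin d → Fin m → ZMod q) (n : Fin m → ZMod q) :
    (Fin d → Matrix (Fin m) (Fin m) (ZMod q)) →+ ZMod q where
  toFun C := pr2 h (fun i => Matrix.mulVec (C i) n)
  map_zero' := by
    have : (fun i : Fin d => Matrix.mulVec ((0 : Fin d → Matrix (Fin m) (Fin m) (ZMod q)) i) n) = 0 := by
      funext i
      rw [Pi.zero_apply, Matrix.zero_mulVec]; rfl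
    rw [this, pr2_zero_right]
  map_add' := by
    intro C C'
    rw [← pr2_add_right]
    congr 1
    funext i
    rw [Pi.add_apply, Matrix.add_mulVec]; rfl

theorem evH_single {d m : ℕ} (h : Fin d → Fin m → ZMod q) (n : Fin m → ZMod q) (i : Fin d) (a b : Fin m) :
    evH h n (Pi.single i (Matrix.single a b 1)) = h i a * n b := by
  change pr2 h (fun j => Matrix.mulVec ((Pi.single i (Matrix.single a b 1) :
    Fin d → Matrix (Fin m) (Fin m) (ZMod q)) j) n) = _
  have e : (fun j => Matrix.mulVec ((Pi.single i (Matrix.single a b 1) :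
    Fin d → Matrix (Fin m) (Fin m) (ZMod q)) j) n) = Pi.single i (Pi.single a (n b)) := by
    funext j
    by_cases hj : j = i
    · subst hj
      rw [Pi.single_eq_same, Pi.single_eq_same, Matrix.single_mulVec]
      funext c
      by_cases hc : c = a
      · subst hc; simp
      · simp [hc]
    · rw [Pi.single_eq_of_ne hj, Pi.single_eq_of_ne hj, Matrix.zero_mulVec]
  rw [e, pr2_single, pr_single]

theorem card_MM {d m : ℕ} :
    Fintype.card (Fin d → Matrix (Fin m) (Fin m) (ZMod q)) = q ^ (d * m ^ 2) := by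
  have : Fintype.card (Matrix (Fin m) (Fin m) (ZMod q)) = q ^ (m ^ 2) := by
    change Fintype.card (Fin m → Fin m → ZMod q) = _
    rw [Fintype.card_fun, Fintype.card_fun, ZMod.card, Fintype.card_fin, ← pow_mul, sq]
  rw [Fintype.card_fun, this, Fintype.card_fin, ← pow_mul, mul_comm]

theorem count_two {d m : ℕ} (h h' : Fin d → Fin m → ZMod q)
    (hind : ∀ a b : ZMod q, a • h + b • h' = 0 → a = 0 ∧ b = 0)
    [DecidablePred fun C : Fin d → Matrix (Fin m) (Fin m) (ZMod q) => h ∈ K C ∧ h' ∈ K C] :
    ((univ.filter fun C : Fin d → Matrix (Fin m) (Fin m) (ZMod q) => h ∈ K C ∧ h' ∈ K C).card : ℝ) *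
      ((q : ℝ) ^ m) ^ 2 = (q : ℝ) ^ (d * m ^ 2) := by
  classical
  have e0 : ∀ C : Fin d → Matrix (Fin m) (Fin m) (ZMod q),
      (if h ∈ K C ∧ h' ∈ K C then (1 : ℂ) else 0) * ((q : ℂ) ^ m) ^ 2 =
      ∑ n : Fin m → ZMod q, ∑ n' : Fin m → ZMod q, ch ((evH h n + evH h' n') C) := by
    intro C
    have e1 := sum_ch_net C h
    have e2 := sum_ch_net C h'
    have e3 : ∑ n : Fin m → ZMod q, ∑ n' : Fin m → ZMod q, ch ((evH h n + evH h' n') C) =
      (∑ n : Fin m → ZMod q, ch (pr2 h (fun i => Matrix.mulVec (C i) n))) *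
      (∑ n : Fin m → ZMod q, ch (pr2 h' (fun i => Matrix.mulVec (C i) n))) := by
      rw [Finset.sum_mul]
      apply Finset.sum_congr rfl
      intro n _
      rw [Finset.mul_sum]
      apply Finset.sum_congr rfl
      intro n' _
      rw [← ch_add]
      rfl
    rw [e3, e1, e2]
    by_cases hc : h ∈ K C <;> by_cases hc' : h' ∈ K C
    · rw [if_pos ⟨hc, hc'⟩, if_pos hc, if_pos hc']; ring
    · rw [if_neg (fun hh => hc' hh.2), if_pos hc, if_neg hc']; ring
    · rw [if_neg (fun hh => hc hh.1), if_neg hc]; ring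
    · rw [if_neg (fun hh => hc hh.1), if_neg hc]; ring
  have e1 : ((univ.filter fun C : Fin d → Matrix (Fin m) (Fin m) (ZMod q) => h ∈ K C ∧ h' ∈ K C).card : ℂ) *
      ((q : ℂ) ^ m) ^ 2 = ∑ n : Fin m → ZMod q, ∑ n' : Fin m → ZMod q,
        ∑ C : Fin d → Matrix (Fin m) (Fin m) (ZMod q), ch ((evH h n + evH h' n') C) := by
    rw [← Finset.sum_boole, Finset.sum_mul]
    rw [Finset.sum_congr rfl fun C _ => by
      have := e0 C
      exact this]
    rw [Finset.sum_comm]
    apply Finset.sum_congr rfl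
    intro n _
    rw [Finset.sum_comm]
  have e2 : ∀ n n' : Fin m → ZMod q,
      ∑ C : Fin d → Matrix (Fin m) (Fin m) (ZMod q), ch ((evH h n + evH h' n') C) =
      if n = 0 ∧ n' = 0 then (q : ℂ) ^ (d * m ^ 2) else 0 := by
    intro n n'
    by_cases h0 : ∀ C, (evH h n + evH h' n') C = 0
    · have h1 : ∀ b, n b = 0 ∧ n' b = 0 := by
        intro b
        apply hind
        funext i a
        have h2 := h0 (Pi.single i (Matrix.single a b 1))
        rw [AddMonoidHom.add_apply, evH_single, evH_single] at h2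
        rw [Pi.add_apply, Pi.add_apply, Pi.smul_apply, Pi.smul_apply, Pi.smul_apply, Pi.smul_apply,
          smul_eq_mul, smul_eq_mul, Pi.zero_apply, Pi.zero_apply]
        rw [← h2]; ring
      rw [if_pos ⟨funext fun b => (h1 b).1, funext fun b => (h1 b).2⟩, sum_ch_hom_zero _ h0, card_MM]
      push_cast; rfl
    · have h1 : ¬ (n = 0 ∧ n' = 0) := by
        rintro ⟨rfl, rfl⟩
        apply h0
        intro C
        rw [AddMonoidHom.add_apply]
        have h2 : ∀ g : Fin d → Fin m → ZMod q, evH g 0 C = 0 := by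
          intro g
          change pr2 g (fun i => Matrix.mulVec (C i) 0) = 0
          have : (fun i => Matrix.mulVec (C i) (0 : Fin m → ZMod q)) = 0 := by
            funext i; rw [Matrix.mulVec_zero]; rfl
          rw [this, pr2_zero_right]
        rw [h2, h2, add_zero]
      push Not at h0
      obtain ⟨C₀, hC₀⟩ := h0
      rw [if_neg h1, sum_ch_hom _ C₀ hC₀]
  have e3 : ∑ n : Fin m → ZMod q, ∑ n' : Fin m → ZMod q,
        ∑ C : Fin d → Matrix (Fin m) (Fin m) (ZMod q), ch ((evH h n + evH h' n') C) =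
        (q : ℂ) ^ (d * m ^ 2) := by
    rw [Finset.sum_congr rfl fun n _ => Finset.sum_congr rfl fun n' _ => e2 n n']
    rw [Finset.sum_eq_single 0]
    · rw [Finset.sum_eq_single 0]
      · rw [if_pos ⟨rfl, rfl⟩]
      · intro b _ hb; rw [if_neg (fun hh => hb hh.2)]
      · intro hx; exact absurd (Finset.mem_univ _) hx
    · intro b _ hb
      apply Finset.sum_eq_zero
      intro n' _
      rw [if_neg (fun hh => hb hh.1)]
    · intro hx; exact absurd (Finset.mem_univ _) hx
  rw [e3] at e1
  exact_mod_cast e1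

theorem count_one {d m : ℕ} (h : Fin d → Fin m → ZMod q) (h0 : h ≠ 0)
    [DecidablePred fun C : Fin d → Matrix (Fin m) (Fin m) (ZMod q) => h ∈ K C] :
    ((univ.filter fun C : Fin d → Matrix (Fin m) (Fin m) (ZMod q) => h ∈ K C).card : ℝ) *
      (q : ℝ) ^ m = (q : ℝ) ^ (d * m ^ 2) := by
  classical
  have hne : ∃ i a, h i a ≠ 0 := by
    by_contra hh; push Not at hh; exact h0 (funext fun i => funext (hh i))
  obtain ⟨i, a, hia⟩ := hne
  have e0 : ∀ C : Fin d → Matrix (Fin m) (Fin m) (ZMod q),
      (if h ∈ K C then (1 : ℂ) else 0) * (q : ℂ) ^ m = ∑ n : Fin m → ZMod q, ch (evH h n C) := by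
    intro C
    have e1 := sum_ch_net C h
    have e3 : ∑ n : Fin m → ZMod q, ch (evH h n C) =
      ∑ n : Fin m → ZMod q, ch (pr2 h (fun i => Matrix.mulVec (C i) n)) := rfl
    rw [e3, e1]
    split_ifs
    · rw [one_mul]
    · rw [zero_mul]
  have e1 : ((univ.filter fun C : Fin d → Matrix (Fin m) (Fin m) (ZMod q) => h ∈ K C).card : ℂ) *
      (q : ℂ) ^ m = ∑ n : Fin m → ZMod q,
        ∑ C : Fin d → Matrix (Fin m) (Fin m) (ZMod q), ch (evH h n C) := by
    rw [← Finset.sum_boole, Finset.sum_mul]
    rw [Finset.sum_congr rfl fun C _ => by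
      have := e0 C
      exact this]
    rw [Finset.sum_comm]
  have e2 : ∑ n : Fin m → ZMod q,
        ∑ C : Fin d → Matrix (Fin m) (Fin m) (ZMod q), ch (evH h n C) = (q : ℂ) ^ (d * m ^ 2) := by
    rw [Finset.sum_eq_single 0]
    · rw [sum_ch_hom_zero, card_MM]
      · push_cast; rfl
      · intro C
        change pr2 h (fun i => Matrix.mulVec (C i) 0) = 0
        have : (fun i => Matrix.mulVec (C i) (0 : Fin m → ZMod q)) = 0 := by
          funext i; rw [Matrix.mulVec_zero]; rfl
        rw [this, pr2_zero_right]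
    · intro n _ hn
      have : ∃ b, n b ≠ 0 := by
        by_contra hh; push Not at hh; exact hn (funext hh)
      obtain ⟨b, hb⟩ := this
      apply sum_ch_hom (evH h n) (Pi.single i (Matrix.single a b 1))
      rw [evH_single]
      exact mul_ne_zero hia hb
    · intro hx; exact absurd (Finset.mem_univ _) hx
  rw [e2] at e1
  exact_mod_cast e1

/-! ### sparse vectors -/

theorem card_sparse {d m : ℕ} (hd : 0 < d) (hm : 0 < m) (w : ℕ) :
    (univ.filter fun v : Fin d → Fin m → ZMod q => wt v ≤ w).card ≤ (d * m * q) ^ w := by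
  classical
  induction w with
  | zero =>
    rw [pow_zero, Finset.card_le_one]
    intro a ha b hb
    rw [Finset.mem_filter] at ha hb
    have key : ∀ v : Fin d → Fin m → ZMod q, wt v ≤ 0 → v = 0 := by
      intro v hv
      have h1 : (univ.filter fun p : Fin d × Fin m => v p.1 p.2 ≠ 0) = ∅ :=
        Finset.card_eq_zero.mp (Nat.le_zero.mp hv)
      funext i j
      by_contra hne
      have : (i, j) ∈ (univ.filter fun p : Fin d × Fin m => v p.1 p.2 ≠ 0) := by
        rw [Finset.mem_filter]; exact ⟨Finset.mem_univ _, hne⟩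
      rw [h1] at this
      exact absurd this (Finset.notMem_empty _)
    rw [key a ha.2, key b hb.2]
  | succ w ih =>
    have hsub : (univ.filter fun v : Fin d → Fin m → ZMod q => wt v ≤ w + 1) ⊆
        ((univ.filter fun v : Fin d → Fin m → ZMod q => wt v ≤ w) ×ˢ
          (univ : Finset ((Fin d × Fin m) × ZMod q))).image
          (fun p => p.1 + Pi.single p.2.1.1 (Pi.single p.2.1.2 p.2.2)) := by
      intro v hv
      rw [Finset.mem_filter] at hv
      rw [Finset.mem_image]
      by_cases h0 : ∃ p : Fin d × Fin m, v p.1 p.2 ≠ 0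
      · obtain ⟨p, hp⟩ := h0
        set v' : Fin d → Fin m → ZMod q := v - Pi.single p.1 (Pi.single p.2 (v p.1 p.2)) with hv'
        refine ⟨(v', (p, v p.1 p.2)), ?_, ?_⟩
        · rw [Finset.mem_product]
          refine ⟨?_, Finset.mem_univ _⟩
          rw [Finset.mem_filter]
          refine ⟨Finset.mem_univ _, ?_⟩
          have h1 : (univ.filter fun r : Fin d × Fin m =>
              v' r.1 r.2 ≠ 0) ⊆
              (univ.filter fun r : Fin d × Fin m => v r.1 r.2 ≠ 0).erase p := by
            intro r hr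
            rw [Finset.mem_filter] at hr
            have hval : v' r.1 r.2 =
                if r = p then 0 else v r.1 r.2 := by
              rw [hv', Pi.sub_apply, Pi.sub_apply]
              by_cases hrp : r = p
              · subst hrp
                rw [Pi.single_eq_same, Pi.single_eq_same, sub_self, if_pos rfl]
              · rw [if_neg hrp]
                by_cases h1 : r.1 = p.1
                · rw [h1, Pi.single_eq_same, Pi.single_eq_of_ne, sub_zero]
                  intro h2
                  exact hrp (Prod.ext h1 h2)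
                · rw [Pi.single_eq_of_ne h1, Pi.zero_apply, sub_zero]
            rw [Finset.mem_erase, Finset.mem_filter]
            refine ⟨?_, Finset.mem_univ _, ?_⟩
            · rintro rfl
              apply hr.2
              simp [hval]
            · intro hv0
              apply hr.2
              rw [hval, hv0]
              simp
          have h2 : (univ.filter fun r : Fin d × Fin m =>
              v' r.1 r.2 ≠ 0).card ≤
              (univ.filter fun r : Fin d × Fin m => v r.1 r.2 ≠ 0).card - 1 := by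
            rw [← Finset.card_erase_of_mem (s := univ.filter fun r : Fin d × Fin m => v r.1 r.2 ≠ 0)
              (a := p) (by rw [Finset.mem_filter]; exact ⟨Finset.mem_univ _, hp⟩)]
            exact Finset.card_le_card h1
          have h3 : (univ.filter fun r : Fin d × Fin m => v r.1 r.2 ≠ 0).card ≤ w + 1 := hv.2
          change (univ.filter fun r : Fin d × Fin m => v' r.1 r.2 ≠ 0).card ≤ w
          omega
        · simp [hv']
      · push Not at h0
        have hz : v = 0 := funext fun i => funext fun j => h0 (i, j)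
        refine ⟨(0, ((⟨0, hd⟩, ⟨0, hm⟩), 0)), ?_, ?_⟩
        · rw [Finset.mem_product]
          refine ⟨?_, Finset.mem_univ _⟩
          rw [Finset.mem_filter]
          refine ⟨Finset.mem_univ _, ?_⟩
          have : wt (0 : Fin d → Fin m → ZMod q) = 0 := by unfold wt; simp
          change wt (0 : Fin d → Fin m → ZMod q) ≤ w
          rw [this]; exact Nat.zero_le _
        · rw [hz]; simp
    calc _ ≤ _ := Finset.card_le_card hsub
      _ ≤ _ := Finset.card_image_le
      _ = (univ.filter fun v : Fin d → Fin m → ZMod q => wt v ≤ w).card * (d * m * q) := by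
        rw [Finset.card_product]
        congr 1
        rw [Finset.card_univ, Fintype.card_prod, Fintype.card_prod, Fintype.card_fin, Fintype.card_fin,
          ZMod.card]
      _ ≤ (d * m * q) ^ w * (d * m * q) := Nat.mul_le_mul_right _ ih
      _ = (d * m * q) ^ (w + 1) := by rw [pow_succ]

theorem card_NS {d m : ℕ} (hd : 0 < d) (hm : 0 < m) (w : ℕ)
    [DecidablePred fun C : Fin d → Matrix (Fin m) (Fin m) (ZMod q) => ∃ v ∈ K C, v ≠ 0 ∧ wt v ≤ w] :
    ((univ.filter fun C : Fin d → Matrix (Fin m) (Fin m) (ZMod q) =>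
      ∃ v ∈ K C, v ≠ 0 ∧ wt v ≤ w).card : ℝ) * (q : ℝ) ^ m ≤
      ((d * m * q : ℕ) : ℝ) ^ w * (q : ℝ) ^ (d * m ^ 2) := by
  classical
  have hsub : (univ.filter fun C : Fin d → Matrix (Fin m) (Fin m) (ZMod q) =>
      ∃ v ∈ K C, v ≠ 0 ∧ wt v ≤ w) ⊆
      (univ.filter fun v : Fin d → Fin m → ZMod q => wt v ≤ w ∧ v ≠ 0).biUnion
        (fun v => univ.filter fun C : Fin d → Matrix (Fin m) (Fin m) (ZMod q) => v ∈ K C) := by
    intro C hC
    rw [Finset.mem_filter] at hC
    obtain ⟨_, v, hv, hv0, hw⟩ := hC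
    rw [Finset.mem_biUnion]
    refine ⟨v, ?_, ?_⟩
    · rw [Finset.mem_filter]; exact ⟨Finset.mem_univ _, hw, hv0⟩
    · rw [Finset.mem_filter]; exact ⟨Finset.mem_univ _, hv⟩
  have h1 : ((univ.filter fun C : Fin d → Matrix (Fin m) (Fin m) (ZMod q) =>
      ∃ v ∈ K C, v ≠ 0 ∧ wt v ≤ w).card : ℝ) ≤
      ∑ v ∈ univ.filter (fun v : Fin d → Fin m → ZMod q => wt v ≤ w ∧ v ≠ 0),
        ((univ.filter fun C : Fin d → Matrix (Fin m) (Fin m) (ZMod q) => v ∈ K C).card : ℝ) := by
    have := (Finset.card_le_card hsub).trans Finset.card_biUnion_le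
    exact_mod_cast this
  have hq : (0 : ℝ) < (q : ℝ) ^ m := by
    have : (0 : ℝ) < q := by exact_mod_cast (Fact.out : q.Prime).pos
    positivity
  calc _ ≤ (∑ v ∈ univ.filter (fun v : Fin d → Fin m → ZMod q => wt v ≤ w ∧ v ≠ 0),
        ((univ.filter fun C : Fin d → Matrix (Fin m) (Fin m) (ZMod q) => v ∈ K C).card : ℝ)) *
          (q : ℝ) ^ m := mul_le_mul_of_nonneg_right h1 hq.le
    _ = ∑ v ∈ univ.filter (fun v : Fin d → Fin m → ZMod q => wt v ≤ w ∧ v ≠ 0), (q : ℝ) ^ (d * m ^ 2) := by
        rw [Finset.sum_mul]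
        apply Finset.sum_congr rfl
        intro v hv
        rw [Finset.mem_filter] at hv
        exact count_one v hv.2.2
    _ = ((univ.filter (fun v : Fin d → Fin m → ZMod q => wt v ≤ w ∧ v ≠ 0)).card : ℝ) *
          (q : ℝ) ^ (d * m ^ 2) := by rw [Finset.sum_const, nsmul_eq_mul]
    _ ≤ _ := by
        apply mul_le_mul_of_nonneg_right _ (by positivity)
        have h2 : (univ.filter (fun v : Fin d → Fin m → ZMod q => wt v ≤ w ∧ v ≠ 0)).card ≤
            (univ.filter fun v : Fin d → Fin m → ZMod q => wt v ≤ w).card := by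
          apply Finset.card_le_card
          intro v hv
          rw [Finset.mem_filter] at hv ⊢
          exact ⟨hv.1, hv.2.1⟩
        exact_mod_cast h2.trans (card_sparse hd hm w)

/-! ### vectors with prescribed tops -/

/-- digit vectors with last nonzero entry `1` at position `k` -/
def TT {m : ℕ} (k : Fin m) : Finset (Fin m → ZMod q) :=
  Fintype.piFinset fun j => if j < k then univ else if j = k then {1} else {0}

theorem mem_TT {m : ℕ} (k : Fin m) (y : Fin m → ZMod q) :
    y ∈ TT k ↔ y k = 1 ∧ ∀ j, k < j → y j = 0 := by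
  unfold TT
  rw [Fintype.mem_piFinset]
  constructor
  · intro h
    constructor
    · have := h k
      rw [if_neg (lt_irrefl k), if_pos rfl, Finset.mem_singleton] at this
      exact this
    · intro j hj
      have := h j
      rw [if_neg (not_lt.mpr hj.le), if_neg hj.ne', Finset.mem_singleton] at this
      exact this
  · rintro ⟨h1, h2⟩ j
    split_ifs with h3 h4
    · exact Finset.mem_univ _
    · rw [h4, Finset.mem_singleton]; exact h1
    · rw [Finset.mem_singleton]
      exact h2 j (lt_of_le_of_ne (not_lt.mp h3) (Ne.symm h4))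

theorem card_TT {m : ℕ} (k : Fin m) : (TT k : Finset (Fin m → ZMod q)).card = q ^ (k : ℕ) := by
  unfold TT
  rw [Fintype.card_piFinset]
  have e1 : ∀ j : Fin m, (if j < k then (univ : Finset (ZMod q)) else if j = k then {1} else {0}).card =
      if j < k then q else 1 := by
    intro j
    split_ifs
    · rw [Finset.card_univ, ZMod.card]
    · simp
    · simp
  rw [Finset.prod_congr rfl fun j _ => e1 j, Finset.prod_ite, Finset.prod_const, Finset.prod_const_one,
    mul_one]
  congr 1
  conv_rhs => rw [← Fin.card_Iio k]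
  congr 1
  ext j
  simp

/-- families of digit vectors with prescribed tops -/
def HH {d m : ℕ} (k : Fin d → Fin m) : Finset (Fin d → Fin m → ZMod q) :=
  Fintype.piFinset fun i => TT (k i)

theorem card_HH {d m : ℕ} (k : Fin d → Fin m) :
    (HH k : Finset (Fin d → Fin m → ZMod q)).card = q ^ (∑ i, (k i : ℕ)) := by
  unfold HH
  rw [Fintype.card_piFinset, Finset.prod_congr rfl fun i _ => card_TT (k i), Finset.prod_pow_eq_pow_sum]

theorem mem_HH {d m : ℕ} (k : Fin d → Fin m) (h : Fin d → Fin m → ZMod q) :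
    h ∈ HH k ↔ ∀ i, h i (k i) = 1 ∧ ∀ j, k i < j → h i j = 0 := by
  unfold HH
  rw [Fintype.mem_piFinset]
  exact forall_congr' fun i => mem_TT (k i) (h i)

theorem top_HH {d m : ℕ} {k : Fin d → Fin m} {h : Fin d → Fin m → ZMod q} (hh : h ∈ HH k) (i : Fin d) :
    isTop (h i) (k i) := by
  have := (mem_HH k h).mp hh i
  refine ⟨?_, this.2⟩
  rw [this.1]; exact one_ne_zero

theorem HH_ne {d m : ℕ} (hd : 0 < d) {k : Fin d → Fin m} {h : Fin d → Fin m → ZMod q} (hh : h ∈ HH k) :
    h ≠ 0 := by
  intro h0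
  have := (mem_HH k h).mp hh ⟨0, hd⟩
  rw [h0] at this
  exact zero_ne_one this.1

theorem HH_key {d m : ℕ} {k k' : Fin d → Fin m} {h h' : Fin d → Fin m → ZMod q}
    (hh : h ∈ HH k) (hh' : h' ∈ HH k') (c : ZMod q) (hc : h = c • h') (i : Fin d) :
    k i = k' i ∧ c = 1 := by
  have h1 := (mem_HH k h).mp hh i
  have h2 := (mem_HH k' h').mp hh' i
  have h3 : h i (k i) = c * h' i (k i) := by rw [hc]; rfl
  have h4 : h i (k' i) = c * h' i (k' i) := by rw [hc]; rfl
  have hc0 : c ≠ 0 := by
    intro hc0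
    rw [hc0, zero_mul, h1.1] at h3
    exact one_ne_zero h3
  have h5 : k i = k' i := by
    rcases lt_trichotomy (k i) (k' i) with h6 | h6 | h6
    · exfalso
      rw [h1.2 _ h6, h2.1, mul_one] at h4
      exact hc0 h4.symm
    · exact h6
    · exfalso
      rw [h1.1, h2.2 _ h6, mul_zero] at h3
      exact one_ne_zero h3
  refine ⟨h5, ?_⟩
  rw [h5, h2.1, mul_one, ← h5, h1.1] at h3
  exact h3.symm

theorem HH_ind {d m : ℕ} (hd : 0 < d) {k k' : Fin d → Fin m} {h h' : Fin d → Fin m → ZMod q}
    (hh : h ∈ HH k) (hh' : h' ∈ HH k') (hne : h ≠ h') (a b : ZMod q) (hab : a • h + b • h' = 0) :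
    a = 0 ∧ b = 0 := by
  have ha : a = 0 := by
    by_contra ha
    have h1 : h = (-(a⁻¹ * b)) • h' := by
      have h2 : a • h = -(b • h') := eq_neg_of_add_eq_zero_left hab
      calc h = a⁻¹ • (a • h) := by rw [smul_smul, inv_mul_cancel₀ ha, one_smul]
        _ = (-(a⁻¹ * b)) • h' := by rw [h2, smul_neg, smul_smul, neg_smul]
    have h2 := (HH_key hh hh' _ h1 ⟨0, hd⟩).2
    rw [h2, one_smul] at h1
    exact hne h1
  refine ⟨ha, ?_⟩
  rw [ha, zero_smul, zero_add] at hab
  by_contra hb
  rcases smul_eq_zero.mp hab with h1 | h1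
  · exact hb h1
  · exact HH_ne hd hh' h1

theorem HH_k {d m : ℕ} {k k' : Fin d → Fin m} {h : Fin d → Fin m → ZMod q}
    (hh : h ∈ HH k) (hh' : h ∈ HH k') : k = k' :=
  funext fun i => (HH_key hh hh' 1 (by rw [one_smul]) i).1

end Pool.N672.DN
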