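import Mathlib

/-! Definitions and the basic character sums for the digital nets project (all finite). -/

open Finset

namespace Pool.N672.DN

variable {q : ℕ} [Fact q.Prime]

/-- the value of a digit vector, most significant digit first -/
def nv {m : ℕ} (y : Fin m → ZMod q) : ℕ := ∑ i, (y i).val * q ^ (m - 1 - (i : ℕ))

/-- the additive character `t ↦ exp(2 π i t / q)` -/
noncomputable def ch (t : ZMod q) : ℂ := ZMod.stdAddChar t

/-- scalar product of two digit vectors -/
def pr {m : ℕ} (g x : Fin m → ZMod q) : ZMod q := ∑ k, g k * x k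

/-- scalar product of two families of digit vectors -/
def pr2 {d m : ℕ} (g x : Fin d → Fin m → ZMod q) : ZMod q := ∑ i, pr (g i) (x i)

/-- the relations satisfied by the rows of the generating matrices -/
def K {d m : ℕ} (C : Fin d → Matrix (Fin m) (Fin m) (ZMod q)) :
    Submodule (ZMod q) (Fin d → Fin m → ZMod q) where
  carrier := {h | ∑ i, Matrix.vecMul (h i) (C i) = 0}
  add_mem' := by
    intro a b ha hb
    simp only [Set.mem_ofPred_eq] at *
    have : ∀ i, Matrix.vecMul ((a + b) i) (C i) = Matrix.vecMul (a i) (C i) + Matrix.vecMul (b i) (C i) := by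
      intro i
      rw [Pi.add_apply, Matrix.add_vecMul]
    rw [Finset.sum_congr rfl fun i _ => this i, Finset.sum_add_distrib, ha, hb, add_zero]
  zero_mem' := by
    simp only [Set.mem_ofPred_eq]
    apply Finset.sum_eq_zero
    intro i _
    exact Matrix.zero_vecMul _
  smul_mem' := by
    intro c x hx
    simp only [Set.mem_ofPred_eq] at *
    have : ∀ i, Matrix.vecMul ((c • x) i) (C i) = c • Matrix.vecMul (x i) (C i) := by
      intro i
      rw [Pi.smul_apply, Matrix.smul_vecMul]
    rw [Finset.sum_congr rfl fun i _ => this i, ← Finset.smul_sum, hx, smul_zero]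

/-- number of net points in the box with upper corner given by `x` (digital shift `s`) -/
noncomputable def cnt {d m : ℕ} (C : Fin d → Matrix (Fin m) (Fin m) (ZMod q))
    (s x : Fin d → Fin m → ZMod q) : ℕ :=
  (univ.filter fun n : Fin m → ZMod q => ∀ i, nv (Matrix.mulVec (C i) n + s i) < nv (x i)).card

/-- local discrepancy at a grid point -/
noncomputable def Dl {d m : ℕ} (C : Fin d → Matrix (Fin m) (Fin m) (ZMod q))
    (s x : Fin d → Fin m → ZMod q) : ℝ :=
  (cnt C s x : ℝ) - (q : ℝ) ^ m * ∏ i, ((nv (x i) : ℝ) / (q : ℝ) ^ m)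

/-- the kernel -/
noncomputable def kap {m : ℕ} (g h : Fin m → ZMod q) : ℂ :=
  ∑ x : Fin m → ZMod q, ∑ y : Fin m → ZMod q, if nv y < nv x then ch (pr g x - pr h y) else 0

/-- `k` is the last nonzero position of `h` -/
def isTop {m : ℕ} (h : Fin m → ZMod q) (k : Fin m) : Prop := h k ≠ 0 ∧ ∀ j, k < j → h j = 0

/-- number of nonzero entries -/
def wt {d m : ℕ} (v : Fin d → Fin m → ZMod q) : ℕ :=
  (univ.filter fun p : Fin d × Fin m => v p.1 p.2 ≠ 0).card

/-! ### character sums -/

theorem ch_add (a b : ZMod q) : ch (a + b) = ch a * ch b := by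
  unfold ch; exact AddChar.map_add_eq_mul _ _ _

theorem ch_zero : ch (0 : ZMod q) = 1 := by
  unfold ch; exact AddChar.map_zero_eq_one _

theorem ch_ne_zero (a : ZMod q) : ch a ≠ 0 := by
  intro h
  have := ch_add a (-a)
  rw [add_neg_cancel, ch_zero, h, zero_mul] at this
  exact one_ne_zero this

theorem ch_sub (a b : ZMod q) : ch (a - b) = ch a * ch (-b) := by
  rw [sub_eq_add_neg, ch_add]

theorem norm_ch (a : ZMod q) : ‖ch a‖ = 1 := by
  unfold ch
  rw [ZMod.stdAddChar_apply]
  exact Circle.norm_coe _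

theorem ch_neg (a : ZMod q) : ch (-a) = (starRingEnd ℂ) (ch a) := by
  have h1 : ch a * ch (-a) = 1 := by rw [← ch_add, add_neg_cancel, ch_zero]
  have h2 : ch a * (starRingEnd ℂ) (ch a) = 1 := by
    rw [Complex.mul_conj, Complex.normSq_eq_norm_sq, norm_ch]; norm_num
  exact mul_left_cancel₀ (ch_ne_zero a) (h1.trans h2.symm)

theorem ch_eq_one {a : ZMod q} (h : ch a = 1) : a = 0 := by
  unfold ch at h
  apply ZMod.injective_stdAddChar
  rw [h, AddChar.map_zero_eq_one]

theorem ch_sum {ι : Type*} (s : Finset ι) (f : ι → ZMod q) : ch (∑ i ∈ s, f i) = ∏ i ∈ s, ch (f i) := by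
  classical
  induction s using Finset.induction_on with
  | empty => simp [ch_zero]
  | insert a s ha ih => rw [Finset.sum_insert ha, Finset.prod_insert ha, ch_add, ih]

/-- orthogonality on a finite group -/
theorem sum_ch_hom {G : Type*} [AddCommGroup G] [Fintype G] (f : G →+ ZMod q) (x₀ : G) (h : f x₀ ≠ 0) :
    ∑ x : G, ch (f x) = 0 := by
  have h1 : ∑ x : G, ch (f x) = ch (f x₀) * ∑ x : G, ch (f x) := by
    conv_lhs => rw [← Equiv.sum_comp (Equiv.addLeft x₀)]
    rw [Finset.mul_sum]
    apply Finset.sum_congr rfl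
    intro x _
    rw [Equiv.coe_addLeft, map_add, ch_add]
  have h2 : ch (f x₀) ≠ 1 := fun hh => h (ch_eq_one hh)
  by_contra h3
  apply h2
  have h4 : (1 : ℂ) * ∑ x : G, ch (f x) = ch (f x₀) * ∑ x : G, ch (f x) := by rw [one_mul]; exact h1
  exact (mul_right_cancel₀ h3 h4).symm

theorem sum_ch_hom_zero {G : Type*} [AddCommGroup G] [Fintype G] (f : G →+ ZMod q) (h : ∀ x, f x = 0) :
    ∑ x : G, ch (f x) = Fintype.card G := by
  rw [Finset.sum_congr rfl fun x _ => by rw [h x, ch_zero]]
  simp

/-! ### scalar products -/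

theorem pr_add_right {m : ℕ} (g x y : Fin m → ZMod q) : pr g (x + y) = pr g x + pr g y := by
  unfold pr; rw [← Finset.sum_add_distrib]; exact Finset.sum_congr rfl fun k _ => by rw [Pi.add_apply, mul_add]

theorem pr_add_left {m : ℕ} (g h x : Fin m → ZMod q) : pr (g + h) x = pr g x + pr h x := by
  unfold pr; rw [← Finset.sum_add_distrib]; exact Finset.sum_congr rfl fun k _ => by rw [Pi.add_apply, add_mul]

theorem pr_zero_left {m : ℕ} (x : Fin m → ZMod q) : pr 0 x = 0 := by
  unfold pr; simp

theorem pr_zero_right {m : ℕ} (x : Fin m → ZMod q) : pr x 0 = 0 := by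
  unfold pr; simp

/-- the homomorphism `x ↦ ⟨g, x⟩` -/
def prH {m : ℕ} (g : Fin m → ZMod q) : (Fin m → ZMod q) →+ ZMod q where
  toFun := pr g
  map_zero' := pr_zero_right g
  map_add' := pr_add_right g

theorem pr2_add_right {d m : ℕ} (g x y : Fin d → Fin m → ZMod q) : pr2 g (x + y) = pr2 g x + pr2 g y := by
  unfold pr2; rw [← Finset.sum_add_distrib]; exact Finset.sum_congr rfl fun k _ => by rw [Pi.add_apply, pr_add_right]

theorem pr2_add_left {d m : ℕ} (g h x : Fin d → Fin m → ZMod q) : pr2 (g + h) x = pr2 g x + pr2 h x := by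
  unfold pr2; rw [← Finset.sum_add_distrib]; exact Finset.sum_congr rfl fun k _ => by rw [Pi.add_apply, pr_add_left]

theorem pr2_zero_right {d m : ℕ} (x : Fin d → Fin m → ZMod q) : pr2 x 0 = 0 := by
  unfold pr2; simp [pr_zero_right]

theorem pr2_zero_left {d m : ℕ} (x : Fin d → Fin m → ZMod q) : pr2 0 x = 0 := by
  unfold pr2; simp [pr_zero_left]

theorem pr2_smul_left {d m : ℕ} (c : ZMod q) (g x : Fin d → Fin m → ZMod q) :
    pr2 (c • g) x = c * pr2 g x := by
  unfold pr2 pr
  rw [Finset.mul_sum]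
  apply Finset.sum_congr rfl
  intro i _
  rw [Finset.mul_sum]
  apply Finset.sum_congr rfl
  intro j _
  simp only [Pi.smul_apply, smul_eq_mul]
  ring

theorem pr2_neg_left {d m : ℕ} (g x : Fin d → Fin m → ZMod q) :
    pr2 (-g) x = - pr2 g x := by
  have := pr2_smul_left (-1) g x
  rw [neg_one_smul, neg_one_mul] at this
  exact this

theorem pr2_sum_left {d m : ℕ} {ι : Type*} (s : Finset ι) (g : ι → Fin d → Fin m → ZMod q)
    (x : Fin d → Fin m → ZMod q) : pr2 (∑ a ∈ s, g a) x = ∑ a ∈ s, pr2 (g a) x := by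
  classical
  induction s using Finset.induction_on with
  | empty => simp [pr2_zero_left]
  | insert a s ha ih => rw [Finset.sum_insert ha, Finset.sum_insert ha, pr2_add_left, ih]

/-- the homomorphism `x ↦ ⟨g, x⟩` -/
def pr2H {d m : ℕ} (g : Fin d → Fin m → ZMod q) : (Fin d → Fin m → ZMod q) →+ ZMod q where
  toFun := pr2 g
  map_zero' := pr2_zero_right g
  map_add' := pr2_add_right g

theorem pr_single {m : ℕ} (g : Fin m → ZMod q) (k : Fin m) (c : ZMod q) : pr g (Pi.single k c) = g k * c := by
  unfold pr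
  rw [Finset.sum_eq_single k]
  · rw [Pi.single_eq_same]
  · intro b _ hb
    rw [Pi.single_eq_of_ne hb, mul_zero]
  · intro h; exact absurd (Finset.mem_univ k) h

theorem pr2_single {d m : ℕ} (g : Fin d → Fin m → ZMod q) (i : Fin d) (x : Fin m → ZMod q) :
    pr2 g (Pi.single i x) = pr (g i) x := by
  unfold pr2
  rw [Finset.sum_eq_single i]
  · rw [Pi.single_eq_same]
  · intro b _ hb
    rw [Pi.single_eq_of_ne hb, pr_zero_right]
  · intro h; exact absurd (Finset.mem_univ i) h

theorem sum_ch_pr {m : ℕ} (g : Fin m → ZMod q) :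
    ∑ x : Fin m → ZMod q, ch (pr g x) = if g = 0 then (q : ℂ) ^ m else 0 := by
  split_ifs with h
  · have := sum_ch_hom_zero (prH g) (by intro x; rw [h]; exact pr_zero_left x)
    have h2 : (Fintype.card (Fin m → ZMod q) : ℂ) = (q : ℂ) ^ m := by
      rw [Fintype.card_fun, ZMod.card, Fintype.card_fin]; push_cast; rfl
    rw [← h2]; exact this
  · have : ∃ k, g k ≠ 0 := by
      by_contra hh; push Not at hh; exact h (funext hh)
    obtain ⟨k, hk⟩ := this
    exact sum_ch_hom (prH g) (Pi.single k 1) (by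
      change pr g (Pi.single k 1) ≠ 0
      rw [pr_single, mul_one]; exact hk)

theorem sum_ch_pr2 {d m : ℕ} (g : Fin d → Fin m → ZMod q) :
    ∑ x : Fin d → Fin m → ZMod q, ch (pr2 g x) = if g = 0 then (q : ℂ) ^ (d * m) else 0 := by
  split_ifs with h
  · have := sum_ch_hom_zero (pr2H g) (by intro x; rw [h]; exact pr2_zero_left x)
    have h2 : (Fintype.card (Fin d → Fin m → ZMod q) : ℂ) = (q : ℂ) ^ (d * m) := by
      rw [Fintype.card_fun, Fintype.card_fun, ZMod.card, Fintype.card_fin, Fintype.card_fin]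
      push_cast; rw [← pow_mul, mul_comm]
    rw [← h2]; exact this
  · have : ∃ i k, g i k ≠ 0 := by
      by_contra hh; push Not at hh; exact h (funext fun i => funext (hh i))
    obtain ⟨i, k, hk⟩ := this
    exact sum_ch_hom (pr2H g) (Pi.single i (Pi.single k 1)) (by
      change pr2 g (Pi.single i (Pi.single k 1)) ≠ 0
      rw [pr2_single, pr_single, mul_one]; exact hk)

end Pool.N672.DN
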