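import Pool.Agent.N672.DN.Ker

open Finset

namespace Pool.N672.DN

variable {q : ℕ} [Fact q.Prime]

theorem nv_inj {m : ℕ} : Function.Injective (nv : (Fin m → ZMod q) → ℕ) := by
  induction m with
  | zero => intro a b _; funext i; exact i.elim0
  | succ m ih =>
    intro x y hxy
    rw [← Fin.cons_self_tail x, ← Fin.cons_self_tail y] at hxy ⊢
    rw [nv_cons, nv_cons] at hxy
    have h1 := nv_lt (Fin.tail x)
    have h2 := nv_lt (Fin.tail y)
    have hq : 0 < q ^ m := Nat.pow_pos (Fact.out : q.Prime).pos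
    have h3 : (x 0).val = (y 0).val := by
      have e1 : ((x 0).val * q ^ m + nv (Fin.tail x)) / q ^ m = (x 0).val := by
        rw [mul_comm, Nat.mul_add_div hq, Nat.div_eq_of_lt h1, add_zero]
      have e2 : ((y 0).val * q ^ m + nv (Fin.tail y)) / q ^ m = (y 0).val := by
        rw [mul_comm, Nat.mul_add_div hq, Nat.div_eq_of_lt h2, add_zero]
      rw [← e1, ← e2, hxy]
    have h4 : nv (Fin.tail x) = nv (Fin.tail y) := by
      rw [h3] at hxy; omega
    rw [ih h4, ZMod.val_injective q h3]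

theorem card_nv_lt {m : ℕ} (N : ℕ) (hN : N ≤ q ^ m) :
    (univ.filter fun y : Fin m → ZMod q => nv y < N).card = N := by
  have hb : Function.Bijective (fun y : Fin m → ZMod q => (⟨nv y, nv_lt y⟩ : Fin (q ^ m))) := by
    rw [Fintype.bijective_iff_injective_and_card]
    refine ⟨?_, ?_⟩
    · intro a b hab
      exact nv_inj (by simpa using hab)
    · rw [Fintype.card_fun, ZMod.card, Fintype.card_fin, Fintype.card_fin]
  have h1 : (univ.filter fun y : Fin m → ZMod q => nv y < N).card = (Finset.range N).card := by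
    apply Finset.card_bij (fun y _ => nv y)
    · intro a ha
      rw [Finset.mem_filter] at ha
      rw [Finset.mem_range]
      exact ha.2
    · intro a _ b _ hab
      exact nv_inj hab
    · intro n hn
      rw [Finset.mem_range] at hn
      obtain ⟨y, hy⟩ := hb.2 ⟨n, lt_of_lt_of_le hn hN⟩
      have hy' : nv y = n := by simpa using congrArg Fin.val hy
      refine ⟨y, ?_, hy'⟩
      rw [Finset.mem_filter]
      exact ⟨Finset.mem_univ _, by rw [hy']; exact hn⟩
  rw [h1, Finset.card_range]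

theorem kap_zero_right {m : ℕ} (g : Fin m → ZMod q) :
    kap g 0 = ∑ x : Fin m → ZMod q, (nv x : ℂ) * ch (pr g x) := by
  unfold kap
  apply Finset.sum_congr rfl
  intro x _
  have : ∀ y : Fin m → ZMod q, (if nv y < nv x then ch (pr g x - pr 0 y) else 0) =
      (if nv y < nv x then 1 else 0) * ch (pr g x) := by
    intro y
    rw [pr_zero_left, sub_zero]
    split_ifs
    · rw [one_mul]
    · rw [zero_mul]
  rw [Finset.sum_congr rfl fun y _ => this y, ← Finset.sum_mul, Finset.sum_boole,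
    card_nv_lt _ (nv_lt x).le]

theorem prod_sum2 {d m : ℕ} (F : Fin d → (Fin m → ZMod q) → (Fin m → ZMod q) → ℂ) :
    ∏ i, ∑ a, ∑ b, F i a b =
      ∑ x : Fin d → Fin m → ZMod q, ∑ y : Fin d → Fin m → ZMod q, ∏ i, F i (x i) (y i) := by
  rw [Finset.prod_univ_sum, Fintype.piFinset_univ]
  apply Finset.sum_congr rfl
  intro x _
  rw [Finset.prod_univ_sum, Fintype.piFinset_univ]

theorem prod_sum1 {d m : ℕ} (F : Fin d → (Fin m → ZMod q) → ℂ) :
    ∏ i, ∑ a, F i a = ∑ x : Fin d → Fin m → ZMod q, ∏ i, F i (x i) := by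
  rw [Finset.prod_univ_sum, Fintype.piFinset_univ]

theorem pr_comm {m : ℕ} (g x : Fin m → ZMod q) : pr g x = pr x g := by
  unfold pr; exact Finset.sum_congr rfl fun k _ => mul_comm _ _

theorem pr2_comm {d m : ℕ} (g x : Fin d → Fin m → ZMod q) : pr2 g x = pr2 x g := by
  unfold pr2; exact Finset.sum_congr rfl fun k _ => pr_comm _ _

theorem pr2_sub_right {d m : ℕ} (g x y : Fin d → Fin m → ZMod q) : pr2 g (x - y) = pr2 g x - pr2 g y := by
  have := pr2_add_right g (x - y) y
  rw [sub_add_cancel] at this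
  rw [this]; ring

/-- Fourier inversion -/
theorem inversion {d m : ℕ} (f : (Fin d → Fin m → ZMod q) → ℂ) (y : Fin d → Fin m → ZMod q) :
    (q : ℂ) ^ (d * m) * f y =
      ∑ h : Fin d → Fin m → ZMod q, ch (pr2 h y) * ∑ y' : Fin d → Fin m → ZMod q, ch (- pr2 h y') * f y' := by
  have e1 : ∀ h : Fin d → Fin m → ZMod q, ch (pr2 h y) * ∑ y' : Fin d → Fin m → ZMod q, ch (- pr2 h y') * f y' =
      ∑ y' : Fin d → Fin m → ZMod q, f y' * ch (pr2 (y - y') h) := by
    intro h
    rw [Finset.mul_sum]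
    apply Finset.sum_congr rfl
    intro y' _
    rw [pr2_comm (y - y') h, pr2_sub_right, sub_eq_add_neg, ch_add]
    ring
  rw [Finset.sum_congr rfl fun h _ => e1 h, Finset.sum_comm]
  have e2 : ∀ y' : Fin d → Fin m → ZMod q, ∑ h : Fin d → Fin m → ZMod q, f y' * ch (pr2 (y - y') h) =
      f y' * (if y - y' = 0 then (q : ℂ) ^ (d * m) else 0) := by
    intro y'
    rw [← Finset.mul_sum, sum_ch_pr2]
  rw [Finset.sum_congr rfl fun y' _ => e2 y', Finset.sum_eq_single y]
  · rw [sub_self, if_pos rfl, mul_comm]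
  · intro b _ hb
    rw [if_neg (fun h => hb (sub_eq_zero.mp h).symm), mul_zero]
  · intro h; exact absurd (Finset.mem_univ y) h

theorem pr_mulVec {m : ℕ} (h n : Fin m → ZMod q) (A : Matrix (Fin m) (Fin m) (ZMod q)) :
    pr h (Matrix.mulVec A n) = pr (Matrix.vecMul h A) n := by
  have := Matrix.dotProduct_mulVec h A n
  exact this

theorem pr_sum_left {m : ℕ} {ι : Type*} (s : Finset ι) (g : ι → Fin m → ZMod q)
    (x : Fin m → ZMod q) : pr (∑ a ∈ s, g a) x = ∑ a ∈ s, pr (g a) x := by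
  classical
  induction s using Finset.induction_on with
  | empty => simp [pr_zero_left]
  | insert a s ha ih => rw [Finset.sum_insert ha, Finset.sum_insert ha, pr_add_left, ih]

theorem sum_ch_net {d m : ℕ} (C : Fin d → Matrix (Fin m) (Fin m) (ZMod q))
    (h : Fin d → Fin m → ZMod q) [Decidable (h ∈ K C)] :
    ∑ n : Fin m → ZMod q, ch (pr2 h (fun i => Matrix.mulVec (C i) n)) =
      if h ∈ K C then (q : ℂ) ^ m else 0 := by
  have e1 : ∀ n : Fin m → ZMod q, pr2 h (fun i => Matrix.mulVec (C i) n) =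
      pr (∑ i, Matrix.vecMul (h i) (C i)) n := by
    intro n
    rw [pr_sum_left]
    unfold pr2
    exact Finset.sum_congr rfl fun i _ => pr_mulVec _ _ _
  rw [Finset.sum_congr rfl fun n _ => by rw [e1 n], sum_ch_pr]
  by_cases hh : h ∈ K C
  · rw [if_pos hh, if_pos]
    exact hh
  · rw [if_neg hh, if_neg]
    exact hh

theorem fou_cnt {d m : ℕ} (C : Fin d → Matrix (Fin m) (Fin m) (ZMod q))
    (s g : Fin d → Fin m → ZMod q) [DecidablePred (· ∈ K C)] :
    (q : ℂ) ^ (d * m) * ∑ x : Fin d → Fin m → ZMod q, ch (pr2 g x) * (cnt C s x : ℂ) =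
      (q : ℂ) ^ m * ∑ h : Fin d → Fin m → ZMod q, if h ∈ K C then ch (pr2 h s) * ∏ i, kap (g i) (h i) else 0 := by
  have e1 : ∀ x : Fin d → Fin m → ZMod q, (cnt C s x : ℂ) = ∑ n : Fin m → ZMod q,
      ∏ i, (if nv ((fun i => Matrix.mulVec (C i) n + s i) i) < nv (x i) then (1 : ℂ) else 0) := by
    intro x
    unfold cnt
    rw [← Finset.sum_boole]
    apply Finset.sum_congr rfl
    intro n _
    rw [Finset.prod_ite_zero]
    simp
  have e2 : ∀ x : Fin d → Fin m → ZMod q, (q : ℂ) ^ (d * m) * (ch (pr2 g x) * (cnt C s x : ℂ)) =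
      ∑ h : Fin d → Fin m → ZMod q, ∑ n : Fin m → ZMod q,
        ch (pr2 h (fun i => Matrix.mulVec (C i) n)) * (ch (pr2 h s) *
        ∑ y' : Fin d → Fin m → ZMod q, ch (pr2 g x - pr2 h y') *
          ∏ i, (if nv (y' i) < nv (x i) then (1 : ℂ) else 0)) := by
    intro x
    have : (q : ℂ) ^ (d * m) * (ch (pr2 g x) * (cnt C s x : ℂ)) =
      ch (pr2 g x) * ∑ n : Fin m → ZMod q, ((q : ℂ) ^ (d * m) *
        ∏ i, (if nv ((fun i => Matrix.mulVec (C i) n + s i) i) < nv (x i) then (1 : ℂ) else 0)) := by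
      rw [e1 x, ← Finset.mul_sum]; ring
    rw [this, Finset.mul_sum, Finset.sum_comm]
    apply Finset.sum_congr rfl
    intro n _
    rw [inversion (fun y' : Fin d → Fin m → ZMod q =>
      ∏ i, (if nv (y' i) < nv (x i) then (1 : ℂ) else 0)) (fun i => Matrix.mulVec (C i) n + s i),
      Finset.mul_sum]
    apply Finset.sum_congr rfl
    intro h _
    have e3 : pr2 h (fun i => Matrix.mulVec (C i) n + s i) =
        pr2 h (fun i => Matrix.mulVec (C i) n) + pr2 h s := by
      rw [← pr2_add_right]; rfl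
    rw [e3, ch_add]
    have e4 : ch (pr2 g x) * ∑ y' : Fin d → Fin m → ZMod q, ch (- pr2 h y') *
        ∏ i, (if nv (y' i) < nv (x i) then (1 : ℂ) else 0) =
        ∑ y' : Fin d → Fin m → ZMod q, ch (pr2 g x - pr2 h y') *
          ∏ i, (if nv (y' i) < nv (x i) then (1 : ℂ) else 0) := by
      rw [Finset.mul_sum]
      apply Finset.sum_congr rfl
      intro y' _
      rw [ch_sub]; ring
    rw [← e4]
    ring
  rw [Finset.mul_sum, Finset.sum_congr rfl fun x _ => e2 x, Finset.sum_comm, Finset.mul_sum]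
  apply Finset.sum_congr rfl
  intro h _
  have e5 : ∀ x : Fin d → Fin m → ZMod q, ∑ n : Fin m → ZMod q,
        ch (pr2 h (fun i => Matrix.mulVec (C i) n)) * (ch (pr2 h s) *
        ∑ y' : Fin d → Fin m → ZMod q, ch (pr2 g x - pr2 h y') *
          ∏ i, (if nv (y' i) < nv (x i) then (1 : ℂ) else 0)) =
      (if h ∈ K C then (q : ℂ) ^ m else 0) * (ch (pr2 h s) *
        ∑ y' : Fin d → Fin m → ZMod q, ch (pr2 g x - pr2 h y') *
          ∏ i, (if nv (y' i) < nv (x i) then (1 : ℂ) else 0)) := by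
    intro x
    rw [← Finset.sum_mul, sum_ch_net]
  rw [Finset.sum_congr rfl fun x _ => e5 x, ← Finset.mul_sum, ← Finset.mul_sum]
  have e6 : ∑ x : Fin d → Fin m → ZMod q, ∑ y' : Fin d → Fin m → ZMod q, ch (pr2 g x - pr2 h y') *
          ∏ i, (if nv (y' i) < nv (x i) then (1 : ℂ) else 0) = ∏ i, kap (g i) (h i) := by
    unfold kap
    rw [prod_sum2]
    apply Finset.sum_congr rfl
    intro x _
    apply Finset.sum_congr rfl
    intro y _
    have : ch (pr2 g x - pr2 h y) = ∏ i, ch (pr (g i) (x i) - pr (h i) (y i)) := by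
      rw [← ch_sum]
      unfold pr2
      rw [← Finset.sum_sub_distrib]
    rw [this, ← Finset.prod_mul_distrib]
    apply Finset.prod_congr rfl
    intro i _
    split_ifs
    · rw [mul_one]
    · rw [mul_zero]
  rw [e6]
  split_ifs
  · rfl
  · ring

theorem fou_main {d m : ℕ} (g : Fin d → Fin m → ZMod q) :
    (q : ℂ) ^ (d * m) * ∑ x : Fin d → Fin m → ZMod q, ch (pr2 g x) *
      (((q : ℝ) ^ m * ∏ i, ((nv (x i) : ℝ) / (q : ℝ) ^ m) : ℝ) : ℂ) =
      (q : ℂ) ^ m * ∏ i, kap (g i) 0 := by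
  have hq : (q : ℂ) ≠ 0 := by exact_mod_cast (Fact.out : q.Prime).ne_zero
  have e1 : ∏ i, kap (g i) 0 = ∑ x : Fin d → Fin m → ZMod q, ch (pr2 g x) * ∏ i, (nv (x i) : ℂ) := by
    rw [Finset.prod_congr rfl fun i _ => kap_zero_right (g i), prod_sum1]
    apply Finset.sum_congr rfl
    intro x _
    unfold pr2
    rw [ch_sum, ← Finset.prod_mul_distrib]
    exact Finset.prod_congr rfl fun i _ => mul_comm _ _
  rw [e1, Finset.mul_sum, Finset.mul_sum]
  apply Finset.sum_congr rfl
  intro x _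
  push_cast
  rw [Finset.prod_div_distrib, Finset.prod_const, Finset.card_univ, Fintype.card_fin, ← pow_mul,
    mul_comm m d]
  field_simp

/-- the Fourier coefficients of the local discrepancy -/
theorem fou {d m : ℕ} (C : Fin d → Matrix (Fin m) (Fin m) (ZMod q))
    (s g : Fin d → Fin m → ZMod q) [DecidablePred (· ∈ K C)] :
    (q : ℂ) ^ (d * m) * ∑ x : Fin d → Fin m → ZMod q, ch (pr2 g x) * (Dl C s x : ℂ) =
      (q : ℂ) ^ m * ∑ h : Fin d → Fin m → ZMod q,
        if h ∈ K C ∧ h ≠ 0 then ch (pr2 h s) * ∏ i, kap (g i) (h i) else 0 := by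
  have e1 : ∀ x : Fin d → Fin m → ZMod q, ch (pr2 g x) * (Dl C s x : ℂ) =
      ch (pr2 g x) * (cnt C s x : ℂ) - ch (pr2 g x) *
        (((q : ℝ) ^ m * ∏ i, ((nv (x i) : ℝ) / (q : ℝ) ^ m) : ℝ) : ℂ) := by
    intro x
    unfold Dl
    push_cast
    ring
  rw [Finset.sum_congr rfl fun x _ => e1 x, Finset.sum_sub_distrib, mul_sub, fou_cnt, fou_main,
    ← mul_sub]
  congr 1
  have e2 : ∀ h : Fin d → Fin m → ZMod q, (if h ∈ K C ∧ h ≠ 0 then ch (pr2 h s) * ∏ i, kap (g i) (h i) else 0) =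
      (if h ∈ K C then ch (pr2 h s) * ∏ i, kap (g i) (h i) else 0) -
        (if h = 0 then ∏ i, kap (g i) 0 else 0) := by
    intro h
    by_cases h0 : h = 0
    · subst h0
      rw [if_pos rfl, if_pos (Submodule.zero_mem _), if_neg (fun hh => hh.2 rfl), pr2_zero_left, ch_zero,
        one_mul]
      simp
    · rw [if_neg h0, sub_zero]
      by_cases hk : h ∈ K C
      · rw [if_pos hk, if_pos ⟨hk, h0⟩]
      · rw [if_neg hk, if_neg (fun hh => hk hh.1)]
  rw [Finset.sum_congr rfl fun h _ => e2 h, Finset.sum_sub_distrib, Finset.sum_ite_eq']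
  simp

end Pool.N672.DN
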