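import Pool.Agent.N672.DN.Def

open Finset

namespace Pool.N672.DN

variable {q : ℕ} [Fact q.Prime]

theorem nv_cons {m : ℕ} (a : ZMod q) (y : Fin m → ZMod q) :
    nv (Fin.cons a y : Fin (m + 1) → ZMod q) = a.val * q ^ m + nv y := by
  unfold nv
  rw [Fin.sum_univ_succ]
  congr 1
  apply Finset.sum_congr rfl
  intro i _
  rw [Fin.cons_succ]
  congr 2
  rw [Fin.val_succ]
  omega

theorem nv_lt {m : ℕ} (y : Fin m → ZMod q) : nv y < q ^ m := by
  induction m with
  | zero => simp [nv]
  | succ m ih =>
    rw [← Fin.cons_self_tail y, nv_cons]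
    have h1 := ih (Fin.tail y)
    have h2 : (y 0).val < q := ZMod.val_lt (y 0)
    calc (y 0).val * q ^ m + nv (Fin.tail y) < (y 0).val * q ^ m + q ^ m := by omega
      _ = ((y 0).val + 1) * q ^ m := by ring
      _ ≤ q * q ^ m := Nat.mul_le_mul_right _ h2
      _ = q ^ (m + 1) := by ring

theorem nv_cons_lt {m : ℕ} (a b : ZMod q) (x y : Fin m → ZMod q) :
    nv (Fin.cons b y : Fin (m + 1) → ZMod q) < nv (Fin.cons a x : Fin (m + 1) → ZMod q) ↔
      b.val < a.val ∨ (b = a ∧ nv y < nv x) := by
  rw [nv_cons, nv_cons]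
  have hx := nv_lt x
  have hy := nv_lt y
  constructor
  · intro h
    rcases lt_trichotomy b.val a.val with h1 | h1 | h1
    · exact Or.inl h1
    · right
      refine ⟨ZMod.val_injective q h1, ?_⟩
      rw [h1] at h
      omega
    · exfalso
      have : (a.val + 1) * q ^ m ≤ b.val * q ^ m := Nat.mul_le_mul_right _ h1
      have h3 : (a.val + 1) * q ^ m = a.val * q ^ m + q ^ m := by ring
      omega
  · rintro (h | ⟨h, h2⟩)
    · have : (b.val + 1) * q ^ m ≤ a.val * q ^ m := Nat.mul_le_mul_right _ h
      have h3 : (b.val + 1) * q ^ m = b.val * q ^ m + q ^ m := by ring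
      omega
    · rw [h]; omega

theorem pr_cons {m : ℕ} (a b : ZMod q) (x y : Fin m → ZMod q) :
    pr (Fin.cons a x : Fin (m + 1) → ZMod q) (Fin.cons b y : Fin (m + 1) → ZMod q) = a * b + pr x y := by
  unfold pr
  rw [Fin.sum_univ_succ]
  simp only [Fin.cons_zero, Fin.cons_succ]

theorem sum_cons {m : ℕ} (f : (Fin (m + 1) → ZMod q) → ℂ) :
    ∑ x : Fin (m + 1) → ZMod q, f x = ∑ a : ZMod q, ∑ y : Fin m → ZMod q, f (Fin.cons a y) := by
  rw [← Fintype.sum_prod_type']
  symm
  exact Fintype.sum_equiv (Fin.consEquiv (fun _ : Fin (m + 1) => ZMod q)) _ _ (by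
    intro x
    rfl)

/-- the one digit kernel -/
noncomputable def kone (g h : ZMod q) : ℂ :=
  ∑ a : ZMod q, ∑ b : ZMod q, if b.val < a.val then ch (g * a - h * b) else 0

theorem kap_cons {m : ℕ} (g₀ h₀ : ZMod q) (g h : Fin m → ZMod q) :
    kap (Fin.cons g₀ g : Fin (m + 1) → ZMod q) (Fin.cons h₀ h : Fin (m + 1) → ZMod q) =
      kone g₀ h₀ * ((if g = 0 then (q : ℂ) ^ m else 0) * (if h = 0 then (q : ℂ) ^ m else 0)) +
      (if g₀ = h₀ then (q : ℂ) else 0) * kap g h := by
  have key : ∀ (a b : ZMod q) (x y : Fin m → ZMod q),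
      (if nv (Fin.cons b y : Fin (m + 1) → ZMod q) < nv (Fin.cons a x : Fin (m + 1) → ZMod q) then
        ch (pr (Fin.cons g₀ g : Fin (m + 1) → ZMod q) (Fin.cons a x : Fin (m + 1) → ZMod q) -
          pr (Fin.cons h₀ h : Fin (m + 1) → ZMod q) (Fin.cons b y : Fin (m + 1) → ZMod q)) else 0) =
      (if b.val < a.val then ch (g₀ * a - h₀ * b) else 0) * (ch (pr g x) * ch (pr (-h) y)) +
      (if b = a then ch ((g₀ - h₀) * a) else 0) * (if nv y < nv x then ch (pr g x - pr h y) else 0) := by
    intro a b x y
    have hneg : pr (-h) y = - pr h y := by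
      unfold pr; rw [← Finset.sum_neg_distrib]; exact Finset.sum_congr rfl fun k _ => by
        rw [Pi.neg_apply, neg_mul]
    rw [pr_cons, pr_cons]
    by_cases h1 : b.val < a.val
    · have h2 : b ≠ a := by rintro rfl; exact lt_irrefl _ h1
      rw [if_pos ((nv_cons_lt a b x y).mpr (Or.inl h1)), if_pos h1, if_neg h2, zero_mul, add_zero,
        ← ch_add, ← ch_add, hneg]
      congr 1; ring
    · by_cases h2 : b = a
      · subst h2
        rw [if_neg h1, if_pos rfl, zero_mul, zero_add]
        by_cases h3 : nv y < nv x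
        · rw [if_pos ((nv_cons_lt b b x y).mpr (Or.inr ⟨rfl, h3⟩)), if_pos h3, ← ch_add]
          congr 1; ring
        · rw [if_neg, if_neg h3, mul_zero]
          intro h4
          rcases (nv_cons_lt b b x y).mp h4 with h5 | h5
          · exact h1 h5
          · exact h3 h5.2
      · rw [if_neg h1, if_neg h2, if_neg]
        · ring
        · intro h4
          rcases (nv_cons_lt a b x y).mp h4 with h5 | h5
          · exact h1 h5
          · exact h2 h5.1
  unfold kap
  rw [sum_cons]
  have e1 : ∀ (a : ZMod q) (x : Fin m → ZMod q),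
      (∑ y' : Fin (m + 1) → ZMod q, if nv y' < nv (Fin.cons a x : Fin (m + 1) → ZMod q) then
        ch (pr (Fin.cons g₀ g : Fin (m + 1) → ZMod q) (Fin.cons a x : Fin (m + 1) → ZMod q) -
          pr (Fin.cons h₀ h : Fin (m + 1) → ZMod q) y') else 0) =
      ∑ b : ZMod q, ∑ y : Fin m → ZMod q,
      ((if b.val < a.val then ch (g₀ * a - h₀ * b) else 0) * (ch (pr g x) * ch (pr (-h) y)) +
      (if b = a then ch ((g₀ - h₀) * a) else 0) * (if nv y < nv x then ch (pr g x - pr h y) else 0)) := by
    intro a x
    rw [sum_cons]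
    exact Finset.sum_congr rfl fun b _ => Finset.sum_congr rfl fun y _ => key a b x y
  rw [Finset.sum_congr rfl fun a _ => Finset.sum_congr rfl fun x _ => e1 a x]
  simp only [Finset.sum_add_distrib]
  congr 1
  · unfold kone
    rw [← sum_ch_pr g]
    have : (if h = 0 then (q : ℂ) ^ m else 0) = ∑ y : Fin m → ZMod q, ch (pr (-h) y) := by
      rw [sum_ch_pr]
      simp only [neg_eq_zero]
    rw [this, Finset.sum_mul]
    apply Finset.sum_congr rfl
    intro a _
    rw [Finset.sum_mul, Finset.sum_comm]
    apply Finset.sum_congr rfl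
    intro b _
    rw [Finset.sum_mul, Finset.mul_sum]
    apply Finset.sum_congr rfl
    intro x _
    rw [Finset.mul_sum, Finset.mul_sum]
  · have e2 : ∀ (a : ZMod q) (x : Fin m → ZMod q),
      (∑ b : ZMod q, ∑ y : Fin m → ZMod q,
        (if b = a then ch ((g₀ - h₀) * a) else 0) * (if nv y < nv x then ch (pr g x - pr h y) else 0)) =
        ch ((g₀ - h₀) * a) * ∑ y : Fin m → ZMod q, (if nv y < nv x then ch (pr g x - pr h y) else 0) := by
      intro a x
      rw [Finset.sum_eq_single a]
      · rw [if_pos rfl, Finset.mul_sum]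
      · intro b _ hb
        rw [if_neg hb]
        simp
      · intro hh; exact absurd (Finset.mem_univ a) hh
    rw [Finset.sum_congr rfl fun a _ => Finset.sum_congr rfl fun x _ => e2 a x]
    have e3 : (if g₀ = h₀ then (q : ℂ) else 0) = ∑ a : ZMod q, ch ((g₀ - h₀) * a) := by
      split_ifs with hh
      · rw [hh, sub_self]
        simp [ch_zero]
      · symm
        have := sum_ch_hom (AddMonoidHom.mulLeft (g₀ - h₀)) 1 (by
          simpa [sub_eq_zero] using hh)
        simpa using this
    rw [e3, Finset.sum_mul]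
    apply Finset.sum_congr rfl
    intro a _
    rw [Finset.mul_sum]

/-- support of the kernel: at most one position of difference -/
theorem kap_supp {m : ℕ} (g h : Fin m → ZMod q) (hk : kap g h ≠ 0) :
    (univ.filter fun j => g j ≠ h j).card ≤ 1 := by
  induction m with
  | zero => 
    rw [Finset.card_le_one]
    intro a; exact a.elim0
  | succ m ih =>
    rw [← Fin.cons_self_tail g, ← Fin.cons_self_tail h, kap_cons] at hk
    by_cases h0 : Fin.tail g = 0 ∧ Fin.tail h = 0
    · have : (univ.filter fun j => g j ≠ h j) ⊆ {0} := by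
        intro j hj
        rw [Finset.mem_filter] at hj
        rw [Finset.mem_singleton]
        by_contra hj0
        obtain ⟨j', rfl⟩ := Fin.exists_succ_eq.mpr hj0
        apply hj.2
        have h1 := congrFun h0.1 j'
        have h2 := congrFun h0.2 j'
        simp only [Fin.tail, Pi.zero_apply] at h1 h2
        rw [h1, h2]
      exact (Finset.card_le_card this).trans (by simp)
    · have hz : kone (g 0) (h 0) * ((if Fin.tail g = 0 then (q : ℂ) ^ m else 0) *
          (if Fin.tail h = 0 then (q : ℂ) ^ m else 0)) = 0 := by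
        by_cases h1 : Fin.tail g = 0
        · have h2 : Fin.tail h ≠ 0 := fun h2 => h0 ⟨h1, h2⟩
          rw [if_neg h2]; ring
        · rw [if_neg h1]; ring
      rw [hz, zero_add] at hk
      have h1 : g 0 = h 0 := by
        by_contra hh
        rw [if_neg hh, zero_mul] at hk
        exact hk rfl
      have h2 : kap (Fin.tail g) (Fin.tail h) ≠ 0 := by
        intro hh
        rw [hh, mul_zero] at hk
        exact hk rfl
      have h3 := ih _ _ h2
      have h4 : (univ.filter fun j => g j ≠ h j) ⊆
          (univ.filter fun j => Fin.tail g j ≠ Fin.tail h j).map (Fin.succEmb m) := by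
        intro j hj
        rw [Finset.mem_filter] at hj
        have hj0 : j ≠ 0 := by
          rintro rfl
          exact hj.2 h1
        obtain ⟨j', rfl⟩ := Fin.exists_succ_eq.mpr hj0
        rw [Finset.mem_map]
        refine ⟨j', ?_, rfl⟩
        rw [Finset.mem_filter]
        exact ⟨Finset.mem_univ _, hj.2⟩
      calc _ ≤ _ := Finset.card_le_card h4
        _ = _ := Finset.card_map _
        _ ≤ 1 := h3

theorem sum_val_ch (h : ZMod q) (hh : h ≠ 0) :
    (ch (-h) - 1) * ∑ b : ZMod q, (b.val : ℂ) * ch (-h * b) = q := by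
  have hq : Nat.Prime q := Fact.out
  have e1 : ch (-h) * ∑ b : ZMod q, (b.val : ℂ) * ch (-h * b) =
      ∑ b : ZMod q, ((b - 1).val : ℂ) * ch (-h * b) := by
    rw [Finset.mul_sum]
    rw [← Equiv.sum_comp (Equiv.subRight (1 : ZMod q))
      (fun b => ch (-h) * ((b.val : ℂ) * ch (-h * b)))]
    apply Finset.sum_congr rfl
    intro b _
    simp only [Equiv.subRight_apply]
    rw [show ch (-h * b) = ch (-h) * ch (-h * (b - 1)) by rw [← ch_add]; congr 1; ring]
    ring
  have e2 : ∑ b : ZMod q, ch (-h * b) = 0 := by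
    have := sum_ch_hom (AddMonoidHom.mulLeft (-h)) 1 (by simpa using hh)
    simpa using this
  have e3 : ∀ b : ZMod q, ((b - 1).val : ℂ) * ch (-h * b) - (b.val : ℂ) * ch (-h * b) =
      (if b = 0 then (q : ℂ) else 0) * ch (-h * b) - ch (-h * b) := by
    intro b
    have hq2 := hq.two_le
    by_cases hb : b = 0
    · subst hb
      rw [if_pos rfl]
      have : (((0 : ZMod q) - 1).val : ℂ) = q - 1 := by
        have h2 : ((0 : ZMod q) - 1).val = q - 1 := by
          rw [zero_sub]
          have : Fact (1 < q) := ⟨hq.one_lt⟩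
          have : NeZero (1 : ZMod q) := ⟨one_ne_zero⟩
          rw [ZMod.val_neg_of_ne_zero, ZMod.val_one]
        rw [h2]
        push_cast [Nat.cast_sub (show 1 ≤ q by omega)]
        rfl
      rw [this]
      simp
      ring
    · rw [if_neg hb]
      have hb0 : b.val ≠ 0 := by
        intro h0
        exact hb ((ZMod.val_eq_zero b).mp h0)
      have h2 : (b - 1).val = b.val - 1 := by
        have : Fact (1 < q) := ⟨hq.one_lt⟩
        rw [ZMod.val_sub, ZMod.val_one]
        rw [ZMod.val_one]; omega
      rw [h2, Nat.cast_sub (by omega)]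
      push_cast
      ring
  have e4 : (ch (-h) - 1) * ∑ b : ZMod q, (b.val : ℂ) * ch (-h * b) =
      ∑ b : ZMod q, (((b - 1).val : ℂ) * ch (-h * b) - (b.val : ℂ) * ch (-h * b)) := by
    rw [sub_mul, one_mul, e1, ← Finset.sum_sub_distrib]
  rw [e4, Finset.sum_congr rfl fun b _ => e3 b, Finset.sum_sub_distrib, e2, sub_zero]
  rw [Finset.sum_eq_single 0]
  · rw [if_pos rfl, mul_zero, ch_zero, mul_one]
  · intro b _ hb
    rw [if_neg hb, zero_mul]
  · intro hx; exact absurd (Finset.mem_univ _) hx

theorem kone_zero (h : ZMod q) (hh : h ≠ 0) : (q : ℝ) / 2 ≤ ‖kone 0 h‖ := by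
  have hq : Nat.Prime q := Fact.out
  have e1 : kone 0 h = ∑ b : ZMod q, ((q : ℂ) - 1 - b.val) * ch (-h * b) := by
    unfold kone
    rw [Finset.sum_comm]
    apply Finset.sum_congr rfl
    intro b _
    have : ∀ a : ZMod q, (if b.val < a.val then ch (0 * a - h * b) else 0) =
        (if b.val < a.val then 1 else 0) * ch (-h * b) := by
      intro a
      split_ifs
      · rw [one_mul]; congr 1; ring
      · rw [zero_mul]
    rw [Finset.sum_congr rfl fun a _ => this a, ← Finset.sum_mul]
    congr 1
    rw [Finset.sum_boole]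
    have hb := ZMod.val_lt b
    have hc : (univ.filter fun a : ZMod q => b.val < a.val).card = q - 1 - b.val := by
      have h1 : (univ.filter fun a : ZMod q => b.val < a.val).card =
          (Finset.Ioo b.val q).card := by
        apply Finset.card_bij (fun a _ => a.val)
        · intro a ha
          rw [Finset.mem_filter] at ha
          rw [Finset.mem_Ioo]
          exact ⟨ha.2, ZMod.val_lt a⟩
        · intro a _ a' _ haa
          exact ZMod.val_injective q haa
        · intro n hn
          rw [Finset.mem_Ioo] at hn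
          refine ⟨(n : ZMod q), ?_, ?_⟩
          · rw [Finset.mem_filter]
            refine ⟨Finset.mem_univ _, ?_⟩
            rw [ZMod.val_natCast_of_lt hn.2]
            exact hn.1
          · exact ZMod.val_natCast_of_lt hn.2
      rw [h1, Nat.card_Ioo]
      omega
    rw [hc, Nat.cast_sub (by omega), Nat.cast_sub hq.one_le]
    push_cast
    ring
  have e2 : ∑ b : ZMod q, ch (-h * b) = 0 := by
    have := sum_ch_hom (AddMonoidHom.mulLeft (-h)) 1 (by simpa using hh)
    simpa using this
  have e3 : kone 0 h = - ∑ b : ZMod q, (b.val : ℂ) * ch (-h * b) := by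
    rw [e1]
    have : ∀ b : ZMod q, ((q : ℂ) - 1 - b.val) * ch (-h * b) =
      ((q : ℂ) - 1) * ch (-h * b) - (b.val : ℂ) * ch (-h * b) := by intro b; ring
    rw [Finset.sum_congr rfl fun b _ => this b, Finset.sum_sub_distrib, ← Finset.mul_sum, e2]
    ring
  rw [e3, norm_neg]
  have e4 := congrArg norm (sum_val_ch h hh)
  rw [norm_mul, Complex.norm_natCast] at e4
  have e5 : ‖ch (-h) - 1‖ ≤ 2 := by
    calc ‖ch (-h) - 1‖ ≤ ‖ch (-h)‖ + ‖(1 : ℂ)‖ := norm_sub_le _ _
      _ = 2 := by rw [norm_ch, norm_one]; norm_num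
  have e6 : 0 ≤ ‖∑ b : ZMod q, (b.val : ℂ) * ch (-h * b)‖ := norm_nonneg _
  rw [← e4]
  nlinarith

/-- lower bound for the kernel at the vector with its top removed -/
theorem kap_lower {m : ℕ} (h : Fin m → ZMod q) (k : Fin m) (hk : isTop h k) :
    (q : ℝ) ^ (2 * m) / (2 * (q : ℝ) ^ ((k : ℕ) + 1)) ≤ ‖kap (Function.update h k 0) h‖ := by
  have hq : Nat.Prime q := Fact.out
  have hqpos : (0 : ℝ) < q := by exact_mod_cast hq.pos
  induction m with
  | zero => exact k.elim0
  | succ m ih =>
    obtain ⟨h1, h2⟩ := hk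
    rcases Fin.eq_zero_or_eq_succ k with rfl | ⟨k', rfl⟩
    · have ht : Fin.tail h = 0 := by
        funext j
        exact h2 j.succ (Fin.succ_pos j)
      have hu : Function.update h 0 0 = (Fin.cons 0 0 : Fin (m + 1) → ZMod q) := by
        funext j
        refine Fin.cases ?_ (fun j' => ?_) j
        · simp
        · rw [Function.update_of_ne (Fin.succ_ne_zero j'), Fin.cons_succ]
          exact h2 j'.succ (Fin.succ_pos j')
      have hh : h = (Fin.cons (h 0) 0 : Fin (m + 1) → ZMod q) := by
        conv_lhs => rw [← Fin.cons_self_tail h, ht]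
      rw [hu, hh, kap_cons]
      rw [if_pos rfl, if_neg (fun hx => h1 hx.symm), zero_mul, add_zero, norm_mul, norm_mul, norm_pow,
        Complex.norm_natCast]
      have h3 := kone_zero (h 0) h1
      have h4 : (0 : ℝ) < (q : ℝ) ^ m := by positivity
      calc (q : ℝ) ^ (2 * (m + 1)) / (2 * (q : ℝ) ^ (((0 : Fin (m + 1)) : ℕ) + 1))
          = (q : ℝ) / 2 * ((q : ℝ) ^ m * (q : ℝ) ^ m) := by
            simp only [Fin.val_zero, zero_add, pow_one]
            field_simp
            ring
        _ ≤ _ := mul_le_mul_of_nonneg_right h3 (by positivity)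
    · have htop : isTop (Fin.tail h) k' := by
        refine ⟨h1, ?_⟩
        intro j hj
        exact h2 j.succ (Fin.succ_lt_succ_iff.mpr hj)
      have h3 := ih (Fin.tail h) k' htop
      have hu : Function.update h k'.succ 0 =
          (Fin.cons (h 0) (Function.update (Fin.tail h) k' 0) : Fin (m + 1) → ZMod q) := by
        funext j
        refine Fin.cases ?_ (fun j' => ?_) j
        · rw [Function.update_of_ne (Fin.succ_ne_zero k').symm, Fin.cons_zero]
        · rw [Fin.cons_succ]
          by_cases hjk : j' = k'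
          · subst hjk
            rw [Function.update_self, Function.update_self]
          · rw [Function.update_of_ne hjk, Function.update_of_ne]
            · rfl
            · intro hx; exact hjk (Fin.succ_injective _ hx)
      have ht0 : Fin.tail h ≠ 0 := by
        intro hx
        exact h1 (congrFun hx k')
      have he : kap (Fin.cons (h 0) (Function.update (Fin.tail h) k' 0) : Fin (m + 1) → ZMod q) h =
          kap (Fin.cons (h 0) (Function.update (Fin.tail h) k' 0) : Fin (m + 1) → ZMod q)
            (Fin.cons (h 0) (Fin.tail h) : Fin (m + 1) → ZMod q) := by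
        rw [Fin.cons_self_tail]
      rw [hu, he, kap_cons]
      rw [if_neg ht0, mul_zero, mul_zero, zero_add]
      rw [if_pos rfl, norm_mul, Complex.norm_natCast]
      calc (q : ℝ) ^ (2 * (m + 1)) / (2 * (q : ℝ) ^ ((k'.succ : ℕ) + 1))
          = (q : ℝ) * ((q : ℝ) ^ (2 * m) / (2 * (q : ℝ) ^ ((k' : ℕ) + 1))) := by
            rw [Fin.val_succ]
            field_simp
            ring
        _ ≤ _ := mul_le_mul_of_nonneg_left h3 hqpos.le

end Pool.N672.DN
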