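import Mathlib

namespace Pool.N672.DN

/-! ### Digital nets and discrepancy: the definitions of the final statement -/

/-- the vector `(n_0, ..., n_{m-1})` of the base `q` digits of `n` -/
def dig (q m n : ℕ) : Fin m → ZMod q := fun i => ((n / q ^ (i : ℕ) : ℕ) : ZMod q)

/-- `(y_1, ..., y_m) ↦ ∑ y_i q^{-i}` (the index starts at `0` in Lean) -/
noncomputable def coord {q m : ℕ} (y : Fin m → ZMod q) : ℝ :=
  ∑ i, ((y i).val : ℝ) / (q : ℝ) ^ ((i : ℕ) + 1)

/-- the points of the digital net generated by `C`, shifted digitally by `s` -/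
noncomputable def net {q d m : ℕ} (C : Fin d → Matrix (Fin m) (Fin m) (ZMod q))
    (s : Fin d → Fin m → ZMod q) (n : Fin (q ^ m)) (j : Fin d) : ℝ :=
  coord (Matrix.mulVec (C j) (dig q m n) + s j)

/-- discrepancy of the points `x` with respect to the box `∏ [a_j, b_j)` -/
noncomputable def boxDisc {N d : ℕ} (x : Fin N → Fin d → ℝ) (a b : Fin d → ℝ) : ℝ :=
  |(Nat.card {n : Fin N // ∀ j, a j ≤ x n j ∧ x n j < b j} : ℝ) / (N : ℝ) - ∏ j, (b j - a j)|

/-- the discrepancy `D_N` -/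
noncomputable def disc {N d : ℕ} (x : Fin N → Fin d → ℝ) : ℝ :=
  sSup {r | ∃ a b : Fin d → ℝ, (∀ j, 0 ≤ a j ∧ a j ≤ b j ∧ b j ≤ 1) ∧ r = boxDisc x a b}

/-- the star discrepancy `D_N^*` -/
noncomputable def starDisc {N d : ℕ} (x : Fin N → Fin d → ℝ) : ℝ :=
  sSup {r | ∃ b : Fin d → ℝ, (∀ j, 0 ≤ b j ∧ b j ≤ 1) ∧ r = boxDisc x 0 b}

/-- `Φ_d(N) = (log N)^(d-1) log log N / N` -/
noncomputable def Phi (d N : ℕ) : ℝ :=
  Real.log N ^ (d - 1) * Real.log (Real.log N) / N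

end Pool.N672.DN
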