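import Pool.Agent.N672.DN.Reg2
import Pool.Agent.N672.DN.NetDef

open Finset Filter Topology

namespace Pool.N672.DN

theorem boxDisc_le {N d : ℕ} (x : Fin N → Fin d → ℝ) (a b : Fin d → ℝ)
    (h : ∀ j, 0 ≤ a j ∧ a j ≤ b j ∧ b j ≤ 1) : boxDisc x a b ≤ 1 := by
  unfold boxDisc
  have h1 : (Nat.card {n : Fin N // ∀ j, a j ≤ x n j ∧ x n j < b j} : ℝ) ≤ N := by
    have : Nat.card {n : Fin N // ∀ j, a j ≤ x n j ∧ x n j < b j} ≤ Nat.card (Fin N) :=
      Nat.card_le_card_of_injective _ Subtype.val_injective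
    rw [Nat.card_fin] at this
    exact_mod_cast this
  have h2 : (Nat.card {n : Fin N // ∀ j, a j ≤ x n j ∧ x n j < b j} : ℝ) / (N : ℝ) ≤ 1 :=
    div_le_one_of_le₀ h1 (Nat.cast_nonneg _)
  have h3 : 0 ≤ (Nat.card {n : Fin N // ∀ j, a j ≤ x n j ∧ x n j < b j} : ℝ) / (N : ℝ) := by positivity
  have h4 : 0 ≤ ∏ j, (b j - a j) := Finset.prod_nonneg fun j _ => by have := h j; linarith
  have h5 : ∏ j, (b j - a j) ≤ 1 :=
    Finset.prod_le_one (fun j _ => by have := h j; linarith) (fun j _ => by have := h j; linarith)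
  rw [abs_le]
  constructor <;> linarith

theorem bdd_disc {N d : ℕ} (x : Fin N → Fin d → ℝ) :
    BddAbove {r | ∃ a b : Fin d → ℝ, (∀ j, 0 ≤ a j ∧ a j ≤ b j ∧ b j ≤ 1) ∧ r = boxDisc x a b} := by
  refine ⟨1, ?_⟩
  rintro r ⟨a, b, h, rfl⟩
  exact boxDisc_le x a b h

theorem sub_disc {N d : ℕ} (x : Fin N → Fin d → ℝ) :
    {r | ∃ b : Fin d → ℝ, (∀ j, 0 ≤ b j ∧ b j ≤ 1) ∧ r = boxDisc x 0 b} ⊆
    {r | ∃ a b : Fin d → ℝ, (∀ j, 0 ≤ a j ∧ a j ≤ b j ∧ b j ≤ 1) ∧ r = boxDisc x a b} := by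
  rintro r ⟨b, h, rfl⟩
  exact ⟨0, b, fun j => ⟨le_refl _, (h j).1, (h j).2⟩, rfl⟩

theorem starDisc_le_disc {N d : ℕ} (x : Fin N → Fin d → ℝ) : starDisc x ≤ disc x := by
  unfold starDisc disc
  apply csSup_le_csSup (bdd_disc x) _ (sub_disc x)
  exact ⟨_, 0, fun _ => ⟨le_refl _, zero_le_one⟩, rfl⟩

theorem boxDisc_le_star {N d : ℕ} (x : Fin N → Fin d → ℝ) (b : Fin d → ℝ)
    (h : ∀ j, 0 ≤ b j ∧ b j ≤ 1) : boxDisc x 0 b ≤ starDisc x := by
  unfold starDisc
  exact le_csSup ((bdd_disc x).mono (sub_disc x)) ⟨b, h, rfl⟩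

/-- every list of `N` points has star discrepancy at least `1/(2N)` -/
theorem triv {N d : ℕ} (hd : 0 < d) (hN : 0 < N) (x : Fin N → Fin d → ℝ)
    (hx : ∀ n j, 0 ≤ x n j ∧ x n j < 1) : 1 / 2 ≤ (N : ℝ) * starDisc x := by
  by_contra hcon
  push Not at hcon
  set D := starDisc x with hD
  have hN' : (0 : ℝ) < N := by exact_mod_cast hN
  have hδ : 2 * D < 1 / (N : ℝ) := by
    rw [lt_div_iff₀ hN']; linarith
  set n₀ : Fin N := ⟨0, hN⟩ with hn₀
  set y := x n₀ with hy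
  set g : ℝ → ℝ := fun ε => ∏ j, (y j + ε) with hg
  have hcont : Continuous g := by
    rw [hg]
    exact continuous_finsetProd _ fun j _ => continuous_const.add continuous_id
  have h1 : ∀ᶠ ε in 𝓝[>] (0 : ℝ), g ε < g 0 + (1 / (N : ℝ) - 2 * D) := by
    have : Tendsto g (𝓝[>] 0) (𝓝 (g 0)) := (hcont.tendsto 0).mono_left nhdsWithin_le_nhds
    exact this.eventually (gt_mem_nhds (by linarith))
  have h2 : ∀ᶠ ε in 𝓝[>] (0 : ℝ), ∀ j, y j + ε < 1 := by
    rw [eventually_all]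
    intro j
    have : Tendsto (fun ε : ℝ => y j + ε) (𝓝[>] 0) (𝓝 (y j + 0)) :=
      ((continuous_const.add continuous_id).tendsto 0).mono_left nhdsWithin_le_nhds
    rw [add_zero] at this
    exact this.eventually (gt_mem_nhds (hx n₀ j).2)
  have h3 : ∀ᶠ ε in 𝓝[>] (0 : ℝ), 0 < ε := self_mem_nhdsWithin
  obtain ⟨ε, e1, e2, e3⟩ := (h1.and (h2.and h3)).exists
  have b1 := boxDisc_le_star x y (fun j => ⟨(hx n₀ j).1, (hx n₀ j).2.le⟩)
  have b2 := boxDisc_le_star x (fun j => y j + ε)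
    (fun j => ⟨by have := (hx n₀ j).1; simp only [hy]; linarith, (e2 j).le⟩)
  unfold boxDisc at b1 b2
  simp only [Pi.zero_apply, sub_zero] at b1 b2
  have c1 := (abs_le.mp b1).1
  have c2 := (abs_le.mp b2).2
  have hlt : Nat.card {n : Fin N // ∀ j, 0 ≤ x n j ∧ x n j < y j} + 1 ≤
      Nat.card {n : Fin N // ∀ j, 0 ≤ x n j ∧ x n j < y j + ε} := by
    classical
    rw [Nat.card_eq_fintype_card, Nat.card_eq_fintype_card, Fintype.card_subtype, Fintype.card_subtype]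
    apply Nat.succ_le_of_lt
    apply Finset.card_lt_card
    rw [Finset.ssubset_iff_of_subset]
    · refine ⟨n₀, ?_, ?_⟩
      · rw [Finset.mem_filter]
        exact ⟨Finset.mem_univ _, fun j => ⟨(hx n₀ j).1, by simp only [hy]; linarith⟩⟩
      · rw [Finset.mem_filter]
        rintro ⟨_, hh⟩
        exact lt_irrefl _ (hh ⟨0, hd⟩).2
    · intro n hn
      rw [Finset.mem_filter] at hn ⊢
      exact ⟨hn.1, fun j => ⟨(hn.2 j).1, by have := (hn.2 j).2; linarith⟩⟩
  have hlt' : (Nat.card {n : Fin N // ∀ j, 0 ≤ x n j ∧ x n j < y j} : ℝ) / N + 1 / N ≤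
      (Nat.card {n : Fin N // ∀ j, 0 ≤ x n j ∧ x n j < y j + ε} : ℝ) / N := by
    rw [← add_div]
    apply div_le_div_of_nonneg_right _ hN'.le
    exact_mod_cast hlt
  have g0 : g 0 = ∏ j, y j := by simp [hg]
  have ge : g ε = ∏ j, (y j + ε) := rfl
  rw [← g0] at c1
  rw [← ge] at c2
  linarith

variable {q : ℕ} [Fact q.Prime]

theorem coord_eq {m : ℕ} (y : Fin m → ZMod q) : coord y = (nv y : ℝ) / (q : ℝ) ^ m := by
  have hq : (q : ℝ) ≠ 0 := by exact_mod_cast (Fact.out : q.Prime).ne_zero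
  unfold coord nv
  push_cast
  rw [Finset.sum_div]
  apply Finset.sum_congr rfl
  intro i _
  rw [div_eq_div_iff (by positivity) (by positivity), mul_assoc, ← pow_add]
  congr 2
  have := i.isLt
  omega

theorem coord_range {m : ℕ} (y : Fin m → ZMod q) : 0 ≤ coord y ∧ coord y < 1 := by
  have hq : (0 : ℝ) < q := by exact_mod_cast (Fact.out : q.Prime).pos
  rw [coord_eq]
  refine ⟨by positivity, ?_⟩
  rw [div_lt_one (by positivity)]
  exact_mod_cast nv_lt y

theorem dig_bij {m : ℕ} : Function.Bijective (fun n : Fin (q ^ m) => dig q m n) := by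
  rw [Fintype.bijective_iff_injective_and_card]
  constructor
  · intro n n' h
    simp only [] at h
    apply finFunctionFinEquiv.symm.injective
    funext i
    apply Fin.ext
    have h1 := congrFun h i
    unfold dig at h1
    rw [ZMod.natCast_eq_natCast_iff'] at h1
    simpa [finFunctionFinEquiv] using h1
  · rw [Fintype.card_fun, ZMod.card, Fintype.card_fin, Fintype.card_fin]

theorem cnt_eq {d m : ℕ} (C : Fin d → Matrix (Fin m) (Fin m) (ZMod q)) (s x : Fin d → Fin m → ZMod q) :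
    Nat.card {n : Fin (q ^ m) // ∀ j, (0 : Fin d → ℝ) j ≤ net C s n j ∧ net C s n j < (nv (x j) : ℝ) / (q : ℝ) ^ m} =
      cnt C s x := by
  classical
  have hq : (0 : ℝ) < q := by exact_mod_cast (Fact.out : q.Prime).pos
  unfold cnt
  rw [Nat.card_eq_fintype_card, Fintype.card_subtype]
  apply Finset.card_bij (fun (n : Fin (q ^ m)) _ => (dig q m (n : ℕ) : Fin m → ZMod q))
  · intro n hn
    rw [Finset.mem_filter] at hn ⊢
    refine ⟨Finset.mem_univ _, fun j => ?_⟩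
    have h1 := (hn.2 j).2
    unfold net at h1
    rw [coord_eq, div_lt_div_iff_of_pos_right (by positivity)] at h1
    exact_mod_cast h1
  · intro n _ n' _ h
    exact dig_bij.1 h
  · intro y hy
    rw [Finset.mem_filter] at hy
    obtain ⟨n, hn⟩ := dig_bij.2 y
    simp only [] at hn
    refine ⟨n, ?_, hn⟩
    rw [Finset.mem_filter]
    refine ⟨Finset.mem_univ _, fun j => ⟨(coord_range _).1, ?_⟩⟩
    unfold net
    rw [coord_eq, div_lt_div_iff_of_pos_right (by positivity), hn]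
    exact_mod_cast hy.2 j

theorem good_net {d m : ℕ} {C : Fin d → Matrix (Fin m) (Fin m) (ZMod q)} {v : ℝ} (h : Good C v)
    (s : Fin d → Fin m → ZMod q) : v ≤ (q : ℝ) ^ m * starDisc (net C s) := by
  have hq : (0 : ℝ) < q := by exact_mod_cast (Fact.out : q.Prime).pos
  apply h s
  intro x
  have h1 := boxDisc_le_star (net C s) (fun j => (nv (x j) : ℝ) / (q : ℝ) ^ m)
    (fun j => ⟨by positivity, by
      rw [div_le_one (by positivity)]
      exact_mod_cast (nv_lt (x j)).le⟩)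
  unfold boxDisc at h1
  rw [cnt_eq] at h1
  simp only [Pi.zero_apply, sub_zero] at h1
  have h2 : Dl C s x = (q : ℝ) ^ m * ((cnt C s x : ℝ) / ((q ^ m : ℕ) : ℝ) - ∏ j, ((nv (x j) : ℝ) / (q : ℝ) ^ m)) := by
    unfold Dl
    push_cast
    field_simp
  rw [h2, abs_mul, abs_of_pos (by positivity : (0 : ℝ) < (q : ℝ) ^ m)]
  exact mul_le_mul_of_nonneg_left h1 (by positivity)

theorem good_triv {d m : ℕ} (hd : 0 < d) (C : Fin d → Matrix (Fin m) (Fin m) (ZMod q))
    (s : Fin d → Fin m → ZMod q) : 1 / 2 ≤ (q : ℝ) ^ m * starDisc (net C s) := by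
  have h := triv hd (Nat.pow_pos (Fact.out : q.Prime).pos : 0 < q ^ m) (net C s)
    (fun n j => coord_range _)
  push_cast at h
  exact h

end Pool.N672.DN
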