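import Pool.Agent.N672.DN.Par2
import Pool.Agent.N672.DN.Net

open Finset Filter Topology

namespace Pool.N672.DN

theorem count_good {q f m : ℕ} [Fact q.Prime] (δ v : ℝ)
    (hbad : ∀ [DecidablePred fun C : Fin (f + 2) → Matrix (Fin m) (Fin m) (ZMod q) => ¬ Good C v],
      ((univ.filter fun C : Fin (f + 2) → Matrix (Fin m) (Fin m) (ZMod q) => ¬ Good C v).card : ℝ) ≤
      δ * (q : ℝ) ^ ((f + 2) * m ^ 2)) (t : ℝ) (ht : t ≤ v / (q : ℝ) ^ m) :
    (1 - δ) * (Nat.card (Fin (f + 2) → Matrix (Fin m) (Fin m) (ZMod q)) : ℝ) ≤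
      (Nat.card {C : Fin (f + 2) → Matrix (Fin m) (Fin m) (ZMod q) //
        ∀ s : Fin (f + 2) → Fin m → ZMod q, t ≤ starDisc (net C s) ∧
          starDisc (net C s) ≤ disc (net C s)} : ℝ) := by
  classical
  have hq0 : (0 : ℝ) < q := by exact_mod_cast (Fact.out : q.Prime).pos
  have hb := hbad
  have hcM : (Nat.card (Fin (f + 2) → Matrix (Fin m) (Fin m) (ZMod q)) : ℝ) =
      (q : ℝ) ^ ((f + 2) * m ^ 2) := by
    rw [Nat.card_eq_fintype_card, card_MM]; push_cast; rfl
  rw [hcM]
  have h1 : ((univ.filter fun C : Fin (f + 2) → Matrix (Fin m) (Fin m) (ZMod q) => Good C v).card : ℝ) +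
      ((univ.filter fun C : Fin (f + 2) → Matrix (Fin m) (Fin m) (ZMod q) => ¬ Good C v).card : ℝ) =
      (q : ℝ) ^ ((f + 2) * m ^ 2) := by
    have := Finset.card_filter_add_card_filter_not (s := (univ : Finset (Fin (f + 2) → Matrix (Fin m) (Fin m) (ZMod q))))
      (fun C => Good C v)
    rw [Finset.card_univ, card_MM] at this
    exact_mod_cast this
  have h2 : (univ.filter fun C : Fin (f + 2) → Matrix (Fin m) (Fin m) (ZMod q) => Good C v).card ≤
      Nat.card {C : Fin (f + 2) → Matrix (Fin m) (Fin m) (ZMod q) //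
        ∀ s : Fin (f + 2) → Fin m → ZMod q, t ≤ starDisc (net C s) ∧
          starDisc (net C s) ≤ disc (net C s)} := by
    rw [Nat.card_eq_fintype_card, Fintype.card_subtype]
    apply Finset.card_le_card
    intro C hC
    rw [Finset.mem_filter] at hC ⊢
    refine ⟨hC.1, fun s => ⟨ht.trans ?_, starDisc_le_disc _⟩⟩
    rw [div_le_iff₀ (by positivity), mul_comm]
    exact good_net hC.2 s
  have h3 : ((univ.filter fun C : Fin (f + 2) → Matrix (Fin m) (Fin m) (ZMod q) => Good C v).card : ℝ) ≤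
      (Nat.card {C : Fin (f + 2) → Matrix (Fin m) (Fin m) (ZMod q) //
        ∀ s : Fin (f + 2) → Fin m → ZMod q, t ≤ starDisc (net C s) ∧
          starDisc (net C s) ≤ disc (net C s)} : ℝ) := by exact_mod_cast h2
  linarith

theorem main (f : ℕ) (q : ℕ) (hq : q.Prime) :
    ∃ B : ℝ, 0 < B ∧ ∀ m : ℕ, 2 ≤ m → ∀ δ : ℝ, 0 < δ → δ < 1 →
      (1 - δ) * (Nat.card (Fin (f + 2) → Matrix (Fin m) (Fin m) (ZMod q)) : ℝ) ≤
        (Nat.card {C : Fin (f + 2) → Matrix (Fin m) (Fin m) (ZMod q) //
          ∀ s : Fin (f + 2) → Fin m → ZMod q,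
            δ * B * Phi (f + 2) (q ^ m) ≤ starDisc (net C s) ∧
              starDisc (net C s) ≤ disc (net C s)} : ℝ) := by
  classical
  haveI : Fact q.Prime := ⟨hq⟩
  have hq2 : 2 ≤ q := hq.two_le
  have hq' : (2 : ℝ) ≤ q := by exact_mod_cast hq2
  have hq0 : (0 : ℝ) < q := by linarith
  have hlq : Real.log 2 ≤ Real.log q := Real.log_le_log (by norm_num) hq'
  have hl2 : 0.6931471803 < Real.log 2 := Real.log_two_gt_d9
  have hlq0 : 0 < Real.log q := by linarith
  obtain ⟨C₁, c₁, R₁, hC₁, hc₁, hR₁2, hI⟩ := parI q f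
  obtain ⟨c₂, R₂, hc₂, hR₂2, hII⟩ := parII q f
  obtain ⟨c₄, hc₄, hll⟩ := loglog_le (q := q) hq2 f
  set R₀ := max R₁ R₂ with hR₀
  set m₀ := 4 * (f + 1) * R₀ ^ 4 with hm₀
  have hR₀2 : 2 ≤ R₀ := hR₁2.trans (le_max_left _ _)
  have hm₀1 : 1 ≤ m₀ := by
    rw [hm₀]
    have : 1 ≤ R₀ ^ 4 := Nat.one_le_pow _ _ (by omega)
    nlinarith
  set A : ℝ := (m₀ : ℝ) ^ (f + 2) with hA
  have hA1 : 1 ≤ A := one_le_pow₀ (by exact_mod_cast hm₀1)
  set B0 : ℝ := 1 / (2 * A * Real.log q ^ (f + 2)) with hB0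
  set B1 : ℝ := c₁ / Real.log q ^ (f + 1) with hB1
  set B2 : ℝ := c₂ / (Real.log q ^ (f + 1) * (Real.sqrt C₁ * (2 * c₄))) with hB2
  have hB0p : 0 < B0 := by positivity
  have hB1p : 0 < B1 := by positivity
  have hB2p : 0 < B2 := by positivity
  set B := min B0 (min B1 B2) with hB
  have hBp : 0 < B := lt_min hB0p (lt_min hB1p hB2p)
  have hBB0 : B ≤ B0 := min_le_left _ _
  have hBB1 : B ≤ B1 := (min_le_right _ _).trans (min_le_left _ _)
  have hBB2 : B ≤ B2 := (min_le_right _ _).trans (min_le_right _ _)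
  refine ⟨B, hBp, ?_⟩
  intro m hm δ hδ0 hδ1
  have hm' : (2 : ℝ) ≤ m := by exact_mod_cast hm
  have hm0 : (0 : ℝ) < m := by linarith
  have hqm : (0 : ℝ) < (q : ℝ) ^ m := by positivity
  have hlogN : Real.log ((q ^ m : ℕ) : ℝ) = m * Real.log q := by
    push_cast; rw [Real.log_pow]
  have hPhi : Phi (f + 2) (q ^ m) = (m * Real.log q) ^ (f + 1) * Real.log (m * Real.log q) / (q : ℝ) ^ m := by
    unfold Phi
    rw [hlogN]
    push_cast
    rfl
  set X : ℝ := (m * Real.log q) ^ (f + 1) * Real.log (m * Real.log q) with hX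
  have hmain : ∀ v : ℝ, (∀ [DecidablePred fun C : Fin (f + 2) → Matrix (Fin m) (Fin m) (ZMod q) => ¬ Good C v],
      ((univ.filter fun C : Fin (f + 2) → Matrix (Fin m) (Fin m) (ZMod q) => ¬ Good C v).card : ℝ) ≤
      δ * (q : ℝ) ^ ((f + 2) * m ^ 2)) → δ * B * X ≤ v →
      (1 - δ) * (Nat.card (Fin (f + 2) → Matrix (Fin m) (Fin m) (ZMod q)) : ℝ) ≤
        (Nat.card {C : Fin (f + 2) → Matrix (Fin m) (Fin m) (ZMod q) //
          ∀ s : Fin (f + 2) → Fin m → ZMod q,
            δ * B * Phi (f + 2) (q ^ m) ≤ starDisc (net C s) ∧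
              starDisc (net C s) ≤ disc (net C s)} : ℝ) := by
    intro v h1 h2
    apply count_good δ v h1
    rw [hPhi, ← mul_div_assoc]
    exact div_le_div_of_nonneg_right h2 hqm.le
  by_cases htriv : δ * (m : ℝ) ^ (f + 2) ≤ A
  · -- trivial range
    have hXle : X ≤ (m * Real.log q) ^ (f + 2) := by
      rw [hX, pow_succ _ (f + 1)]
      apply mul_le_mul_of_nonneg_left _ (by positivity)
      exact Real.log_le_self (by positivity)
    have h2 : δ * B * X ≤ 1 / 2 := by
      calc δ * B * X ≤ δ * B0 * (m * Real.log q) ^ (f + 2) := by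
            by_cases hX0 : 0 ≤ X
            · gcongr
            · push Not at hX0
              have h3 : δ * B * X ≤ 0 := by
                have : 0 < δ * B := by positivity
                nlinarith
              have h4 : 0 ≤ δ * B0 * (m * Real.log q) ^ (f + 2) := by positivity
              linarith
        _ = (δ * (m : ℝ) ^ (f + 2)) * (1 / (2 * A)) := by
            rw [hB0, mul_pow]
            field_simp
        _ ≤ A * (1 / (2 * A)) := mul_le_mul_of_nonneg_right htriv (by positivity)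
        _ = 1 / 2 := by field_simp
    have hsub : Nat.card {C : Fin (f + 2) → Matrix (Fin m) (Fin m) (ZMod q) //
          ∀ s : Fin (f + 2) → Fin m → ZMod q,
            δ * B * Phi (f + 2) (q ^ m) ≤ starDisc (net C s) ∧
              starDisc (net C s) ≤ disc (net C s)} =
        Nat.card (Fin (f + 2) → Matrix (Fin m) (Fin m) (ZMod q)) := by
      apply Nat.card_congr
      apply Equiv.subtypeUnivEquiv
      intro C s
      refine ⟨?_, starDisc_le_disc _⟩
      rw [hPhi, ← mul_div_assoc, div_le_iff₀ hqm, mul_comm (starDisc _)]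
      exact h2.trans (good_triv (Nat.succ_pos _) C s)
    rw [hsub]
    have : (0 : ℝ) ≤ (Nat.card (Fin (f + 2) → Matrix (Fin m) (Fin m) (ZMod q)) : ℝ) := Nat.cast_nonneg _
    nlinarith
  · push Not at htriv
    -- m is large
    have hmm₀ : m₀ ≤ m := by
      by_contra hcon
      push Not at hcon
      have h1 : (m : ℝ) ≤ m₀ := by exact_mod_cast hcon.le
      have h2 : (m : ℝ) ^ (f + 2) ≤ A := pow_le_pow_left₀ hm0.le h1 _
      have h3 : δ * (m : ℝ) ^ (f + 2) ≤ 1 * A := mul_le_mul hδ1.le h2 (by positivity) zero_le_one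
      linarith
    -- the parameter R
    set R := Nat.findGreatest (fun r => 4 * (f + 1) * r ^ 4 ≤ m) m with hR
    have hPR : 4 * (f + 1) * R ^ 4 ≤ m := by
      have := Nat.findGreatest_spec (P := fun r => 4 * (f + 1) * r ^ 4 ≤ m) (m := 0) (n := m) (Nat.zero_le _)
        (by simp)
      exact this
    have hR₀m : R₀ ≤ m := by
      refine le_trans ?_ hmm₀
      rw [hm₀]
      calc R₀ = R₀ ^ 1 := (pow_one _).symm
        _ ≤ R₀ ^ 4 := Nat.pow_le_pow_right (by omega) (by norm_num)
        _ ≤ _ := Nat.le_mul_of_pos_left _ (by positivity)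
    have hRR₀ : R₀ ≤ R := Nat.le_findGreatest hR₀m hmm₀
    have hR2 : 2 ≤ R := hR₀2.trans hRR₀
    have hRm2 : m < 64 * (f + 1) * R ^ 4 := by
      by_contra hcon
      push Not at hcon
      have h1 : 4 * (f + 1) * (R + 1) ^ 4 ≤ m := by
        refine le_trans ?_ hcon
        have h2 : (R + 1) ^ 4 ≤ (2 * R) ^ 4 := Nat.pow_le_pow_left (by omega) 4
        calc 4 * (f + 1) * (R + 1) ^ 4 ≤ 4 * (f + 1) * (2 * R) ^ 4 := Nat.mul_le_mul_left _ h2
          _ = 64 * (f + 1) * R ^ 4 := by ring
      have h3 : R + 1 ≤ m := by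
        refine le_trans ?_ h1
        calc R + 1 = (R + 1) ^ 1 := (pow_one _).symm
          _ ≤ (R + 1) ^ 4 := Nat.pow_le_pow_right (by omega) (by norm_num)
          _ ≤ _ := Nat.le_mul_of_pos_left _ (by positivity)
      have h4 := Nat.le_findGreatest (P := fun r => 4 * (f + 1) * r ^ 4 ≤ m) h3 h1
      omega
    have hRr : (2 : ℝ) ≤ R := by exact_mod_cast hR2
    have hR0 : (0 : ℝ) < R := by linarith
    obtain ⟨hl0, hl1⟩ := hll R m hR2 hPR hRm2
    by_cases hreg : C₁ / R ≤ δ
    · -- first regime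
      apply hmain (c₁ * (m : ℝ) ^ (f + 1) * Real.log (m * Real.log q))
      · intro _
        refine (hI R m ((le_max_left _ _).trans hRR₀) hPR hRm2).trans ?_
        exact mul_le_mul_of_nonneg_right hreg (by positivity)
      · calc δ * B * X ≤ 1 * B1 * X := by
              apply mul_le_mul_of_nonneg_right _ (by rw [hX]; positivity)
              exact mul_le_mul hδ1.le hBB1 hBp.le zero_le_one
          _ = _ := by
              rw [hX, hB1, mul_pow]
              field_simp
    · -- second regime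
      push Not at hreg
      apply hmain (c₂ * Real.sqrt δ * (m : ℝ) ^ (f + 1))
      · intro _
        exact hII R m ((le_max_right _ _).trans hRR₀) hPR hRm2 δ hδ0 hδ1 (hA1.trans htriv.le)
      · have hsq : δ = Real.sqrt δ * Real.sqrt δ := (Real.mul_self_sqrt hδ0.le).symm
        have hs1 : Real.sqrt δ ≤ Real.sqrt C₁ / Real.sqrt R := by
          rw [← Real.sqrt_div hC₁.le]
          exact Real.sqrt_le_sqrt hreg.le
        have hsR : 0 < Real.sqrt R := Real.sqrt_pos.mpr hR0
        have hlogR : Real.log R ≤ 2 * Real.sqrt R := by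
          have h1 : Real.log R = 2 * Real.log (Real.sqrt R) := by
            rw [Real.log_sqrt hR0.le]; ring
          rw [h1]
          have := Real.log_le_self hsR.le
          linarith
        have hkey : Real.sqrt δ * Real.log (m * Real.log q) ≤ Real.sqrt C₁ * (2 * c₄) := by
          calc Real.sqrt δ * Real.log (m * Real.log q) ≤
              (Real.sqrt C₁ / Real.sqrt R) * (c₄ * (2 * Real.sqrt R)) := by
                apply mul_le_mul hs1 _ hl0 (by positivity)
                exact hl1.trans (mul_le_mul_of_nonneg_left hlogR hc₄.le)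
            _ = _ := by field_simp
        calc δ * B * X = B * (m * Real.log q) ^ (f + 1) * Real.sqrt δ *
              (Real.sqrt δ * Real.log (m * Real.log q)) := by
              rw [hX]
              conv_lhs => rw [hsq]
              ring
          _ ≤ B2 * (m * Real.log q) ^ (f + 1) * Real.sqrt δ * (Real.sqrt C₁ * (2 * c₄)) := by
              gcongr
          _ = _ := by
              rw [hB2, mul_pow]
              field_simp

end Pool.N672.DN
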