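import Pool.Agent.N672.DN.Reg2

open Finset Filter Topology

namespace Pool.N672.DN

variable {q : ℕ} [Fact q.Prime]

theorem Good.mono {d m : ℕ} {C : Fin d → Matrix (Fin m) (Fin m) (ZMod q)} {v v' : ℝ} (h : Good C v)
    (hv : v' ≤ v) : Good C v' := fun s M hM => hv.trans (h s M hM)

theorem bad_mono {d m : ℕ} {v v' : ℝ} (hv : v' ≤ v)
    [DecidablePred fun C : Fin d → Matrix (Fin m) (Fin m) (ZMod q) => ¬ Good C v]
    [DecidablePred fun C : Fin d → Matrix (Fin m) (Fin m) (ZMod q) => ¬ Good C v'] :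
    ((univ.filter fun C : Fin d → Matrix (Fin m) (Fin m) (ZMod q) => ¬ Good C v').card : ℝ) ≤
    ((univ.filter fun C : Fin d → Matrix (Fin m) (Fin m) (ZMod q) => ¬ Good C v).card : ℝ) := by
  have : (univ.filter fun C : Fin d → Matrix (Fin m) (Fin m) (ZMod q) => ¬ Good C v') ⊆
      (univ.filter fun C : Fin d → Matrix (Fin m) (Fin m) (ZMod q) => ¬ Good C v) := by
    intro C hC
    rw [Finset.mem_filter] at hC ⊢
    exact ⟨hC.1, fun h => hC.2 (h.mono hv)⟩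
  exact_mod_cast Finset.card_le_card this

/-- polynomials are eventually smaller than `2^n` -/
theorem ev_poly (A : ℝ) (k : ℕ) : ∀ᶠ n : ℕ in atTop, A * (n : ℝ) ^ k ≤ (2 : ℝ) ^ n := by
  have h := tendsto_pow_const_div_const_pow_of_one_lt k (show (1 : ℝ) < 2 by norm_num)
  have h2 : Tendsto (fun n : ℕ => A * ((n : ℝ) ^ k / 2 ^ n)) atTop (𝓝 (A * 0)) := h.const_mul A
  rw [mul_zero] at h2
  filter_upwards [h2.eventually (ge_mem_nhds zero_lt_one)] with n hn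
  have : (0 : ℝ) < 2 ^ n := by positivity
  rw [← mul_div_assoc, div_le_one this] at hn
  exact hn

theorem log_nat_bounds {R f : ℕ} (hq : 2 ≤ q) (hR : q ≤ R) :
    q ^ (Nat.log q (R ^ (4 * f + 3))) ≤ R ^ (4 * f + 3) ∧
    R ^ (4 * f + 2) < q ^ (Nat.log q (R ^ (4 * f + 2)) + 1) ∧
    Nat.log q (R ^ (4 * f + 2)) + Nat.log q R ≤ Nat.log q (R ^ (4 * f + 3)) ∧
    1 ≤ Nat.log q R ∧ Nat.log q (R ^ (4 * f + 3)) ≤ (4 * f + 3) * R := by
  have hR0 : 0 < R := by omega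
  have hq1 : 1 < q := hq
  refine ⟨Nat.pow_log_le_self q (by positivity), Nat.lt_pow_succ_log_self hq1 _, ?_, ?_, ?_⟩
  · apply Nat.le_log_of_pow_le hq1
    rw [pow_add]
    calc q ^ (Nat.log q (R ^ (4 * f + 2))) * q ^ (Nat.log q R) ≤ R ^ (4 * f + 2) * R :=
          Nat.mul_le_mul (Nat.pow_log_le_self q (by positivity)) (Nat.pow_log_le_self q (by positivity))
      _ = R ^ (4 * f + 3) := by ring
  · apply Nat.le_log_of_pow_le hq1
    rw [pow_one]; exact hR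
  · have h1 : R < q ^ R := Nat.lt_pow_self hq1
    have h2 : R ^ (4 * f + 3) ≤ q ^ ((4 * f + 3) * R) := by
      calc R ^ (4 * f + 3) ≤ (q ^ R) ^ (4 * f + 3) := Nat.pow_le_pow_left h1.le _
        _ = q ^ ((4 * f + 3) * R) := by rw [← pow_mul, mul_comm]
    calc Nat.log q (R ^ (4 * f + 3)) ≤ Nat.log q (q ^ ((4 * f + 3) * R)) := Nat.log_mono_right h2
      _ = _ := Nat.log_pow hq1 _

/-- the sparse vectors are negligible in the first regime -/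
theorem sparse_small {f R m : ℕ} (hq : 2 ≤ q) (hR1 : 1 ≤ R) (hA : (f + 2) * (64 * (f + 1)) * q ≤ R)
    (h6 : R ^ 6 ≤ 2 ^ R) (hm1 : 4 * (f + 1) * R ^ 4 ≤ m) (hm2 : m < 64 * (f + 1) * R ^ 4) :
    ((f + 2) * m * q) ^ ((R ^ 3 + 1) * (f + 2)) * R ≤ q ^ m := by
  have h1 : (f + 2) * m * q ≤ R ^ 5 := by
    calc (f + 2) * m * q ≤ (f + 2) * (64 * (f + 1) * R ^ 4) * q := by gcongr
      _ = ((f + 2) * (64 * (f + 1)) * q) * R ^ 4 := by ring
      _ ≤ R * R ^ 4 := Nat.mul_le_mul_right _ hA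
      _ = R ^ 5 := by ring
  have h2 : 5 * ((R ^ 3 + 1) * (f + 2)) + 1 ≤ 6 * (4 * (f + 1) * R ^ 3) := by
    have h3 : 1 ≤ R ^ 3 := Nat.one_le_pow _ _ hR1
    nlinarith [Nat.zero_le f, mul_le_mul_of_nonneg_left h3 (Nat.zero_le f)]
  calc ((f + 2) * m * q) ^ ((R ^ 3 + 1) * (f + 2)) * R
      ≤ (R ^ 5) ^ ((R ^ 3 + 1) * (f + 2)) * R := Nat.mul_le_mul_right _ (Nat.pow_le_pow_left h1 _)
    _ = R ^ (5 * ((R ^ 3 + 1) * (f + 2)) + 1) := by
        rw [← pow_mul]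
        exact (pow_succ R (5 * ((R ^ 3 + 1) * (f + 2)))).symm
    _ ≤ R ^ (6 * (4 * (f + 1) * R ^ 3)) := Nat.pow_le_pow_right hR1 h2
    _ = (R ^ 6) ^ (4 * (f + 1) * R ^ 3) := by rw [pow_mul]
    _ ≤ (2 ^ R) ^ (4 * (f + 1) * R ^ 3) := Nat.pow_le_pow_left h6 _
    _ = 2 ^ (4 * (f + 1) * R ^ 4) := by rw [← pow_mul]; congr 1; ring
    _ ≤ q ^ (4 * (f + 1) * R ^ 4) := Nat.pow_le_pow_left hq _
    _ ≤ q ^ m := Nat.pow_le_pow_right (by omega) hm1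

/-- a logarithm of the number of points against `log R` -/
theorem loglog_le (hq : 2 ≤ q) (f : ℕ) : ∃ c : ℝ, 0 < c ∧ ∀ R m : ℕ, 2 ≤ R → 4 * (f + 1) * R ^ 4 ≤ m →
    m < 64 * (f + 1) * R ^ 4 →
    0 ≤ Real.log (m * Real.log q) ∧ Real.log (m * Real.log q) ≤ c * Real.log R := by
  have hq' : (2 : ℝ) ≤ q := by exact_mod_cast hq
  have hlq : Real.log 2 ≤ Real.log q := Real.log_le_log (by norm_num) hq'
  have hl2 : 0.6931471803 < Real.log 2 := Real.log_two_gt_d9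
  have hlq0 : 0 < Real.log q := by linarith
  have hf : (0 : ℝ) ≤ f := Nat.cast_nonneg f
  have h64 : 1 ≤ 64 * ((f : ℝ) + 1) * Real.log q := by nlinarith
  have hl64 : 0 ≤ Real.log (64 * ((f : ℝ) + 1) * Real.log q) := Real.log_nonneg h64
  refine ⟨4 + Real.log (64 * ((f : ℝ) + 1) * Real.log q) / Real.log 2, by positivity, ?_⟩
  intro R m hR hm1 hm2
  have hR' : (2 : ℝ) ≤ R := by exact_mod_cast hR
  have hm1' : 4 * ((f : ℝ) + 1) * (R : ℝ) ^ 4 ≤ m := by exact_mod_cast hm1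
  have hm2' : (m : ℝ) < 64 * ((f : ℝ) + 1) * (R : ℝ) ^ 4 := by exact_mod_cast hm2
  have hR4 : (16 : ℝ) ≤ (R : ℝ) ^ 4 := by
    calc (16 : ℝ) = 2 ^ 4 := by norm_num
      _ ≤ _ := pow_le_pow_left₀ (by norm_num) hR' 4
  have hm64 : (64 : ℝ) ≤ m := by nlinarith
  constructor
  · apply Real.log_nonneg
    nlinarith
  · have hlR : Real.log 2 ≤ Real.log R := Real.log_le_log (by norm_num) hR'
    calc Real.log (m * Real.log q) ≤ Real.log ((64 * ((f : ℝ) + 1) * Real.log q) * (R : ℝ) ^ 4) := by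
          apply Real.log_le_log (by positivity)
          nlinarith
      _ = Real.log (64 * ((f : ℝ) + 1) * Real.log q) + 4 * Real.log R := by
          rw [Real.log_mul (by positivity) (by positivity), Real.log_pow]; push_cast; ring
      _ ≤ _ := by
          have : Real.log (64 * ((f : ℝ) + 1) * Real.log q) ≤
              Real.log (64 * ((f : ℝ) + 1) * Real.log q) / Real.log 2 * Real.log R := by
            rw [div_mul_eq_mul_div, le_div_iff₀ (by linarith)]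
            exact mul_le_mul_of_nonneg_left hlR hl64
          linarith

theorem log_le_natlog {R : ℕ} (hq : 2 ≤ q) (hR : q ≤ R) :
    Real.log R ≤ 2 * Real.log q * (Nat.log q R : ℝ) := by
  have hq1 : 1 < q := hq
  have hR0 : 0 < R := by omega
  have h1 : R < q ^ (Nat.log q R + 1) := Nat.lt_pow_succ_log_self hq1 _
  have h2 : 1 ≤ Nat.log q R := by
    apply Nat.le_log_of_pow_le hq1
    rw [pow_one]; exact hR
  have h3 : R ≤ q ^ (2 * Nat.log q R) := h1.le.trans (Nat.pow_le_pow_right (by omega) (by omega))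
  have h4 : (R : ℝ) ≤ (q : ℝ) ^ (2 * Nat.log q R) := by exact_mod_cast h3
  calc Real.log R ≤ Real.log ((q : ℝ) ^ (2 * Nat.log q R)) :=
        Real.log_le_log (by exact_mod_cast hR0) h4
    _ = _ := by rw [Real.log_pow]; push_cast; ring

/-- first regime -/
theorem parI (q : ℕ) [Fact q.Prime] (f : ℕ) : ∃ (C₁ c₁ : ℝ) (R₀ : ℕ), 0 < C₁ ∧ 0 < c₁ ∧ 2 ≤ R₀ ∧
    ∀ R m : ℕ, R₀ ≤ R → 4 * (f + 1) * R ^ 4 ≤ m → m < 64 * (f + 1) * R ^ 4 →
    ∀ [DecidablePred fun C : Fin (f + 2) → Matrix (Fin m) (Fin m) (ZMod q) =>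
      ¬ Good C (c₁ * (m : ℝ) ^ (f + 1) * Real.log (m * Real.log q))],
    ((univ.filter fun C : Fin (f + 2) → Matrix (Fin m) (Fin m) (ZMod q) =>
      ¬ Good C (c₁ * (m : ℝ) ^ (f + 1) * Real.log (m * Real.log q))).card : ℝ) ≤
      C₁ / R * (q : ℝ) ^ ((f + 2) * m ^ 2) := by
  classical
  have hq2 : 2 ≤ q := (Fact.out : q.Prime).two_le
  have hq' : (2 : ℝ) ≤ q := by exact_mod_cast hq2
  have hq0 : (0 : ℝ) < q := by linarith
  have hlq : Real.log 2 ≤ Real.log q := Real.log_le_log (by norm_num) hq'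
  have hl2 : 0.6931471803 < Real.log 2 := Real.log_two_gt_d9
  have hlq0 : 0 < Real.log q := by linarith
  obtain ⟨c₄, hc₄, hll⟩ := loglog_le hq2 f
  obtain ⟨R₁, hR₁⟩ := eventually_atTop.mp (ev_poly 1 6)
  have hf : (0 : ℝ) ≤ f := Nat.cast_nonneg f
  refine ⟨4 * (q : ℝ) ^ (f + 2) + 8 * q + 2 * q + 1,
    (1 / 2 : ℝ) ^ (f + 2) * (1 / (q : ℝ) ^ (f + 2) / 4) * (1 / (64 * ((f : ℝ) + 1)) ^ (f + 1)) *
      (1 / (2 * Real.log q)) * (1 / c₄),
    max (max 2 R₁) ((f + 2) * (64 * (f + 1)) * q), by positivity, by positivity,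
    (le_max_left _ _).trans (le_max_left _ _), ?_⟩
  intro R m hR hm1 hm2 _
  have hR2 : 2 ≤ R := ((le_max_left _ _).trans (le_max_left _ _)).trans hR
  have hRR₁ : R₁ ≤ R := ((le_max_right _ _).trans (le_max_left _ _)).trans hR
  have hRA : (f + 2) * (64 * (f + 1)) * q ≤ R := (le_max_right _ _).trans hR
  have hqR : q ≤ R := by
    refine le_trans ?_ hRA
    exact Nat.le_mul_of_pos_left _ (by positivity)
  have hR2' : (2 : ℝ) ≤ R := by exact_mod_cast hR2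
  have hR0' : (0 : ℝ) < R := by linarith
  have h6 : R ^ 6 ≤ 2 ^ R := by
    have := hR₁ R hRR₁
    rw [one_mul] at this
    exact_mod_cast this
  obtain ⟨n1, n2, n3, n4, n5⟩ := log_nat_bounds (f := f) hq2 hqR
  set T0 := Nat.log q (R ^ (4 * f + 2)) with hT0
  set T1 := Nat.log q (R ^ (4 * f + 3)) with hT1
  have hT : T0 < T1 := by omega
  have hR4 : 1 ≤ R ^ 4 := Nat.one_le_pow _ _ (by omega)
  have hcond : T1 + 2 * (f + 1) * R ^ 4 + 1 ≤ m := by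
    have e1 : (4 * f + 3) * R + 1 ≤ 2 * (f + 1) * R ^ 4 := by
      have e2 : 8 ≤ R ^ 3 := by
        calc 8 = 2 ^ 3 := by norm_num
          _ ≤ R ^ 3 := Nat.pow_le_pow_left hR2 3
      have e3 : R ^ 4 = R ^ 3 * R := by ring
      rw [e3]
      nlinarith [Nat.mul_le_mul_right R e2, Nat.mul_le_mul_left f (Nat.mul_le_mul_right R e2)]
    calc T1 + 2 * (f + 1) * R ^ 4 + 1 ≤ (4 * f + 3) * R + 2 * (f + 1) * R ^ 4 + 1 := by omega
      _ ≤ 4 * (f + 1) * R ^ 4 := by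
          have : 4 * (f + 1) * R ^ 4 = 2 * (f + 1) * R ^ 4 + 2 * (f + 1) * R ^ 4 := by ring
          omega
      _ ≤ m := hm1
  have hreg := regI (q := q) (f := f) (m := m) (L := R ^ 4) (T0 := T0) (T1 := T1) (l := R ^ 3)
    (by positivity) hT (by positivity)
    (by
      refine le_trans ?_ hm1
      have : 2 * R ^ 4 ≤ 4 * (f + 1) * R ^ 4 := Nat.mul_le_mul_right _ (by omega)
      exact this) hcond
  have hTr : (Nat.log q R : ℝ) ≤ (T1 : ℝ) - T0 := by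
    have : ((T0 + Nat.log q R : ℕ) : ℝ) ≤ T1 := by exact_mod_cast n3
    push_cast at this
    linarith
  have hn4 : (1 : ℝ) ≤ (Nat.log q R : ℝ) := by exact_mod_cast n4
  have hTr1 : 1 ≤ (T1 : ℝ) - T0 := hn4.trans hTr
  have hqT1 : (q : ℝ) ^ T1 ≤ (R : ℝ) ^ (4 * f + 3) := by exact_mod_cast n1
  have hqT0 : (R : ℝ) ^ (4 * f + 2) ≤ (q : ℝ) ^ T0 * q := by
    rw [← pow_succ]
    exact_mod_cast n2.le
  -- the value
  obtain ⟨hll0, hll1⟩ := hll R m hR2 hm1 hm2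
  have hlR := log_le_natlog hq2 hqR
  have hval : (1 / 2 : ℝ) ^ (f + 2) * (1 / (q : ℝ) ^ (f + 2) / 4) * (1 / (64 * ((f : ℝ) + 1)) ^ (f + 1)) *
      (1 / (2 * Real.log q)) * (1 / c₄) * (m : ℝ) ^ (f + 1) * Real.log (m * Real.log q) ≤
      (1 / 2 : ℝ) ^ (f + 2) * (((R ^ 4 : ℕ) : ℝ) ^ (f + 1) * ((T1 : ℝ) - T0) / (q : ℝ) ^ (f + 2) / 4) := by
    have m1 : (m : ℝ) ^ (f + 1) ≤ (64 * ((f : ℝ) + 1)) ^ (f + 1) * ((R : ℝ) ^ 4) ^ (f + 1) := by
      rw [← mul_pow]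
      apply pow_le_pow_left₀ (Nat.cast_nonneg m)
      have : (m : ℝ) < 64 * ((f : ℝ) + 1) * (R : ℝ) ^ 4 := by exact_mod_cast hm2
      exact this.le
    have m2 : Real.log (m * Real.log q) ≤ c₄ * (2 * Real.log q * ((T1 : ℝ) - T0)) := by
      refine hll1.trans (mul_le_mul_of_nonneg_left (hlR.trans ?_) hc₄.le)
      exact mul_le_mul_of_nonneg_left hTr (by positivity)
    calc _ = (1 / 2 : ℝ) ^ (f + 2) * (1 / (q : ℝ) ^ (f + 2) / 4) * (1 / (64 * ((f : ℝ) + 1)) ^ (f + 1)) *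
        (1 / (2 * Real.log q)) * (1 / c₄) * ((m : ℝ) ^ (f + 1) * Real.log (m * Real.log q)) := by ring
      _ ≤ (1 / 2 : ℝ) ^ (f + 2) * (1 / (q : ℝ) ^ (f + 2) / 4) * (1 / (64 * ((f : ℝ) + 1)) ^ (f + 1)) *
        (1 / (2 * Real.log q)) * (1 / c₄) * (((64 * ((f : ℝ) + 1)) ^ (f + 1) * ((R : ℝ) ^ 4) ^ (f + 1)) *
          (c₄ * (2 * Real.log q * ((T1 : ℝ) - T0)))) := by
          apply mul_le_mul_of_nonneg_left _ (by positivity)
          exact mul_le_mul m1 m2 hll0 (by positivity)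
      _ = _ := by
          push_cast
          have : (64 * ((f : ℝ) + 1)) ^ (f + 1) ≠ 0 := by positivity
          field_simp
  refine (bad_mono hval).trans (hreg.trans ?_)
  rw [mul_comm (_ / (R : ℝ))]
  apply mul_le_mul_of_nonneg_left _ (by positivity)
  push_cast
  have k1 : 4 * ((q : ℝ) ^ T1 * (q : ℝ) ^ (f + 2)) / (((R : ℝ) ^ 4) ^ (f + 1) * ((T1 : ℝ) - T0) ^ 2) ≤
      4 * (q : ℝ) ^ (f + 2) / R := by
    rw [div_le_div_iff₀ (by positivity) hR0']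
    have e1 : (1 : ℝ) ≤ ((T1 : ℝ) - T0) ^ 2 := one_le_pow₀ hTr1
    calc 4 * ((q : ℝ) ^ T1 * (q : ℝ) ^ (f + 2)) * R ≤ 4 * ((R : ℝ) ^ (4 * f + 3) * (q : ℝ) ^ (f + 2)) * R := by
          gcongr
      _ = 4 * (q : ℝ) ^ (f + 2) * (((R : ℝ) ^ 4) ^ (f + 1) * 1) := by
          rw [← pow_mul]; ring
      _ ≤ 4 * (q : ℝ) ^ (f + 2) * (((R : ℝ) ^ 4) ^ (f + 1) * ((T1 : ℝ) - T0) ^ 2) := by
          gcongr
  have k2 : 8 * ((R : ℝ) ^ 4) ^ f / (q : ℝ) ^ T0 ≤ 8 * q / R := by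
    rw [div_le_div_iff₀ (by positivity) hR0']
    calc 8 * ((R : ℝ) ^ 4) ^ f * R ≤ 8 * ((R : ℝ) ^ 4) ^ f * R ^ 2 := by
          gcongr
          nlinarith
      _ = 8 * (R : ℝ) ^ (4 * f + 2) := by rw [← pow_mul]; ring
      _ ≤ 8 * ((q : ℝ) ^ T0 * q) := by gcongr
      _ = 8 * q * (q : ℝ) ^ T0 := by ring
  have k3 : 2 * ((R : ℝ) ^ 4) ^ (f + 1) / (q : ℝ) ^ T0 / (R : ℝ) ^ 3 ≤ 2 * q / R := by
    rw [div_div, div_le_div_iff₀ (by positivity) hR0']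
    calc 2 * ((R : ℝ) ^ 4) ^ (f + 1) * R = 2 * (R : ℝ) ^ (4 * f + 2) * (R : ℝ) ^ 3 := by
          rw [← pow_mul]; ring
      _ ≤ 2 * ((q : ℝ) ^ T0 * q) * (R : ℝ) ^ 3 := by gcongr
      _ = 2 * q * ((q : ℝ) ^ T0 * (R : ℝ) ^ 3) := by ring
  have k4 : (((f : ℝ) + 2) * m * q) ^ ((R ^ 3 + 1) * (f + 2)) / (q : ℝ) ^ m ≤ 1 / R := by
    rw [div_le_div_iff₀ (by positivity) hR0', one_mul]
    have := sparse_small hq2 (by omega) hRA h6 hm1 hm2
    exact_mod_cast this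
  calc _ ≤ 4 * (q : ℝ) ^ (f + 2) / R + 8 * q / R + 2 * q / R + 1 / R := by
        linarith
    _ = _ := by ring

end Pool.N672.DN
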