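import Pool.Agent.N672.DN.Par

open Finset Filter Topology

namespace Pool.N672.DN

/-- second regime -/
theorem parII (q : ℕ) [Fact q.Prime] (f : ℕ) : ∃ (c₂ : ℝ) (R₀ : ℕ), 0 < c₂ ∧ 2 ≤ R₀ ∧
    ∀ R m : ℕ, R₀ ≤ R → 4 * (f + 1) * R ^ 4 ≤ m → m < 64 * (f + 1) * R ^ 4 →
    ∀ δ : ℝ, 0 < δ → δ < 1 → 1 ≤ δ * (m : ℝ) ^ (f + 2) →
    ∀ [DecidablePred fun C : Fin (f + 2) → Matrix (Fin m) (Fin m) (ZMod q) =>
      ¬ Good C (c₂ * Real.sqrt δ * (m : ℝ) ^ (f + 1))],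
    ((univ.filter fun C : Fin (f + 2) → Matrix (Fin m) (Fin m) (ZMod q) =>
      ¬ Good C (c₂ * Real.sqrt δ * (m : ℝ) ^ (f + 1))).card : ℝ) ≤
      δ * (q : ℝ) ^ ((f + 2) * m ^ 2) := by
  classical
  have hq2 : 2 ≤ q := (Fact.out : q.Prime).two_le
  have hq' : (2 : ℝ) ≤ q := by exact_mod_cast hq2
  have hq0 : (0 : ℝ) < q := by linarith
  have hf : (0 : ℝ) ≤ f := Nat.cast_nonneg f
  -- thresholds
  obtain ⟨R₁, hR₁⟩ := eventually_atTop.mp (ev_poly (8 * (q : ℝ) ^ (f + 3) * (64 * ((f : ℝ) + 1)) ^ (f + 2)) 1)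
  obtain ⟨R₂, hR₂⟩ := eventually_atTop.mp (ev_poly (2 * (((f : ℝ) + 2) * q) ^ (2 * (f + 2))) (3 * (f + 2)))
  set c₃ : ℝ := (1 / 4 : ℝ) ^ (f + 2) / (16 * (q : ℝ) ^ (2 * f + 5)) with hc₃
  have hc₃0 : 0 < c₃ := by positivity
  refine ⟨Real.sqrt c₃ / (64 * ((f : ℝ) + 1)) ^ (f + 1), max (max 2 R₁) R₂, by positivity,
    (le_max_left _ _).trans (le_max_left _ _), ?_⟩
  intro R m hR hm1 hm2 δ hδ0 hδ1 hδm _
  have hR2 : 2 ≤ R := ((le_max_left _ _).trans (le_max_left _ _)).trans hR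
  have hRR₁ : R₁ ≤ R := ((le_max_right _ _).trans (le_max_left _ _)).trans hR
  have hRR₂ : R₂ ≤ R := (le_max_right _ _).trans hR
  set L := R ^ 4 with hL
  have hRL : R ≤ L := by
    rw [hL]
    calc R = R ^ 1 := (pow_one R).symm
      _ ≤ R ^ 4 := Nat.pow_le_pow_right (by omega) (by norm_num)
  have hL2 : 2 ≤ L := hR2.trans hRL
  have hL0 : 0 < L := by omega
  have hLr : (2 : ℝ) ≤ L := by exact_mod_cast hL2
  have hLr0 : (0 : ℝ) < L := by linarith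
  have hLm : 4 * (f + 1) * L ≤ m := hm1
  have hLm' : L ≤ m := le_trans (Nat.le_mul_of_pos_left _ (by positivity)) hLm
  have hm0 : 0 < m := by omega
  have hmr : (0 : ℝ) < m := by exact_mod_cast hm0
  have hmL : (m : ℝ) ≤ 64 * ((f : ℝ) + 1) * L := by
    have : (m : ℝ) < 64 * ((f : ℝ) + 1) * L := by exact_mod_cast hm2
    exact this.le
  have t1 : 8 * (q : ℝ) ^ (f + 3) * (64 * ((f : ℝ) + 1)) ^ (f + 2) * (L : ℝ) ≤ (2 : ℝ) ^ L := by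
    have := hR₁ L (hRR₁.trans hRL)
    rw [pow_one] at this
    exact this
  have t2 : 2 * (((f : ℝ) + 2) * q) ^ (2 * (f + 2)) * (m : ℝ) ^ (3 * (f + 2)) ≤ (2 : ℝ) ^ m :=
    hR₂ m (hRR₂.trans (hRL.trans hLm'))
  -- the level
  set x : ℝ := 8 * (q : ℝ) ^ (f + 2) * (q : ℝ) ^ m / (δ * (L : ℝ) ^ (f + 1)) with hx
  have hLpow : (L : ℝ) ^ (f + 1) ≤ (q : ℝ) ^ ((f + 1) * L) := by
    have h1 : (L : ℝ) ≤ (q : ℝ) ^ L := by
      have : L < q ^ L := Nat.lt_pow_self (by omega)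
      exact_mod_cast this.le
    calc (L : ℝ) ^ (f + 1) ≤ ((q : ℝ) ^ L) ^ (f + 1) := pow_le_pow_left₀ hLr0.le h1 _
      _ = _ := by rw [← pow_mul, mul_comm]
  have hx0 : (q : ℝ) ^ (2 * (f + 1) * L) < x := by
    rw [hx, lt_div_iff₀ (by positivity)]
    have h1 : (q : ℝ) ^ (2 * (f + 1) * L) * (δ * (L : ℝ) ^ (f + 1)) ≤
        (q : ℝ) ^ (2 * (f + 1) * L) * (1 * (q : ℝ) ^ ((f + 1) * L)) := by
      gcongr
    have h2 : (q : ℝ) ^ (2 * (f + 1) * L) * (1 * (q : ℝ) ^ ((f + 1) * L)) ≤ (q : ℝ) ^ m := by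
      rw [one_mul, ← pow_add]
      apply pow_le_pow_right₀ (by linarith)
      calc 2 * (f + 1) * L + (f + 1) * L = 3 * (f + 1) * L := by ring
        _ ≤ 4 * (f + 1) * L := Nat.mul_le_mul_right _ (by omega)
        _ ≤ m := hLm
    have h3 : (q : ℝ) ^ m < 8 * (q : ℝ) ^ (f + 2) * (q : ℝ) ^ m := by
      have h4 : (1 : ℝ) ≤ (q : ℝ) ^ (f + 2) := one_le_pow₀ (by linarith)
      have h5 : (0 : ℝ) < (q : ℝ) ^ m := by positivity
      nlinarith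
    linarith
  have hx1 : 1 ≤ x := le_trans (one_le_pow₀ (by linarith)) hx0.le
  obtain ⟨n, hn1, hn2⟩ := exists_nat_pow_near hx1 (show (1 : ℝ) < q by linarith)
  set w := n + 1 with hw
  have hwx : (q : ℝ) ^ w ≤ q * x := by
    rw [hw, pow_succ]
    nlinarith
  have hw1 : 2 * (f + 1) * L + 1 ≤ w := by
    by_contra hcon
    have h1 : w ≤ 2 * (f + 1) * L := by omega
    have h2 : (q : ℝ) ^ w ≤ (q : ℝ) ^ (2 * (f + 1) * L) := pow_le_pow_right₀ (by linarith) h1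
    linarith
  have hw2 : w ≤ m + (f + 1) * (L + 1) := by
    by_contra hcon
    have h1 : m + (f + 1) * (L + 1) + 1 ≤ w := by omega
    have h2 : (q : ℝ) ^ (m + (f + 1) * (L + 1) + 1) ≤ (q : ℝ) ^ w := pow_le_pow_right₀ (by linarith) h1
    have h3 : q * x ≤ 8 * (q : ℝ) ^ (f + 3) * (64 * ((f : ℝ) + 1)) ^ (f + 2) * (L : ℝ) * (q : ℝ) ^ m := by
      rw [hx, ← mul_div_assoc, div_le_iff₀ (by positivity)]
      have h4 : (m : ℝ) ^ (f + 2) ≤ (64 * ((f : ℝ) + 1)) ^ (f + 2) * (L : ℝ) ^ (f + 2) := by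
        rw [← mul_pow]
        exact pow_le_pow_left₀ hmr.le hmL _
      calc q * (8 * (q : ℝ) ^ (f + 2) * (q : ℝ) ^ m) = (8 * (q : ℝ) ^ (f + 3) * (q : ℝ) ^ m) * 1 := by ring
        _ ≤ (8 * (q : ℝ) ^ (f + 3) * (q : ℝ) ^ m) * (δ * ((64 * ((f : ℝ) + 1)) ^ (f + 2) * (L : ℝ) ^ (f + 2))) := by
            apply mul_le_mul_of_nonneg_left _ (by positivity)
            exact hδm.trans (mul_le_mul_of_nonneg_left h4 hδ0.le)
        _ = _ := by ring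
    have h5 : 8 * (q : ℝ) ^ (f + 3) * (64 * ((f : ℝ) + 1)) ^ (f + 2) * (L : ℝ) * (q : ℝ) ^ m ≤
        (q : ℝ) ^ (m + (f + 1) * (L + 1)) := by
      calc _ ≤ (2 : ℝ) ^ L * (q : ℝ) ^ m := mul_le_mul_of_nonneg_right t1 (by positivity)
        _ ≤ (q : ℝ) ^ L * (q : ℝ) ^ m := by gcongr
        _ = (q : ℝ) ^ (L + m) := (pow_add _ _ _).symm
        _ ≤ _ := by
          apply pow_le_pow_right₀ (by linarith)
          nlinarith
    have h6 : (q : ℝ) ^ (m + (f + 1) * (L + 1)) < (q : ℝ) ^ (m + (f + 1) * (L + 1) + 1) :=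
      pow_lt_pow_right₀ (by linarith) (Nat.lt_succ_self _)
    linarith
  set μ : ℝ := (L : ℝ) ^ (f + 1) * (q : ℝ) ^ w / ((q : ℝ) ^ m * (q : ℝ) ^ (f + 2)) with hμ
  have hμδ : 8 / δ ≤ μ := by
    rw [hμ, div_le_div_iff₀ hδ0 (by positivity)]
    have h1 : 8 * (q : ℝ) ^ (f + 2) * (q : ℝ) ^ m < (q : ℝ) ^ w * (δ * (L : ℝ) ^ (f + 1)) := by
      rw [hx, div_lt_iff₀ (by positivity)] at hn2
      exact hn2
    nlinarith
  have hμ0 : 0 < μ := lt_of_lt_of_le (by positivity) hμδ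
  set v : ℝ := Real.sqrt (c₃ * δ) * (L : ℝ) ^ (f + 1) with hv
  have hvle : Real.sqrt c₃ / (64 * ((f : ℝ) + 1)) ^ (f + 1) * Real.sqrt δ * (m : ℝ) ^ (f + 1) ≤ v := by
    rw [hv, Real.sqrt_mul hc₃0.le]
    have h4 : (m : ℝ) ^ (f + 1) ≤ (64 * ((f : ℝ) + 1)) ^ (f + 1) * (L : ℝ) ^ (f + 1) := by
      rw [← mul_pow]
      exact pow_le_pow_left₀ hmr.le hmL _
    calc Real.sqrt c₃ / (64 * ((f : ℝ) + 1)) ^ (f + 1) * Real.sqrt δ * (m : ℝ) ^ (f + 1) ≤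
        Real.sqrt c₃ / (64 * ((f : ℝ) + 1)) ^ (f + 1) * Real.sqrt δ *
          ((64 * ((f : ℝ) + 1)) ^ (f + 1) * (L : ℝ) ^ (f + 1)) :=
          mul_le_mul_of_nonneg_left h4 (by positivity)
      _ = _ := by field_simp
  have hvsq : v ^ 2 ≤ μ / 2 * ((1 / 2 : ℝ) ^ (f + 2) * ((q : ℝ) ^ m / (q : ℝ) ^ w)) ^ 2 := by
    have h1 : v ^ 2 = c₃ * δ * ((L : ℝ) ^ (f + 1)) ^ 2 := by
      rw [hv, mul_pow, Real.sq_sqrt (by positivity)]
    have h2 : μ / 2 * ((1 / 2 : ℝ) ^ (f + 2) * ((q : ℝ) ^ m / (q : ℝ) ^ w)) ^ 2 =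
        (1 / 4 : ℝ) ^ (f + 2) * (L : ℝ) ^ (f + 1) * (q : ℝ) ^ m / (2 * (q : ℝ) ^ (f + 2)) / (q : ℝ) ^ w := by
      have h3 : ((1 / 2 : ℝ) ^ (f + 2)) ^ 2 = (1 / 4 : ℝ) ^ (f + 2) := by
        rw [← pow_mul, mul_comm, pow_mul]; norm_num
      rw [mul_pow, h3, hμ]
      field_simp
    rw [h1, h2, le_div_iff₀ (by positivity)]
    calc c₃ * δ * ((L : ℝ) ^ (f + 1)) ^ 2 * (q : ℝ) ^ w ≤ c₃ * δ * ((L : ℝ) ^ (f + 1)) ^ 2 * (q * x) :=
          mul_le_mul_of_nonneg_left hwx (by positivity)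
      _ = _ := by
          rw [hx, hc₃]
          have : (q : ℝ) ^ (2 * f + 5) = (q : ℝ) ^ (f + 2) * (q : ℝ) ^ (f + 2) * q := by ring
          rw [this]
          field_simp
          norm_num
  have hreg := regII (q := q) (f := f) (m := m) (L := L) (w := w) hL0
    (le_trans (Nat.mul_le_mul_right L (by omega : 2 ≤ 4 * (f + 1))) hLm) hw1 hw2 μ v hμ hvsq
  refine (bad_mono hvle).trans (hreg.trans ?_)
  rw [mul_comm δ]
  apply mul_le_mul_of_nonneg_left _ (by positivity)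
  have k1 : 4 / μ ≤ δ / 2 := by
    rw [div_le_div_iff₀ hμ0 (by norm_num)]
    rw [div_le_iff₀ hδ0] at hμδ
    linarith
  have k2 : (((f + 2) * m * q : ℕ) : ℝ) ^ (2 * (f + 2)) / (q : ℝ) ^ m ≤ δ / 2 := by
    rw [div_le_div_iff₀ (by positivity) (by norm_num)]
    push_cast
    have h1 : (2 : ℝ) ^ m ≤ (q : ℝ) ^ m := pow_le_pow_left₀ (by norm_num) hq' _
    have h2 : (0 : ℝ) < (m : ℝ) ^ (f + 2) := by positivity
    have h3 : (((f : ℝ) + 2) * m * q) ^ (2 * (f + 2)) * 2 * (m : ℝ) ^ (f + 2) ≤ (q : ℝ) ^ m := by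
      refine le_trans (le_of_eq ?_) (t2.trans h1)
      rw [show 3 * (f + 2) = 2 * (f + 2) + (f + 2) by ring, pow_add (m : ℝ), mul_right_comm ((f : ℝ) + 2),
        mul_pow _ (m : ℝ)]
      ring
    calc (((f : ℝ) + 2) * m * q) ^ (2 * (f + 2)) * 2 ≤
        (((f : ℝ) + 2) * m * q) ^ (2 * (f + 2)) * 2 * (δ * (m : ℝ) ^ (f + 2)) :=
          le_mul_of_one_le_right (by positivity) hδm
      _ = δ * ((((f : ℝ) + 2) * m * q) ^ (2 * (f + 2)) * 2 * (m : ℝ) ^ (f + 2)) := by ring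
      _ ≤ δ * (q : ℝ) ^ m := mul_le_mul_of_nonneg_left h3 hδ0.le
  linarith

end Pool.N672.DN
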