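import Mathlib

open Finset

namespace Pool.N672.DN

/-! Second moment method for pairwise independent events (uniform measure on a finite set). -/

section
variable {Ω H : Type*} [Fintype Ω] [DecidableEq H] (S : Finset H) (E : H → Ω → Prop)
  [∀ h, DecidablePred (E h)] (p : ℝ) (c : H → ℝ)

theorem sum_ind (h : H) : ∑ ω : Ω, (if E h ω then c h else 0) = c h * ((univ.filter (E h)).card : ℝ) := by
  have : ∀ ω : Ω, (if E h ω then c h else 0) = c h * (if E h ω then (1 : ℝ) else 0) := by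
    intro ω; split_ifs <;> simp
  rw [Finset.sum_congr rfl fun ω _ => this ω, ← Finset.mul_sum, Finset.sum_boole]

theorem cheb (hp0 : 0 ≤ p) (hc : ∀ h ∈ S, 0 ≤ c h)
    (h1 : ∀ h ∈ S, ((univ.filter (E h)).card : ℝ) = p * (Fintype.card Ω : ℝ))
    (h2 : ∀ h ∈ S, ∀ h' ∈ S, h ≠ h' →
      ((univ.filter fun ω => E h ω ∧ E h' ω).card : ℝ) = p ^ 2 * (Fintype.card Ω : ℝ)) :
    ((univ.filter fun ω : Ω => (∑ h ∈ S, if E h ω then c h else 0) < (p * ∑ h ∈ S, c h) / 2).card : ℝ) *
      (p * ∑ h ∈ S, c h) ^ 2 ≤ 4 * (p * ∑ h ∈ S, c h ^ 2) * (Fintype.card Ω : ℝ) := by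
  classical
  set μ : ℝ := p * ∑ h ∈ S, c h with hμ
  set W : Ω → ℝ := fun ω => ∑ h ∈ S, if E h ω then c h else 0 with hW
  have hsc : 0 ≤ ∑ h ∈ S, c h := Finset.sum_nonneg hc
  have hμ0 : 0 ≤ μ := mul_nonneg hp0 hsc
  have s1 : ∑ ω : Ω, W ω = μ * (Fintype.card Ω : ℝ) := by
    rw [hW, Finset.sum_comm, hμ, Finset.mul_sum, Finset.sum_mul]
    apply Finset.sum_congr rfl
    intro h hh
    rw [sum_ind, h1 h hh]; ring
  have s2 : ∑ ω : Ω, W ω ^ 2 ≤ μ ^ 2 * (Fintype.card Ω : ℝ) + (p * ∑ h ∈ S, c h ^ 2) * (Fintype.card Ω : ℝ) := by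
    have e1 : ∀ ω : Ω, W ω ^ 2 = ∑ h ∈ S, ∑ h' ∈ S, c h * c h' * (if E h ω ∧ E h' ω then (1 : ℝ) else 0) := by
      intro ω
      rw [hW, sq, Finset.sum_mul]
      apply Finset.sum_congr rfl
      intro h _
      rw [Finset.mul_sum]
      apply Finset.sum_congr rfl
      intro h' _
      by_cases a : E h ω <;> by_cases b : E h' ω <;> simp [a, b]
    rw [Finset.sum_congr rfl fun ω _ => e1 ω, Finset.sum_comm]
    have e2 : ∀ h ∈ S, ∑ ω : Ω, ∑ h' ∈ S, c h * c h' * (if E h ω ∧ E h' ω then (1 : ℝ) else 0) ≤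
        c h * (p ^ 2 * ∑ h' ∈ S, c h') * (Fintype.card Ω : ℝ) + c h ^ 2 * p * (Fintype.card Ω : ℝ) := by
      intro h hh
      rw [Finset.sum_comm]
      have e3 : ∀ h' ∈ S, ∑ ω : Ω, c h * c h' * (if E h ω ∧ E h' ω then (1 : ℝ) else 0) ≤
          c h * c h' * (p ^ 2 * (Fintype.card Ω : ℝ)) + (if h' = h then c h ^ 2 * p * (Fintype.card Ω : ℝ) else 0) := by
        intro h' hh'
        rw [← Finset.mul_sum, Finset.sum_boole]
        by_cases hne : h' = h
        · subst hne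
          rw [if_pos rfl]
          have : (univ.filter fun ω => E h' ω ∧ E h' ω) = univ.filter (E h') := by
            apply Finset.filter_congr; intro ω _; exact and_self_iff
          rw [this, h1 h' hh']
          have : 0 ≤ c h' * c h' * (p ^ 2 * (Fintype.card Ω : ℝ)) :=
            mul_nonneg (mul_self_nonneg _) (by positivity)
          nlinarith
        · rw [if_neg hne, add_zero, h2 h hh h' hh' (Ne.symm hne)]
      refine (Finset.sum_le_sum e3).trans (le_of_eq ?_)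
      rw [Finset.sum_add_distrib, Finset.sum_ite_eq', if_pos hh, Finset.mul_sum, Finset.mul_sum,
        Finset.sum_mul]
      congr 1
      apply Finset.sum_congr rfl
      intro h' _
      ring
    refine (Finset.sum_le_sum e2).trans (le_of_eq ?_)
    rw [Finset.sum_add_distrib, ← Finset.sum_mul, ← Finset.sum_mul, ← Finset.sum_mul, ← Finset.sum_mul]
    rw [hμ]; ring
  have s3 : ∑ ω : Ω, (W ω - μ) ^ 2 ≤ (p * ∑ h ∈ S, c h ^ 2) * (Fintype.card Ω : ℝ) := by
    have e1 : ∀ ω : Ω, (W ω - μ) ^ 2 = W ω ^ 2 - 2 * μ * W ω + μ ^ 2 := by intro ω; ring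
    rw [Finset.sum_congr rfl fun ω _ => e1 ω, Finset.sum_add_distrib, Finset.sum_sub_distrib,
      ← Finset.mul_sum, s1, Finset.sum_const, Finset.card_univ, nsmul_eq_mul]
    nlinarith [s2]
  have s4 : ((univ.filter fun ω : Ω => W ω < μ / 2).card : ℝ) * (μ ^ 2 / 4) ≤ ∑ ω : Ω, (W ω - μ) ^ 2 := by
    calc ((univ.filter fun ω : Ω => W ω < μ / 2).card : ℝ) * (μ ^ 2 / 4)
        = ∑ ω ∈ univ.filter (fun ω : Ω => W ω < μ / 2), (μ ^ 2 / 4) := by
          rw [Finset.sum_const, nsmul_eq_mul]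
      _ ≤ ∑ ω ∈ univ.filter (fun ω : Ω => W ω < μ / 2), (W ω - μ) ^ 2 := by
          apply Finset.sum_le_sum
          intro ω hω
          rw [Finset.mem_filter] at hω
          nlinarith [hω.2]
      _ ≤ _ := by
          apply Finset.sum_le_sum_of_subset_of_nonneg (Finset.filter_subset _ _)
          intro ω _ _
          positivity
  nlinarith [s3, s4]

theorem sel {A : Type*} [DecidableEq A] (a : H → A) (mx : ℝ) (l : ℕ) (hl : 0 < l) (hp0 : 0 < p)
    (hc : ∀ h ∈ S, 0 ≤ c h) (hpos : 0 < ∑ h ∈ S, c h)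
    (h1 : ∀ h ∈ S, ((univ.filter (E h)).card : ℝ) = p * (Fintype.card Ω : ℝ))
    (h2 : ∀ h ∈ S, ∀ h' ∈ S, h ≠ h' →
      ((univ.filter fun ω => E h ω ∧ E h' ω).card : ℝ) = p ^ 2 * (Fintype.card Ω : ℝ))
    (hmx : ∀ h ∈ S, ((S.filter fun h' => a h' = a h).card : ℝ) ≤ mx)
    [DecidablePred fun ω : Ω => ¬ ∃ T ⊆ S, (∀ h ∈ T, E h ω) ∧ Set.InjOn a (T : Set H) ∧ T.card ≤ l ∧
      (p * ∑ h ∈ S, c h) / 4 ≤ ∑ h ∈ T, c h] :
    ((univ.filter fun ω : Ω => ¬ ∃ T ⊆ S, (∀ h ∈ T, E h ω) ∧ Set.InjOn a (T : Set H) ∧ T.card ≤ l ∧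
      (p * ∑ h ∈ S, c h) / 4 ≤ ∑ h ∈ T, c h).card : ℝ) ≤
      (Fintype.card Ω : ℝ) * (4 * (p * ∑ h ∈ S, c h ^ 2) / (p * ∑ h ∈ S, c h) ^ 2 + 4 * (p * mx) +
        p * S.card / l) := by
  classical
  have hcheb := cheb S E p c hp0.le hc h1 h2
  set μ : ℝ := p * ∑ h ∈ S, c h with hμ
  have hμ0 : 0 < μ := mul_pos hp0 hpos
  set W : Ω → ℝ := fun ω => ∑ h ∈ S, if E h ω then c h else 0 with hW
  set X : Ω → ℝ := fun ω => ∑ h ∈ S, ∑ h' ∈ S.filter (fun h' => a h' = a h ∧ h' ≠ h),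
    c h * (if E h ω ∧ E h' ω then (1 : ℝ) else 0) with hX
  set Y : Ω → ℕ := fun ω => (S.filter fun h => E h ω).card with hY
  set B1 := univ.filter fun ω : Ω => W ω < μ / 2 with hB1
  set B2 := univ.filter fun ω : Ω => μ / 4 < X ω with hB2
  set B3 := univ.filter fun ω : Ω => l < Y ω with hB3
  have b1 : (B1.card : ℝ) ≤ (Fintype.card Ω : ℝ) * (4 * (p * ∑ h ∈ S, c h ^ 2) / μ ^ 2) := by
    have : (B1.card : ℝ) * μ ^ 2 ≤ 4 * (p * ∑ h ∈ S, c h ^ 2) * (Fintype.card Ω : ℝ) := hcheb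
    have h3 : 0 < μ ^ 2 := by positivity
    rw [← mul_div_assoc, le_div_iff₀ h3]
    linarith
  have b2 : (B2.card : ℝ) ≤ (Fintype.card Ω : ℝ) * (4 * (p * mx)) := by
    have e1 : ∑ ω : Ω, X ω ≤ μ * (p * mx) * (Fintype.card Ω : ℝ) := by
      rw [hX, Finset.sum_comm]
      have e2 : ∀ h ∈ S, ∑ ω : Ω, ∑ h' ∈ S.filter (fun h' => a h' = a h ∧ h' ≠ h),
          c h * (if E h ω ∧ E h' ω then (1 : ℝ) else 0) ≤ c h * (p * (p * mx) * (Fintype.card Ω : ℝ)) := by
        intro h hh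
        rw [Finset.sum_comm]
        have e3 : ∀ h' ∈ S.filter (fun h' => a h' = a h ∧ h' ≠ h),
            ∑ ω : Ω, c h * (if E h ω ∧ E h' ω then (1 : ℝ) else 0) = c h * (p ^ 2 * (Fintype.card Ω : ℝ)) := by
          intro h' hh'
          rw [Finset.mem_filter] at hh'
          rw [← Finset.mul_sum, Finset.sum_boole, h2 h hh h' hh'.1 (Ne.symm hh'.2.2)]
        rw [Finset.sum_congr rfl e3, Finset.sum_const, nsmul_eq_mul]
        have e4 : ((S.filter (fun h' => a h' = a h ∧ h' ≠ h)).card : ℝ) ≤ mx := by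
          refine le_trans ?_ (hmx h hh)
          have : (S.filter (fun h' => a h' = a h ∧ h' ≠ h)).card ≤ (S.filter fun h' => a h' = a h).card := by
            apply Finset.card_le_card
            intro h' hh'
            rw [Finset.mem_filter] at hh' ⊢
            exact ⟨hh'.1, hh'.2.1⟩
          exact_mod_cast this
        have e5 : 0 ≤ c h * (p ^ 2 * (Fintype.card Ω : ℝ)) := by
          have := hc h hh
          positivity
        calc _ ≤ mx * (c h * (p ^ 2 * (Fintype.card Ω : ℝ))) := mul_le_mul_of_nonneg_right e4 e5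
          _ = _ := by ring
      refine (Finset.sum_le_sum e2).trans (le_of_eq ?_)
      rw [← Finset.sum_mul, hμ]; ring
    have e6 : (B2.card : ℝ) * (μ / 4) ≤ ∑ ω : Ω, X ω := by
      calc (B2.card : ℝ) * (μ / 4) = ∑ ω ∈ B2, (μ / 4) := by rw [Finset.sum_const, nsmul_eq_mul]
        _ ≤ ∑ ω ∈ B2, X ω := by
            apply Finset.sum_le_sum
            intro ω hω
            rw [hB2, Finset.mem_filter] at hω
            exact hω.2.le
        _ ≤ _ := by
            apply Finset.sum_le_sum_of_subset_of_nonneg (Finset.subset_univ _)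
            intro ω _ _
            rw [hX]
            apply Finset.sum_nonneg
            intro h hh
            apply Finset.sum_nonneg
            intro h' _
            have := hc h hh
            positivity
    have e7 := e6.trans e1
    have e8 : (B2.card : ℝ) * (μ / 4) ≤ ((Fintype.card Ω : ℝ) * (4 * (p * mx))) * (μ / 4) := by
      calc _ ≤ _ := e7
        _ = _ := by ring
    exact le_of_mul_le_mul_right e8 (by positivity)
  have b3 : (B3.card : ℝ) ≤ (Fintype.card Ω : ℝ) * (p * S.card / l) := by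
    have e1 : ∑ ω : Ω, (Y ω : ℝ) = p * S.card * (Fintype.card Ω : ℝ) := by
      have e2 : ∀ ω : Ω, (Y ω : ℝ) = ∑ h ∈ S, (if E h ω then (1 : ℝ) else 0) := by
        intro ω
        rw [hY, Finset.sum_boole]
      rw [Finset.sum_congr rfl fun ω _ => e2 ω, Finset.sum_comm]
      have e3 : ∀ h ∈ S, ∑ ω : Ω, (if E h ω then (1 : ℝ) else 0) = p * (Fintype.card Ω : ℝ) := by
        intro h hh
        rw [Finset.sum_boole, h1 h hh]
      rw [Finset.sum_congr rfl e3, Finset.sum_const, nsmul_eq_mul]; ring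
    have e6 : (B3.card : ℝ) * l ≤ ∑ ω : Ω, (Y ω : ℝ) := by
      calc (B3.card : ℝ) * l = ∑ ω ∈ B3, (l : ℝ) := by rw [Finset.sum_const, nsmul_eq_mul]
        _ ≤ ∑ ω ∈ B3, (Y ω : ℝ) := by
            apply Finset.sum_le_sum
            intro ω hω
            rw [hB3, Finset.mem_filter] at hω
            exact_mod_cast hω.2.le
        _ ≤ _ := by
            apply Finset.sum_le_sum_of_subset_of_nonneg (Finset.subset_univ _)
            intro ω _ _
            positivity
    have hl' : (0 : ℝ) < l := by exact_mod_cast hl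
    rw [← mul_div_assoc, le_div_iff₀ hl']
    linarith
  have hsub : (univ.filter fun ω : Ω => ¬ ∃ T ⊆ S, (∀ h ∈ T, E h ω) ∧ Set.InjOn a (T : Set H) ∧ T.card ≤ l ∧
      μ / 4 ≤ ∑ h ∈ T, c h) ⊆ B1 ∪ B2 ∪ B3 := by
    intro ω hω
    rw [Finset.mem_filter] at hω
    by_contra hnot
    rw [Finset.mem_union, Finset.mem_union] at hnot
    push Not at hnot
    obtain ⟨⟨n1, n2⟩, n3⟩ := hnot
    rw [hB1, Finset.mem_filter] at n1
    rw [hB2, Finset.mem_filter] at n2
    rw [hB3, Finset.mem_filter] at n3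
    have m1 : μ / 2 ≤ W ω := not_lt.mp fun h => n1 ⟨Finset.mem_univ _, h⟩
    have m2 : X ω ≤ μ / 4 := not_lt.mp fun h => n2 ⟨Finset.mem_univ _, h⟩
    have m3 : Y ω ≤ l := not_lt.mp fun h => n3 ⟨Finset.mem_univ _, h⟩
    apply hω.2
    refine ⟨S.filter fun h => E h ω ∧ ∀ h' ∈ S, h' ≠ h → a h' = a h → ¬ E h' ω,
      Finset.filter_subset _ _, ?_, ?_, ?_, ?_⟩
    · intro h hh
      rw [Finset.mem_filter] at hh
      exact hh.2.1
    · intro h hh h' hh' haa
      rw [Finset.mem_coe, Finset.mem_filter] at hh hh'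
      by_contra hne
      exact hh.2.2 h' hh'.1 (Ne.symm hne) haa.symm hh'.2.1
    · refine le_trans ?_ m3
      rw [hY]
      apply Finset.card_le_card
      intro h hh
      rw [Finset.mem_filter] at hh ⊢
      exact ⟨hh.1, hh.2.1⟩
    · have e1 : W ω ≤ X ω + ∑ h ∈ S.filter (fun h => E h ω ∧ ∀ h' ∈ S, h' ≠ h → a h' = a h → ¬ E h' ω), c h := by
        rw [Finset.sum_filter, hW, hX, ← Finset.sum_add_distrib]
        apply Finset.sum_le_sum
        intro h hh
        have hch := hc h hh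
        have hXn : 0 ≤ ∑ h' ∈ S.filter (fun h' => a h' = a h ∧ h' ≠ h),
            c h * (if E h ω ∧ E h' ω then (1 : ℝ) else 0) := by
          apply Finset.sum_nonneg
          intro h' _
          positivity
        by_cases hE : E h ω
        · rw [if_pos hE]
          by_cases hall : ∀ h' ∈ S, h' ≠ h → a h' = a h → ¬ E h' ω
          · rw [if_pos ⟨hE, hall⟩]; linarith
          · rw [if_neg (fun hx => hall hx.2), add_zero]
            push Not at hall
            obtain ⟨h', k1, k2, k3, k4⟩ := hall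
            calc c h = c h * (if E h ω ∧ E h' ω then (1 : ℝ) else 0) := by
                  rw [if_pos ⟨hE, k4⟩, mul_one]
              _ ≤ _ := Finset.single_le_sum (f := fun h' => c h * (if E h ω ∧ E h' ω then (1 : ℝ) else 0))
                  (fun h' _ => by positivity)
                  (by rw [Finset.mem_filter]; exact ⟨k1, k3, k2⟩)
        · rw [if_neg hE, if_neg (fun hx => hE hx.1)]
          linarith
      linarith
  have hfin : ((univ.filter fun ω : Ω => ¬ ∃ T ⊆ S, (∀ h ∈ T, E h ω) ∧ Set.InjOn a (T : Set H) ∧ T.card ≤ l ∧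
      μ / 4 ≤ ∑ h ∈ T, c h).card : ℝ) ≤ (B1.card : ℝ) + B2.card + B3.card := by
    have e1 := Finset.card_le_card hsub
    have e2 := Finset.card_union_le (B1 ∪ B2) B3
    have e3 := Finset.card_union_le B1 B2
    have e4 := e1.trans (e2.trans (Nat.add_le_add_right e3 _))
    exact_mod_cast e4
  refine le_trans (le_of_eq ?_) (hfin.trans ?_)
  · congr 2
    apply Finset.filter_congr_decidable
  · rw [mul_add, mul_add]
    linarith
end

end Pool.N672.DN
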