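import Pool.Agent.N672.DN.Bes
import Pool.Agent.N672.DN.Cnt
import Pool.Agent.N672.DN.Sel

open Finset

namespace Pool.N672.DN

variable {q : ℕ} [Fact q.Prime]

/-- for every digital shift the local discrepancy reaches at least `v` -/
def Good {d m : ℕ} (C : Fin d → Matrix (Fin m) (Fin m) (ZMod q)) (v : ℝ) : Prop :=
  ∀ (s : Fin d → Fin m → ZMod q) (M : ℝ), (∀ x, |Dl C s x| ≤ M) → v ≤ M

theorem exK (e L m : ℕ) (h3 : 2 * L ≤ m) (w : ℕ) (h1 : 2 * e * L + 1 ≤ w) (h2 : w ≤ m + e * (L + 1))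
    (u : Fin e → Fin L) : ∃ k : Fin (e + 1) → Fin m, (∀ i : Fin e, (k i.succ : ℕ) = L + u i) ∧
      ∑ i, ((k i : ℕ) + 1) = w := by
  have hu1 : ∑ i : Fin e, (L + (u i : ℕ) + 1) ≤ 2 * e * L := by
    calc _ ≤ ∑ i : Fin e, (2 * L) := Finset.sum_le_sum fun i _ => by have := (u i).isLt; omega
      _ = 2 * e * L := by simp; ring
  have hu2 : e * (L + 1) ≤ ∑ i : Fin e, (L + (u i : ℕ) + 1) := by
    calc e * (L + 1) = ∑ i : Fin e, (L + 1) := by simp
      _ ≤ _ := Finset.sum_le_sum fun i _ => by omega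
  set s := ∑ i : Fin e, (L + (u i : ℕ) + 1) with hs
  refine ⟨Fin.cons ⟨w - 1 - s, by omega⟩ (fun i => ⟨L + u i, by have := (u i).isLt; omega⟩), ?_, ?_⟩
  · intro i
    rw [Fin.cons_succ]
  · rw [Fin.sum_univ_succ]
    simp only [Fin.cons_zero, Fin.cons_succ]
    rw [← hs]
    omega

theorem geo_down (hq : 2 ≤ q) (a b : ℕ) (hab : a ≤ b) :
    ∑ t ∈ Ico a b, 1 / (q : ℝ) ^ t ≤ 2 / (q : ℝ) ^ a - 2 / (q : ℝ) ^ b := by
  have hq' : (2 : ℝ) ≤ q := by exact_mod_cast hq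
  induction b, hab using Nat.le_induction with
  | base => simp
  | succ b hb ih =>
    rw [Finset.sum_Ico_succ_top hb]
    have : 1 / (q : ℝ) ^ b ≤ 2 / (q : ℝ) ^ b - 2 / (q : ℝ) ^ (b + 1) := by
      have h1 : 2 / (q : ℝ) ^ (b + 1) ≤ 1 / (q : ℝ) ^ b := by
        rw [div_le_div_iff₀ (by positivity) (by positivity), pow_succ]
        have : (0 : ℝ) < (q : ℝ) ^ b := by positivity
        nlinarith
      have h2 : 2 / (q : ℝ) ^ b = 1 / (q : ℝ) ^ b + 1 / (q : ℝ) ^ b := by ring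
      linarith
    linarith

theorem geo_up (hq : 2 ≤ q) (a b : ℕ) (hab : a ≤ b) :
    ∑ t ∈ Ico a b, (q : ℝ) ^ t ≤ (q : ℝ) ^ b - (q : ℝ) ^ a := by
  have hq' : (2 : ℝ) ≤ q := by exact_mod_cast hq
  induction b, hab using Nat.le_induction with
  | base => simp
  | succ b hb ih =>
    rw [Finset.sum_Ico_succ_top hb]
    have h1 : (0 : ℝ) < (q : ℝ) ^ b := by positivity
    have : (q : ℝ) ^ b ≤ (q : ℝ) ^ (b + 1) - (q : ℝ) ^ b := by
      rw [pow_succ]; nlinarith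
    linarith

theorem card_fix (f L c : ℕ) :
    (univ.filter fun u : Fin (f + 1) → Fin L => ∑ i, (u i : ℕ) = c).card ≤ L ^ f := by
  have h1 : (univ.filter fun u : Fin (f + 1) → Fin L => ∑ i, (u i : ℕ) = c).card ≤
      (univ : Finset (Fin f → Fin L)).card := by
    apply Finset.card_le_card_of_injOn (fun u => Fin.tail u) (fun _ _ => Finset.mem_univ _)
    intro u hu u' hu' huu
    rw [Finset.mem_coe, Finset.mem_filter] at hu hu'
    have e1 := hu.2
    have e2 := hu'.2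
    rw [Fin.sum_univ_succ] at e1 e2
    have e3 : ∀ i : Fin f, u i.succ = u' i.succ := fun i => congrFun huu i
    have e4 : ∑ i : Fin f, (u i.succ : ℕ) = ∑ i : Fin f, (u' i.succ : ℕ) :=
      Finset.sum_congr rfl fun i _ => by rw [e3 i]
    funext i
    refine Fin.cases ?_ e3 i
    apply Fin.ext
    omega
  refine h1.trans (le_of_eq ?_)
  rw [Finset.card_univ, Fintype.card_fun, Fintype.card_fin, Fintype.card_fin]

theorem ev_one {d m : ℕ} (hd : 0 < d) {k : Fin d → Fin m} {h : Fin d → Fin m → ZMod q} (hh : h ∈ HH k)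
    [DecidablePred fun C : Fin d → Matrix (Fin m) (Fin m) (ZMod q) => h ∈ K C] :
    ((univ.filter fun C : Fin d → Matrix (Fin m) (Fin m) (ZMod q) => h ∈ K C).card : ℝ) =
      1 / (q : ℝ) ^ m * (Fintype.card (Fin d → Matrix (Fin m) (Fin m) (ZMod q)) : ℝ) := by
  have h1 := count_one h (HH_ne hd hh)
  have hq : (0 : ℝ) < (q : ℝ) ^ m := by
    have : (0 : ℝ) < q := by exact_mod_cast (Fact.out : q.Prime).pos
    positivity
  rw [card_MM]
  push_cast
  rw [← h1]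
  field_simp

theorem ev_two {d m : ℕ} (hd : 0 < d) {k k' : Fin d → Fin m} {h h' : Fin d → Fin m → ZMod q}
    (hh : h ∈ HH k) (hh' : h' ∈ HH k') (hne : h ≠ h')
    [DecidablePred fun C : Fin d → Matrix (Fin m) (Fin m) (ZMod q) => h ∈ K C ∧ h' ∈ K C] :
    ((univ.filter fun C : Fin d → Matrix (Fin m) (Fin m) (ZMod q) => h ∈ K C ∧ h' ∈ K C).card : ℝ) =
      (1 / (q : ℝ) ^ m) ^ 2 * (Fintype.card (Fin d → Matrix (Fin m) (Fin m) (ZMod q)) : ℝ) := by
  have h1 := count_two h h' (HH_ind hd hh hh' hne)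
  have hq : (0 : ℝ) < (q : ℝ) ^ m := by
    have : (0 : ℝ) < q := by exact_mod_cast (Fact.out : q.Prime).pos
    positivity
  rw [card_MM]
  push_cast
  rw [← h1]
  field_simp

theorem regI {f m L T0 T1 l : ℕ} (hL : 0 < L) (hT : T0 < T1) (hl : 0 < l) (hm1 : 2 * L ≤ m)
    (hm2 : T1 + 2 * (f + 1) * L + 1 ≤ m)
    [DecidablePred fun C : Fin (f + 2) → Matrix (Fin m) (Fin m) (ZMod q) =>
      ¬ Good C ((1 / 2 : ℝ) ^ (f + 2) * ((L : ℝ) ^ (f + 1) * ((T1 : ℝ) - T0) / (q : ℝ) ^ (f + 2) / 4))] :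
    ((univ.filter fun C : Fin (f + 2) → Matrix (Fin m) (Fin m) (ZMod q) =>
      ¬ Good C ((1 / 2 : ℝ) ^ (f + 2) * ((L : ℝ) ^ (f + 1) * ((T1 : ℝ) - T0) / (q : ℝ) ^ (f + 2) / 4))).card : ℝ) ≤
      (q : ℝ) ^ ((f + 2) * m ^ 2) * (4 * ((q : ℝ) ^ T1 * (q : ℝ) ^ (f + 2)) / ((L : ℝ) ^ (f + 1) * ((T1 : ℝ) - T0) ^ 2) +
        8 * (L : ℝ) ^ f / (q : ℝ) ^ T0 + 2 * (L : ℝ) ^ (f + 1) / (q : ℝ) ^ T0 / l +
        (((f + 2) * m * q : ℕ) : ℝ) ^ ((l + 1) * (f + 2)) / (q : ℝ) ^ m) := by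
  classical
  have hq2 : 2 ≤ q := (Fact.out : q.Prime).two_le
  have hqr : (2 : ℝ) ≤ q := by exact_mod_cast hq2
  have hq0 : (0 : ℝ) < q := by linarith
  have hm0 : 0 < m := by omega
  have hLr : (0 : ℝ) < L := by exact_mod_cast hL
  have hTr : (0 : ℝ) < (T1 : ℝ) - T0 := by
    have : (T0 : ℝ) < T1 := by exact_mod_cast hT
    linarith
  have : Nonempty (Fin m) := ⟨⟨0, hm0⟩⟩
  have hk : ∀ (t : ℕ) (u : Fin (f + 1) → Fin L), t < T1 → ∃ k : Fin (f + 2) → Fin m,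
      (∀ i : Fin (f + 1), (k i.succ : ℕ) = L + u i) ∧ ∑ i, ((k i : ℕ) + 1) = m - t := by
    intro t u ht
    apply exK (f + 1) L m hm1 (m - t) _ _ u
    · omega
    · omega
  choose! kf hkf1 hkf2 using hk
  set S : Finset ((_ : ℕ × (Fin (f + 1) → Fin L)) × (Fin (f + 2) → Fin m → ZMod q)) :=
    (Ico T0 T1 ×ˢ univ).sigma (fun p => HH (kf p.1 p.2)) with hS
  set E : ((_ : ℕ × (Fin (f + 1) → Fin L)) × (Fin (f + 2) → Fin m → ZMod q)) →
    (Fin (f + 2) → Matrix (Fin m) (Fin m) (ZMod q)) → Prop := fun x C => x.2 ∈ K C with hE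
  set c : ((_ : ℕ × (Fin (f + 1) → Fin L)) × (Fin (f + 2) → Fin m → ZMod q)) → ℝ :=
    fun x => (q : ℝ) ^ x.1.1 with hc
  set p : ℝ := 1 / (q : ℝ) ^ m with hp
  have hp0 : 0 < p := by positivity
  have memS : ∀ x ∈ S, x.1.1 < T1 ∧ T0 ≤ x.1.1 ∧ x.2 ∈ HH (kf x.1.1 x.1.2) := by
    intro x hx
    rw [hS, Finset.mem_sigma, Finset.mem_product, Finset.mem_Ico] at hx
    exact ⟨hx.1.1.2, hx.1.1.1, hx.2⟩
  have hkinj : ∀ t u t' u', t < T1 → t' < T1 → kf t u = kf t' u' → t = t' ∧ u = u' := by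
    intro t u t' u' ht ht' hkk
    constructor
    · have e1 := hkf2 t u ht
      have e2 := hkf2 t' u' ht'
      rw [hkk, e2] at e1
      omega
    · funext i
      have e1 := hkf1 t u ht i
      have e2 := hkf1 t' u' ht' i
      rw [hkk, e2] at e1
      apply Fin.ext
      omega
  have hsum : ∀ φ : ℕ → ℝ, p * ∑ x ∈ S, φ x.1.1 =
      (L : ℝ) ^ (f + 1) / (q : ℝ) ^ (f + 2) * ∑ t ∈ Ico T0 T1, φ t * (1 / (q : ℝ) ^ t) := by
    intro φ
    rw [hS, Finset.sum_sigma, Finset.sum_product, Finset.mul_sum, Finset.mul_sum]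
    apply Finset.sum_congr rfl
    intro t ht
    rw [Finset.mem_Ico] at ht
    have e1 : ∀ u : Fin (f + 1) → Fin L, ∑ x ∈ (HH (kf t u) : Finset (Fin (f + 2) → Fin m → ZMod q)), φ t =
        (q : ℝ) ^ m / ((q : ℝ) ^ t * (q : ℝ) ^ (f + 2)) * φ t := by
      intro u
      rw [Finset.sum_const, card_HH, nsmul_eq_mul]
      congr 1
      rw [eq_div_iff (by positivity)]
      push_cast
      rw [← pow_add, ← pow_add]
      congr 1
      have e2 := hkf2 t u ht.2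
      rw [Finset.sum_add_distrib] at e2
      simp at e2
      omega
    rw [Finset.sum_congr rfl fun u _ => e1 u, Finset.sum_const, Finset.card_univ, Fintype.card_fun,
      Fintype.card_fin, Fintype.card_fin, nsmul_eq_mul, hp]
    push_cast
    field_simp
  have hs1 : p * ∑ x ∈ S, c x = (L : ℝ) ^ (f + 1) * ((T1 : ℝ) - T0) / (q : ℝ) ^ (f + 2) := by
    have := hsum (fun t => (q : ℝ) ^ t)
    simp only [hc]
    rw [this]
    have e1 : ∀ t ∈ Ico T0 T1, (q : ℝ) ^ t * (1 / (q : ℝ) ^ t) = 1 := by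
      intro t _; field_simp
    rw [Finset.sum_congr rfl e1, Finset.sum_const, Nat.card_Ico, nsmul_eq_mul, mul_one,
      Nat.cast_sub hT.le]
    ring
  have hs2 : p * ∑ x ∈ S, c x ^ 2 ≤ (L : ℝ) ^ (f + 1) / (q : ℝ) ^ (f + 2) * (q : ℝ) ^ T1 := by
    have := hsum (fun t => ((q : ℝ) ^ t) ^ 2)
    simp only [hc]
    rw [this]
    apply mul_le_mul_of_nonneg_left _ (by positivity)
    have e1 : ∀ t ∈ Ico T0 T1, ((q : ℝ) ^ t) ^ 2 * (1 / (q : ℝ) ^ t) = (q : ℝ) ^ t := by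
      intro t _; field_simp
    rw [Finset.sum_congr rfl e1]
    have := geo_up hq2 T0 T1 hT.le
    have h2 : (0 : ℝ) < (q : ℝ) ^ T0 := by positivity
    linarith
  have hs3 : p * (S.card : ℝ) ≤ (L : ℝ) ^ (f + 1) * (2 / (q : ℝ) ^ T0) := by
    have := hsum (fun t => 1)
    have e0 : ∑ x ∈ S, (1 : ℝ) = S.card := by simp
    rw [e0] at this
    rw [this]
    have e1 : ∀ t ∈ Ico T0 T1, (1 : ℝ) * (1 / (q : ℝ) ^ t) = 1 / (q : ℝ) ^ t := by
      intro t _; rw [one_mul]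
    rw [Finset.sum_congr rfl e1]
    have h1 := geo_down hq2 T0 T1 hT.le
    have h2 : (0 : ℝ) < 2 / (q : ℝ) ^ T1 := by positivity
    have h3 : (L : ℝ) ^ (f + 1) / (q : ℝ) ^ (f + 2) ≤ (L : ℝ) ^ (f + 1) := by
      apply div_le_self (by positivity)
      exact one_le_pow₀ (by linarith)
    apply mul_le_mul h3 (by linarith) (Finset.sum_nonneg fun t _ => by positivity) (by positivity)
  -- labels
  set a : ((_ : ℕ × (Fin (f + 1) → Fin L)) × (Fin (f + 2) → Fin m → ZMod q)) → Fin m :=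
    fun x => kf x.1.1 x.1.2 0 with ha
  have hmx : ∀ x ∈ S, ((S.filter fun x' => a x' = a x).card : ℝ) ≤
      (q : ℝ) ^ m * ((L : ℝ) ^ f * (2 / (q : ℝ) ^ T0)) := by
    intro x hx
    have e1 : (S.filter fun x' => a x' = a x) =
        (((Ico T0 T1) ×ˢ (univ : Finset (Fin (f + 1) → Fin L))).filter
          (fun p => kf p.1 p.2 0 = a x)).sigma (fun p => HH (kf p.1 p.2)) := by
      ext y
      rw [Finset.mem_filter, hS, Finset.mem_sigma, Finset.mem_sigma, Finset.mem_filter]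
      constructor
      · rintro ⟨⟨h1, h2⟩, h3⟩; exact ⟨⟨h1, h3⟩, h2⟩
      · rintro ⟨⟨h1, h3⟩, h2⟩; exact ⟨⟨h1, h2⟩, h3⟩
    rw [e1, Finset.card_sigma, Finset.sum_filter, Finset.sum_product]
    push_cast
    have e2 : ∀ t ∈ Ico T0 T1, (∑ u : Fin (f + 1) → Fin L,
        (if kf t u 0 = a x then (((HH (kf t u) : Finset (Fin (f + 2) → Fin m → ZMod q)).card : ℕ) : ℝ) else 0)) ≤
        (q : ℝ) ^ m * ((L : ℝ) ^ f * (1 / (q : ℝ) ^ t)) := by
      intro t ht
      rw [Finset.mem_Ico] at ht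
      have e3 : ∀ u : Fin (f + 1) → Fin L,
        (if kf t u 0 = a x then (((HH (kf t u) : Finset (Fin (f + 2) → Fin m → ZMod q)).card : ℕ) : ℝ) else 0) ≤
        (q : ℝ) ^ m * (1 / (q : ℝ) ^ t) * (if ∑ i, (u i : ℕ) = m - t - ((a x : ℕ) + 1) - (f + 1) * (L + 1)
          then 1 else 0) := by
        intro u
        by_cases h0 : kf t u 0 = a x
        · have e4 := hkf2 t u ht.2
          have e5 : ∑ i : Fin (f + 1), (((kf t u i.succ : ℕ)) + 1) = ∑ i, (u i : ℕ) + (f + 1) * (L + 1) := by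
            rw [Finset.sum_congr rfl fun i _ => by rw [hkf1 t u ht.2 i]]
            have : ∀ i : Fin (f + 1), L + (u i : ℕ) + 1 = (u i : ℕ) + (L + 1) := by intro i; ring
            rw [Finset.sum_congr rfl fun i _ => this i, Finset.sum_add_distrib]
            simp
          have e6 := e4
          rw [Fin.sum_univ_succ, e5, h0] at e6
          rw [if_pos h0, if_pos (by omega), mul_one, card_HH]
          push_cast
          rw [mul_one_div, le_div_iff₀ (by positivity), ← pow_add]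
          apply pow_le_pow_right₀ (by linarith)
          rw [Finset.sum_add_distrib] at e4
          simp at e4
          omega
        · rw [if_neg h0]
          split_ifs <;> positivity
      refine (Finset.sum_le_sum fun u _ => e3 u).trans ?_
      rw [← Finset.mul_sum, Finset.sum_boole]
      have e7 := card_fix f L (m - t - ((a x : ℕ) + 1) - (f + 1) * (L + 1))
      have e8 : ((univ.filter fun u : Fin (f + 1) → Fin L =>
        ∑ i, (u i : ℕ) = m - t - ((a x : ℕ) + 1) - (f + 1) * (L + 1)).card : ℝ) ≤ (L : ℝ) ^ f := by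
        exact_mod_cast e7
      calc _ ≤ (q : ℝ) ^ m * (1 / (q : ℝ) ^ t) * (L : ℝ) ^ f := mul_le_mul_of_nonneg_left e8 (by positivity)
        _ = _ := by ring
    refine (Finset.sum_le_sum e2).trans ?_
    rw [← Finset.mul_sum, ← Finset.mul_sum]
    apply mul_le_mul_of_nonneg_left _ (by positivity)
    apply mul_le_mul_of_nonneg_left _ (by positivity)
    have h1 := geo_down hq2 T0 T1 hT.le
    have h2 : (0 : ℝ) < 2 / (q : ℝ) ^ T1 := by positivity
    linarith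
  have hpos : 0 < ∑ x ∈ S, c x := by
    have h1 : 0 < p * ∑ x ∈ S, c x := by rw [hs1]; positivity
    exact (pos_iff_pos_of_mul_pos h1).mp hp0
  have hev1 : ∀ x ∈ S, ((univ.filter (E x)).card : ℝ) =
      p * (Fintype.card (Fin (f + 2) → Matrix (Fin m) (Fin m) (ZMod q)) : ℝ) := by
    intro x hx
    exact ev_one (Nat.succ_pos _) (memS x hx).2.2
  have hev2 : ∀ x ∈ S, ∀ x' ∈ S, x ≠ x' → ((univ.filter fun C => E x C ∧ E x' C).card : ℝ) =
      p ^ 2 * (Fintype.card (Fin (f + 2) → Matrix (Fin m) (Fin m) (ZMod q)) : ℝ) := by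
    intro x hx x' hx' hne
    apply ev_two (Nat.succ_pos _) (memS x hx).2.2 (memS x' hx').2.2
    intro h2
    apply hne
    have h3 := (memS x' hx').2.2
    rw [← h2] at h3
    have h4 := HH_k (memS x hx).2.2 h3
    obtain ⟨h5, h6⟩ := hkinj _ _ _ _ (memS x hx).1 (memS x' hx').1 h4
    have h7 : x.1 = x'.1 := Prod.ext h5 h6
    exact Sigma.ext h7 (heq_of_eq h2)
  have hsel := sel S E p c a ((q : ℝ) ^ m * ((L : ℝ) ^ f * (2 / (q : ℝ) ^ T0))) l hl hp0
    (fun x _ => by simp only [hc]; positivity) hpos hev1 hev2 hmx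
  have hns := card_NS (q := q) (d := f + 2) (m := m) (Nat.succ_pos _) hm0 ((l + 1) * (f + 2))
  rw [hs1] at hsel
  set v : ℝ := (1 / 2 : ℝ) ^ (f + 2) * ((L : ℝ) ^ (f + 1) * ((T1 : ℝ) - T0) / (q : ℝ) ^ (f + 2) / 4) with hv
  set B1 := (univ.filter fun C : Fin (f + 2) → Matrix (Fin m) (Fin m) (ZMod q) =>
    ¬ ∃ T ⊆ S, (∀ x ∈ T, E x C) ∧ Set.InjOn a (T : Set _) ∧ T.card ≤ l ∧
      ((L : ℝ) ^ (f + 1) * ((T1 : ℝ) - T0) / (q : ℝ) ^ (f + 2)) / 4 ≤ ∑ x ∈ T, c x) with hB1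
  set B2 := (univ.filter fun C : Fin (f + 2) → Matrix (Fin m) (Fin m) (ZMod q) =>
      ∃ v ∈ K C, v ≠ 0 ∧ wt v ≤ (l + 1) * (f + 2)) with hB2
  have hsub : (univ.filter fun C : Fin (f + 2) → Matrix (Fin m) (Fin m) (ZMod q) => ¬ Good C v) ⊆ B1 ∪ B2 := by
    intro C hC
    rw [Finset.mem_filter] at hC
    by_contra hnot
    rw [Finset.mem_union] at hnot
    push Not at hnot
    obtain ⟨n1, n2⟩ := hnot
    rw [hB1, Finset.mem_filter] at n1
    rw [hB2, Finset.mem_filter] at n2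
    push Not at n1 n2
    obtain ⟨T, hTS, t1, t2, t3, t4⟩ := n1 (Finset.mem_univ _)
    have n2' := n2 (Finset.mem_univ _)
    apply hC.2
    intro s M hM
    have hr := riesz (C := C) s (fun x : {x // x ∈ T} => x.1.2) (fun x => kf x.1.1.1 x.1.1.2) 0
      (by
        intro x y hxy
        exact Subtype.ext (t2 x.2 y.2 hxy))
      (fun x i => top_HH (memS x.1 (hTS x.2)).2.2 i)
      (fun x => t1 x.1 x.2)
      (by
        intro w hw hw0
        have h1 := n2' w hw hw0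
        refine lt_of_le_of_lt ?_ h1
        rw [Fintype.card_coe]
        calc f + 2 + T.card * (f + 2) ≤ f + 2 + l * (f + 2) := by
              have := Nat.mul_le_mul_right (f + 2) t3
              omega
          _ = (l + 1) * (f + 2) := by ring)
      M hM
    have hr2 : ∑ x : {x // x ∈ T}, (1 / 2 : ℝ) ^ (f + 2) *
        ((q : ℝ) ^ m / (q : ℝ) ^ (∑ i, ((kf x.1.1.1 x.1.1.2 i : ℕ) + 1))) =
        (1 / 2 : ℝ) ^ (f + 2) * ∑ x ∈ T, c x := by
      rw [← Finset.mul_sum, ← Finset.sum_coe_sort T]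
      congr 1
      apply Finset.sum_congr rfl
      intro x _
      simp only [hc]
      have h1 := (memS x.1 (hTS x.2)).1
      rw [hkf2 _ _ h1, div_eq_iff (by positivity), ← pow_add]
      congr 1
      omega
    rw [hr2] at hr
    refine le_trans ?_ hr
    rw [hv]
    exact mul_le_mul_of_nonneg_left t4 (by positivity)
  have hcard : ((univ.filter fun C : Fin (f + 2) → Matrix (Fin m) (Fin m) (ZMod q) => ¬ Good C v).card : ℝ) ≤
      B1.card + B2.card := by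
    have e1 := (Finset.card_le_card hsub).trans (Finset.card_union_le B1 B2)
    exact_mod_cast e1
  have hcM : (Fintype.card (Fin (f + 2) → Matrix (Fin m) (Fin m) (ZMod q)) : ℝ) =
      (q : ℝ) ^ ((f + 2) * m ^ 2) := by rw [card_MM]; push_cast; rfl
  have hb2 : (B2.card : ℝ) ≤ (q : ℝ) ^ ((f + 2) * m ^ 2) *
      ((((f + 2) * m * q : ℕ) : ℝ) ^ ((l + 1) * (f + 2)) / (q : ℝ) ^ m) := by
    rw [← mul_div_assoc, le_div_iff₀ (by positivity)]
    rw [mul_comm ((q : ℝ) ^ ((f + 2) * m ^ 2))]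
    exact hns
  have hb1 : (B1.card : ℝ) ≤ (q : ℝ) ^ ((f + 2) * m ^ 2) *
      (4 * ((q : ℝ) ^ T1 * (q : ℝ) ^ (f + 2)) / ((L : ℝ) ^ (f + 1) * ((T1 : ℝ) - T0) ^ 2) +
        8 * (L : ℝ) ^ f / (q : ℝ) ^ T0 + 2 * (L : ℝ) ^ (f + 1) / (q : ℝ) ^ T0 / l) := by
    rw [hcM] at hsel
    refine hsel.trans ?_
    apply mul_le_mul_of_nonneg_left _ (by positivity)
    have k1 : 4 * (p * ∑ x ∈ S, c x ^ 2) / ((L : ℝ) ^ (f + 1) * ((T1 : ℝ) - T0) / (q : ℝ) ^ (f + 2)) ^ 2 ≤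
        4 * ((q : ℝ) ^ T1 * (q : ℝ) ^ (f + 2)) / ((L : ℝ) ^ (f + 1) * ((T1 : ℝ) - T0) ^ 2) := by
      calc _ ≤ 4 * ((L : ℝ) ^ (f + 1) / (q : ℝ) ^ (f + 2) * (q : ℝ) ^ T1) /
            ((L : ℝ) ^ (f + 1) * ((T1 : ℝ) - T0) / (q : ℝ) ^ (f + 2)) ^ 2 := by
            apply div_le_div_of_nonneg_right _ (by positivity)
            linarith
        _ = _ := by
            have h1 : (q : ℝ) ^ (f + 2) ≠ 0 := by positivity
            have h2 : (L : ℝ) ^ (f + 1) ≠ 0 := by positivity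
            have h3 : ((T1 : ℝ) - T0) ≠ 0 := hTr.ne'
            field_simp
    have k2 : 4 * (p * ((q : ℝ) ^ m * ((L : ℝ) ^ f * (2 / (q : ℝ) ^ T0)))) = 8 * (L : ℝ) ^ f / (q : ℝ) ^ T0 := by
      rw [hp]; field_simp; ring
    have k3 : p * (S.card : ℝ) / l ≤ 2 * (L : ℝ) ^ (f + 1) / (q : ℝ) ^ T0 / l := by
      apply div_le_div_of_nonneg_right _ (by positivity)
      refine hs3.trans (le_of_eq ?_)
      ring
    rw [k2]
    linarith
  refine le_trans (le_of_eq ?_) (hcard.trans ?_)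
  · congr 2
    apply Finset.filter_congr_decidable
  · rw [mul_add]
    linarith

end Pool.N672.DN
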