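import Pool.Agent.N672.DN.Reg

open Finset

namespace Pool.N672.DN

variable {q : ℕ} [Fact q.Prime]

theorem regII {f m L w : ℕ} (hL : 0 < L) (hm1 : 2 * L ≤ m) (hw1 : 2 * (f + 1) * L + 1 ≤ w)
    (hw2 : w ≤ m + (f + 1) * (L + 1)) (μ v : ℝ)
    (hμ : μ = (L : ℝ) ^ (f + 1) * (q : ℝ) ^ w / ((q : ℝ) ^ m * (q : ℝ) ^ (f + 2)))
    (hv : v ^ 2 ≤ μ / 2 * ((1 / 2 : ℝ) ^ (f + 2) * ((q : ℝ) ^ m / (q : ℝ) ^ w)) ^ 2)
    [DecidablePred fun C : Fin (f + 2) → Matrix (Fin m) (Fin m) (ZMod q) => ¬ Good C v] :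
    ((univ.filter fun C : Fin (f + 2) → Matrix (Fin m) (Fin m) (ZMod q) => ¬ Good C v).card : ℝ) ≤
      (q : ℝ) ^ ((f + 2) * m ^ 2) * (4 / μ +
        (((f + 2) * m * q : ℕ) : ℝ) ^ (2 * (f + 2)) / (q : ℝ) ^ m) := by
  classical
  have hq2 : 2 ≤ q := (Fact.out : q.Prime).two_le
  have hqr : (2 : ℝ) ≤ q := by exact_mod_cast hq2
  have hq0 : (0 : ℝ) < q := by linarith
  have hm0 : 0 < m := by omega
  have hLr : (0 : ℝ) < L := by exact_mod_cast hL
  have hμ0 : 0 < μ := by rw [hμ]; positivity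
  have hk : ∀ (u : Fin (f + 1) → Fin L), ∃ k : Fin (f + 2) → Fin m,
      (∀ i : Fin (f + 1), (k i.succ : ℕ) = L + u i) ∧ ∑ i, ((k i : ℕ) + 1) = w :=
    fun u => exK (f + 1) L m hm1 w hw1 hw2 u
  choose kf hkf1 hkf2 using hk
  set S : Finset ((_ : (Fin (f + 1) → Fin L)) × (Fin (f + 2) → Fin m → ZMod q)) :=
    (univ : Finset (Fin (f + 1) → Fin L)).sigma (fun p => HH (kf p)) with hS
  set E : ((_ : (Fin (f + 1) → Fin L)) × (Fin (f + 2) → Fin m → ZMod q)) →
    (Fin (f + 2) → Matrix (Fin m) (Fin m) (ZMod q)) → Prop := fun x C => x.2 ∈ K C with hE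
  set p : ℝ := 1 / (q : ℝ) ^ m with hp
  have hp0 : 0 < p := by positivity
  have memS : ∀ x ∈ S, x.2 ∈ HH (kf x.1) := by
    intro x hx
    rw [hS, Finset.mem_sigma] at hx
    exact hx.2
  have hkinj : ∀ u u', kf u = kf u' → u = u' := by
    intro u u' hkk
    funext i
    have e1 := hkf1 u i
    have e2 := hkf1 u' i
    rw [hkk, e2] at e1
    apply Fin.ext
    omega
  have hSinj : ∀ x ∈ S, ∀ x' ∈ S, x.2 = x'.2 → x = x' := by
    intro x hx x' hx' h2
    have h3 := memS x' hx'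
    rw [← h2] at h3
    have h4 := HH_k (memS x hx) h3
    have h7 : x.1 = x'.1 := hkinj _ _ h4
    exact Sigma.ext h7 (heq_of_eq h2)
  have hsum : p * ∑ x ∈ S, (1 : ℝ) = μ := by
    rw [hS, Finset.sum_sigma]
    have e1 : ∀ u : Fin (f + 1) → Fin L, ∑ x ∈ (HH (kf u) : Finset (Fin (f + 2) → Fin m → ZMod q)), (1 : ℝ) =
        (q : ℝ) ^ w / ((q : ℝ) ^ (f + 2)) := by
      intro u
      rw [Finset.sum_const, card_HH, nsmul_eq_mul, mul_one]
      rw [eq_div_iff (by positivity)]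
      push_cast
      rw [← pow_add]
      congr 1
      have e2 := hkf2 u
      rw [Finset.sum_add_distrib] at e2
      simp at e2
      omega
    rw [Finset.sum_congr rfl fun u _ => e1 u, Finset.sum_const, Finset.card_univ, Fintype.card_fun,
      Fintype.card_fin, Fintype.card_fin, nsmul_eq_mul, hp, hμ]
    push_cast
    field_simp
  have hev1 : ∀ x ∈ S, ((univ.filter (E x)).card : ℝ) =
      p * (Fintype.card (Fin (f + 2) → Matrix (Fin m) (Fin m) (ZMod q)) : ℝ) := by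
    intro x hx
    exact ev_one (Nat.succ_pos _) (memS x hx)
  have hev2 : ∀ x ∈ S, ∀ x' ∈ S, x ≠ x' → ((univ.filter fun C => E x C ∧ E x' C).card : ℝ) =
      p ^ 2 * (Fintype.card (Fin (f + 2) → Matrix (Fin m) (Fin m) (ZMod q)) : ℝ) := by
    intro x hx x' hx' hne
    exact ev_two (Nat.succ_pos _) (memS x hx) (memS x' hx') fun h2 => hne (hSinj x hx x' hx' h2)
  have hch := cheb S E p (fun _ => 1) hp0.le (fun _ _ => zero_le_one) hev1 hev2
  have hns := card_NS (q := q) (d := f + 2) (m := m) (Nat.succ_pos _) hm0 (2 * (f + 2))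
  simp only [one_pow] at hch
  rw [hsum] at hch
  set B1 := (univ.filter fun C : Fin (f + 2) → Matrix (Fin m) (Fin m) (ZMod q) =>
    (∑ h ∈ S, if E h C then (1 : ℝ) else 0) < μ / 2) with hB1
  set B2 := (univ.filter fun C : Fin (f + 2) → Matrix (Fin m) (Fin m) (ZMod q) =>
      ∃ v ∈ K C, v ≠ 0 ∧ wt v ≤ 2 * (f + 2)) with hB2
  have hsub : (univ.filter fun C : Fin (f + 2) → Matrix (Fin m) (Fin m) (ZMod q) => ¬ Good C v) ⊆ B1 ∪ B2 := by
    intro C hC
    rw [Finset.mem_filter] at hC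
    by_contra hnot
    rw [Finset.mem_union] at hnot
    push Not at hnot
    obtain ⟨n1, n2⟩ := hnot
    rw [hB1, Finset.mem_filter] at n1
    rw [hB2, Finset.mem_filter] at n2
    push Not at n1 n2
    have n1' := n1 (Finset.mem_univ _)
    have n2' := n2 (Finset.mem_univ _)
    apply hC.2
    intro s M hM
    set T := S.filter (fun x => E x C) with hTdef
    have memT : ∀ x ∈ T, x ∈ S ∧ x.2 ∈ K C := by
      intro x hx
      rw [hTdef, Finset.mem_filter] at hx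
      exact hx
    have hb := bessel (C := C) s (fun x : {x // x ∈ T} => x.1.2) (fun x => kf x.1.1) (Nat.succ_pos _)
      (by
        intro x y hxy
        exact Subtype.ext (hSinj _ (memT _ x.2).1 _ (memT _ y.2).1 hxy))
      (fun x i => top_HH (memS x.1 (memT _ x.2).1) i)
      (fun x => (memT _ x.2).2)
      (by
        intro u hu hu0
        have h1 := n2' u hu hu0
        omega)
      M ((1 / 2 : ℝ) ^ (f + 2) * ((q : ℝ) ^ m / (q : ℝ) ^ w)) hM (by positivity)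
      (by
        intro x
        rw [hkf2])
    rw [Fintype.card_coe] at hb
    have h1 : μ / 2 ≤ (T.card : ℝ) := by
      rw [Finset.sum_boole] at n1'
      exact n1'
    have h2 : v ^ 2 ≤ M ^ 2 := by
      refine hv.trans (le_trans ?_ hb)
      exact mul_le_mul_of_nonneg_right h1 (by positivity)
    have hM0 : 0 ≤ M := (abs_nonneg _).trans (hM 0)
    exact le_of_abs_le (abs_le_of_sq_le_sq h2 hM0 |> fun h => h)
  have hcard : ((univ.filter fun C : Fin (f + 2) → Matrix (Fin m) (Fin m) (ZMod q) => ¬ Good C v).card : ℝ) ≤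
      B1.card + B2.card := by
    have e1 := (Finset.card_le_card hsub).trans (Finset.card_union_le B1 B2)
    exact_mod_cast e1
  have hcM : (Fintype.card (Fin (f + 2) → Matrix (Fin m) (Fin m) (ZMod q)) : ℝ) =
      (q : ℝ) ^ ((f + 2) * m ^ 2) := by rw [card_MM]; push_cast; rfl
  have hb2 : (B2.card : ℝ) ≤ (q : ℝ) ^ ((f + 2) * m ^ 2) *
      ((((f + 2) * m * q : ℕ) : ℝ) ^ (2 * (f + 2)) / (q : ℝ) ^ m) := by
    rw [← mul_div_assoc, le_div_iff₀ (by positivity)]
    rw [mul_comm ((q : ℝ) ^ ((f + 2) * m ^ 2))]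
    exact hns
  have hb1 : (B1.card : ℝ) ≤ (q : ℝ) ^ ((f + 2) * m ^ 2) * (4 / μ) := by
    rw [hcM] at hch
    have h3 : (B1.card : ℝ) * μ ^ 2 ≤ 4 * μ * (q : ℝ) ^ ((f + 2) * m ^ 2) := hch
    rw [← mul_div_assoc, le_div_iff₀ hμ0]
    have h4 : ((B1.card : ℝ) * μ) * μ ≤ ((q : ℝ) ^ ((f + 2) * m ^ 2) * 4) * μ := by nlinarith
    exact le_of_mul_le_mul_right h4 hμ0
  refine le_trans (le_of_eq ?_) (hcard.trans ?_)
  · congr 2
  · rw [mul_add]
    linarith

end Pool.N672.DN
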