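import Pool.Agent.N672.DN.Fou

open Finset

namespace Pool.N672.DN

variable {q : ℕ} [Fact q.Prime]

/-! ### weights -/

theorem wt_add {d m : ℕ} (a b : Fin d → Fin m → ZMod q) : wt (a + b) ≤ wt a + wt b := by
  unfold wt
  rw [← Finset.card_union_add_card_inter]
  refine le_trans ?_ (Nat.le_add_right _ _)
  apply Finset.card_le_card
  intro p hp
  rw [Finset.mem_filter] at hp
  rw [Finset.mem_union, Finset.mem_filter, Finset.mem_filter]
  by_contra hh
  push Not at hh
  have h1 := hh.1 (Finset.mem_univ _)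
  have h2 := hh.2 (Finset.mem_univ _)
  apply hp.2
  rw [Pi.add_apply, Pi.add_apply, h1, h2, add_zero]

theorem wt_smul {d m : ℕ} (c : ZMod q) (a : Fin d → Fin m → ZMod q) : wt (c • a) ≤ wt a := by
  unfold wt
  apply Finset.card_le_card
  intro p hp
  rw [Finset.mem_filter] at hp ⊢
  refine ⟨hp.1, fun h => hp.2 ?_⟩
  rw [Pi.smul_apply, Pi.smul_apply, h, smul_zero]

theorem wt_neg {d m : ℕ} (a : Fin d → Fin m → ZMod q) : wt (-a) ≤ wt a := by
  have := wt_smul (-1) a
  rwa [neg_one_smul] at this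

theorem wt_zero {d m : ℕ} : wt (0 : Fin d → Fin m → ZMod q) = 0 := by
  unfold wt; simp

theorem wt_sum {d m : ℕ} {ι : Type*} (s : Finset ι) (f : ι → Fin d → Fin m → ZMod q) :
    wt (∑ a ∈ s, f a) ≤ ∑ a ∈ s, wt (f a) := by
  classical
  induction s using Finset.induction_on with
  | empty => simp [wt_zero]
  | insert a s ha ih =>
    rw [Finset.sum_insert ha, Finset.sum_insert ha]
    exact (wt_add _ _).trans (Nat.add_le_add_left ih _)

theorem wt_coord {d m : ℕ} (v : Fin d → Fin m → ZMod q)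
    (h : ∀ i, (univ.filter fun j => v i j ≠ 0).card ≤ 1) : wt v ≤ d := by
  have h1 : (univ.filter fun p : Fin d × Fin m => v p.1 p.2 ≠ 0) ⊆
      univ.biUnion (fun i : Fin d => (univ.filter fun j => v i j ≠ 0).image (fun j => (i, j))) := by
    intro p hp
    rw [Finset.mem_filter] at hp
    rw [Finset.mem_biUnion]
    refine ⟨p.1, Finset.mem_univ _, ?_⟩
    rw [Finset.mem_image]
    exact ⟨p.2, by rw [Finset.mem_filter]; exact ⟨Finset.mem_univ _, hp.2⟩, rfl⟩
  calc wt v ≤ _ := Finset.card_le_card h1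
    _ ≤ ∑ i : Fin d, ((univ.filter fun j => v i j ≠ 0).image (fun j => (i, j))).card := Finset.card_biUnion_le
    _ ≤ ∑ i : Fin d, 1 := Finset.sum_le_sum fun i _ => (Finset.card_image_le).trans (h i)
    _ = d := by simp

/-- `h` with its top entries removed -/
def mn {d m : ℕ} (h : Fin d → Fin m → ZMod q) (k : Fin d → Fin m) : Fin d → Fin m → ZMod q :=
  fun i => Function.update (h i) (k i) 0

/-- the top entries of `h` -/
def tp {d m : ℕ} (h : Fin d → Fin m → ZMod q) (k : Fin d → Fin m) : Fin d → Fin m → ZMod q :=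
  fun i => Pi.single (k i) (h i (k i))

theorem mn_eq {d m : ℕ} (h : Fin d → Fin m → ZMod q) (k : Fin d → Fin m) : mn h k = h - tp h k := by
  funext i j
  unfold mn tp
  rw [Pi.sub_apply, Pi.sub_apply]
  by_cases hj : j = k i
  · subst hj
    rw [Function.update_self, Pi.single_eq_same, sub_self]
  · rw [Function.update_of_ne hj, Pi.single_eq_of_ne hj, sub_zero]

theorem wt_tp {d m : ℕ} (h : Fin d → Fin m → ZMod q) (k : Fin d → Fin m) : wt (tp h k) ≤ d := by
  apply wt_coord
  intro i
  rw [Finset.card_le_one]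
  intro a ha b hb
  rw [Finset.mem_filter] at ha hb
  have h1 : a = k i := by
    by_contra hh
    exact ha.2 (by unfold tp; rw [Pi.single_eq_of_ne hh])
  have h2 : b = k i := by
    by_contra hh
    exact hb.2 (by unfold tp; rw [Pi.single_eq_of_ne hh])
  rw [h1, h2]

/-- the core rigidity lemma -/
theorem core {d m : ℕ} {C : Fin d → Matrix (Fin m) (Fin m) (ZMod q)}
    {g u t h' : Fin d → Fin m → ZMod q} {r : ℕ} (hg : g = u - t) (hu : u ∈ K C) (ht : wt t ≤ r)
    (hNS : ∀ v ∈ K C, v ≠ 0 → d + r < wt v) (hh : h' ∈ K C) (hp : ∏ i, kap (g i) (h' i) ≠ 0) :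
    h' = u ∧ ∀ i, (univ.filter fun j => t i j ≠ 0).card ≤ 1 := by
  have h1 : ∀ i, (univ.filter fun j => (g - h') i j ≠ 0).card ≤ 1 := by
    intro i
    have h2 : kap (g i) (h' i) ≠ 0 := by
      intro hz
      exact hp (Finset.prod_eq_zero (Finset.mem_univ i) hz)
    have h3 := kap_supp _ _ h2
    refine le_trans (le_of_eq ?_) h3
    congr 1
    apply Finset.filter_congr
    intro j _
    rw [Pi.sub_apply, Pi.sub_apply, sub_ne_zero]
  have h2 : wt (g - h') ≤ d := wt_coord _ h1
  have h3 : h' - u = -(t + (g - h')) := by rw [hg]; abel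
  have h4 : wt (h' - u) ≤ d + r := by
    rw [h3]
    refine (wt_neg _).trans ((wt_add _ _).trans ?_)
    omega
  have h5 : h' - u = 0 := by
    by_contra hne
    exact absurd h4 (not_le.mpr (hNS _ (Submodule.sub_mem _ hh hu) hne))
  have h6 : h' = u := sub_eq_zero.mp h5
  refine ⟨h6, ?_⟩
  intro i
  refine le_trans (le_of_eq ?_) (h1 i)
  congr 1
  apply Finset.filter_congr
  intro j _
  have h7 : (g - h') i j = - t i j := by
    rw [hg, h6]
    simp
  rw [h7, ne_eq, ne_eq, neg_eq_zero]

/-- sums against the local discrepancy -/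
noncomputable def AA {d m : ℕ} (C : Fin d → Matrix (Fin m) (Fin m) (ZMod q))
    (s g : Fin d → Fin m → ZMod q) : ℂ :=
  ∑ x : Fin d → Fin m → ZMod q, ch (pr2 g x) * (Dl C s x : ℂ)

theorem AA_neg {d m : ℕ} (C : Fin d → Matrix (Fin m) (Fin m) (ZMod q))
    (s g : Fin d → Fin m → ZMod q) : AA C s (-g) = (starRingEnd ℂ) (AA C s g) := by
  unfold AA
  rw [map_sum]
  apply Finset.sum_congr rfl
  intro x _
  rw [map_mul, Complex.conj_ofReal, pr2_neg_left, ch_neg]

theorem coefOne {d m : ℕ} {C : Fin d → Matrix (Fin m) (Fin m) (ZMod q)}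
    (s h : Fin d → Fin m → ZMod q) (k : Fin d → Fin m) (hh : h ∈ K C) (htop : ∀ i, isTop (h i) (k i))
    (hd : 0 < d)
    (hNS : ∀ v ∈ K C, v ≠ 0 → d + d < wt v) :
    (q : ℝ) ^ (d * m) * ((1 / 2) ^ d * ((q : ℝ) ^ m / (q : ℝ) ^ (∑ i, ((k i : ℕ) + 1)))) ≤
      ‖AA C s (mn h k)‖ := by
  classical
  have hq : (0 : ℝ) < q := by exact_mod_cast (Fact.out : q.Prime).pos
  have hne : h ≠ 0 := by
    intro h0
    have := (htop ⟨0, hd⟩).1
    rw [h0] at this
    exact this rfl
  have e1 := fou C s (mn h k)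
  have es : (∑ h' : Fin d → Fin m → ZMod q, if h' ∈ K C ∧ h' ≠ 0 then
      ch (pr2 h' s) * ∏ i, kap (mn h k i) (h' i) else 0) = ch (pr2 h s) * ∏ i, kap (mn h k i) (h i) := by
    rw [Finset.sum_eq_single h]
    · rw [if_pos ⟨hh, hne⟩]
    · intro b _ hb
      split_ifs with hc
      · by_cases hz : ∏ i, kap (mn h k i) (b i) = 0
        · rw [hz, mul_zero]
        · exfalso
          exact hb (core (mn_eq h k) hh (wt_tp h k) hNS hc.1 hz).1
      · rfl
    · intro hx; exact absurd (Finset.mem_univ _) hx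
  rw [es] at e1
  · have e2 := congrArg norm e1
    rw [norm_mul, norm_mul, norm_mul, norm_pow, norm_pow, Complex.norm_natCast, norm_ch, one_mul,
      norm_prod] at e2
    have e3 : ∏ i : Fin d, ((q : ℝ) ^ (2 * m) / (2 * (q : ℝ) ^ ((k i : ℕ) + 1))) ≤
        ∏ i, ‖kap (mn h k i) (h i)‖ := by
      apply Finset.prod_le_prod
      · intro i _; positivity
      · intro i _; exact kap_lower (h i) (k i) (htop i)
    have e4 : ∏ i : Fin d, ((q : ℝ) ^ (2 * m) / (2 * (q : ℝ) ^ ((k i : ℕ) + 1))) =
        (q : ℝ) ^ (d * m) * ((q : ℝ) ^ (d * m) * ((1 / 2) ^ d / (q : ℝ) ^ (∑ i, ((k i : ℕ) + 1)))) := by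
      rw [Finset.prod_div_distrib, Finset.prod_mul_distrib, Finset.prod_const, Finset.prod_const,
        Finset.card_univ, Fintype.card_fin, Finset.prod_pow_eq_pow_sum, ← pow_mul, ← mul_assoc, ← pow_add]
      rw [show 2 * m * d = d * m + d * m by ring, one_div, inv_pow]
      field_simp
    have e5 : (q : ℝ) ^ (d * m) * ‖AA C s (mn h k)‖ =
        (q : ℝ) ^ m * ∏ i, ‖kap (mn h k i) (h i)‖ := e2
    have e6 : (0 : ℝ) < (q : ℝ) ^ (d * m) := by positivity
    have e7 : (q : ℝ) ^ (d * m) * ((q : ℝ) ^ (d * m) *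
        ((1 / 2) ^ d * ((q : ℝ) ^ m / (q : ℝ) ^ (∑ i, ((k i : ℕ) + 1))))) ≤
        (q : ℝ) ^ (d * m) * ‖AA C s (mn h k)‖ := by
      rw [e5]
      calc _ = (q : ℝ) ^ m * ((q : ℝ) ^ (d * m) * ((q : ℝ) ^ (d * m) * ((1 / 2) ^ d /
            (q : ℝ) ^ (∑ i, ((k i : ℕ) + 1))))) := by ring
        _ ≤ _ := by
          rw [← e4]
          exact mul_le_mul_of_nonneg_left e3 (by positivity)
    exact le_of_mul_le_mul_left e7 e6

/-! ### the Riesz product -/

/-- three signs -/
def sg : Fin 3 → ZMod q := ![0, 1, -1]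

/-- the three coefficients of one factor -/
noncomputable def ww (z : ℂ) : Fin 3 → ℂ := ![1, z / 2, (starRingEnd ℂ) z / 2]

theorem factor (z : ℂ) (t : ZMod q) :
    ((1 + (z * ch t).re : ℝ) : ℂ) = ∑ s : Fin 3, ww z s * ch (sg s * t) := by
  rw [Fin.sum_univ_three]
  simp only [ww, sg, Matrix.cons_val_zero, Matrix.cons_val_one, Matrix.cons_val]
  rw [zero_mul, ch_zero, one_mul, one_mul, neg_one_mul, ch_neg]
  have := Complex.add_conj (z * ch t)
  push_cast at this ⊢
  rw [map_mul] at this
  linear_combination (-1 / 2 : ℂ) * this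

theorem sg_ne {s : Fin 3} (hs : s ≠ 0) : (sg s : ZMod q) ≠ 0 := by
  fin_cases s
  · exact absurd rfl hs
  · simp [sg]
  · simp [sg]

section
variable {d m : ℕ} {ι : Type*} [Fintype ι] [DecidableEq ι]

/-- the combination attached to a sign pattern -/
def gg (g : ι → Fin d → Fin m → ZMod q) (ε : ι → Fin 3) : Fin d → Fin m → ZMod q :=
  ∑ a, (sg (ε a) : ZMod q) • g a

/-- the Riesz product -/
noncomputable def FF (g : ι → Fin d → Fin m → ZMod q) (z : ι → ℂ) (x : Fin d → Fin m → ZMod q) : ℝ :=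
  ∏ a, (1 + (z a * ch (pr2 (g a) x)).re)

theorem FF_expand (g : ι → Fin d → Fin m → ZMod q) (z : ι → ℂ) (x : Fin d → Fin m → ZMod q) :
    (FF g z x : ℂ) = ∑ ε : ι → Fin 3, (∏ a, ww (z a) (ε a)) * ch (pr2 (gg g ε) x) := by
  unfold FF
  rw [Complex.ofReal_prod, Finset.prod_congr rfl fun a _ => factor (z a) (pr2 (g a) x),
    Finset.prod_univ_sum, Fintype.piFinset_univ]
  apply Finset.sum_congr rfl
  intro ε _
  rw [Finset.prod_mul_distrib]
  congr 1
  unfold gg
  rw [pr2_sum_left, ch_sum]
  apply Finset.prod_congr rfl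
  intro a _
  rw [pr2_smul_left]

theorem FF_nonneg (g : ι → Fin d → Fin m → ZMod q) (z : ι → ℂ) (hz : ∀ a, ‖z a‖ = 1)
    (x : Fin d → Fin m → ZMod q) : 0 ≤ FF g z x := by
  unfold FF
  apply Finset.prod_nonneg
  intro a _
  have h1 : |(z a * ch (pr2 (g a) x)).re| ≤ ‖z a * ch (pr2 (g a) x)‖ := Complex.abs_re_le_norm _
  rw [norm_mul, hz, norm_ch, one_mul] at h1
  have := (abs_le.mp h1).1
  linarith

theorem gg_eq (h : ι → Fin d → Fin m → ZMod q) (k : ι → Fin d → Fin m) (ε : ι → Fin 3) :
    gg (fun a => mn (h a) (k a)) ε = gg h ε - gg (fun a => tp (h a) (k a)) ε := by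
  unfold gg
  rw [← Finset.sum_sub_distrib]
  apply Finset.sum_congr rfl
  intro a _
  change (sg (ε a) : ZMod q) • mn (h a) (k a) = (sg (ε a) : ZMod q) • h a - (sg (ε a) : ZMod q) • tp (h a) (k a)
  rw [mn_eq, smul_sub]

theorem gg_mem {C : Fin d → Matrix (Fin m) (Fin m) (ZMod q)} (h : ι → Fin d → Fin m → ZMod q)
    (hK : ∀ a, h a ∈ K C) (ε : ι → Fin 3) : gg h ε ∈ K C :=
  Submodule.sum_mem _ fun a _ => Submodule.smul_mem _ _ (hK a)

theorem wt_gg (h : ι → Fin d → Fin m → ZMod q) (k : ι → Fin d → Fin m) (ε : ι → Fin 3) :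
    wt (gg (fun a => tp (h a) (k a)) ε) ≤ Fintype.card ι * d := by
  unfold gg
  refine (wt_sum _ _).trans ?_
  calc _ ≤ ∑ a : ι, d := Finset.sum_le_sum fun a _ => (wt_smul _ _).trans (wt_tp _ _)
    _ = Fintype.card ι * d := by simp

theorem gg_top (h : ι → Fin d → Fin m → ZMod q) (k : ι → Fin d → Fin m) (i₀ : Fin d)
    (hinj : Function.Injective fun a => k a i₀) (ε : ι → Fin 3) (a : ι) :
    gg (fun a => tp (h a) (k a)) ε i₀ (k a i₀) = sg (ε a) * h a i₀ (k a i₀) := by
  unfold gg
  rw [Finset.sum_apply, Finset.sum_apply, Finset.sum_eq_single a]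
  · rw [Pi.smul_apply, Pi.smul_apply, smul_eq_mul]
    change sg (ε a) * (Pi.single (k a i₀) (h a i₀ (k a i₀)) : Fin m → ZMod q) (k a i₀) = _
    rw [Pi.single_eq_same]
  · intro b _ hb
    rw [Pi.smul_apply, Pi.smul_apply, smul_eq_mul]
    change sg (ε b) * (Pi.single (k b i₀) (h b i₀ (k b i₀)) : Fin m → ZMod q) (k a i₀) = _
    rw [Pi.single_eq_of_ne, mul_zero]
    intro hx
    exact hb (hinj hx).symm
  · intro hx; exact absurd (Finset.mem_univ _) hx

theorem riesz {C : Fin d → Matrix (Fin m) (Fin m) (ZMod q)} (s : Fin d → Fin m → ZMod q)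
    (h : ι → Fin d → Fin m → ZMod q) (k : ι → Fin d → Fin m) (i₀ : Fin d)
    (hinj : Function.Injective fun a => k a i₀) (htop : ∀ a i, isTop (h a i) (k a i))
    (hK : ∀ a, h a ∈ K C)
    (hNS : ∀ v ∈ K C, v ≠ 0 → d + Fintype.card ι * d < wt v)
    (M : ℝ) (hM : ∀ x, |Dl C s x| ≤ M) :
    ∑ a, (1 / 2 : ℝ) ^ d * ((q : ℝ) ^ m / (q : ℝ) ^ (∑ i, ((k a i : ℕ) + 1))) ≤ M := by
  classical
  have hd : 0 < d := lt_of_le_of_lt (Nat.zero_le _) i₀.isLt
  have hq : (0 : ℝ) < q := by exact_mod_cast (Fact.out : q.Prime).pos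
  have hqc : (q : ℂ) ≠ 0 := by exact_mod_cast (Fact.out : q.Prime).ne_zero
  set g : ι → Fin d → Fin m → ZMod q := fun a => mn (h a) (k a) with hg
  set A : ι → ℂ := fun a => AA C s (g a) with hA
  set z : ι → ℂ := fun a => if A a = 0 then 1 else (starRingEnd ℂ) (A a) / (‖A a‖ : ℂ) with hz
  have hz1 : ∀ a, ‖z a‖ = 1 := by
    intro a
    simp only [hz]
    split_ifs with h0
    · exact norm_one
    · rw [norm_div, RCLike.norm_conj, Complex.norm_real, norm_norm, div_self (norm_ne_zero_iff.mpr h0)]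
  have hz2 : ∀ a, z a * A a = (‖A a‖ : ℂ) := by
    intro a
    simp only [hz]
    split_ifs with h0
    · rw [h0]; simp
    · have : ((‖A a‖ : ℝ) : ℂ) ≠ 0 := by exact_mod_cast norm_ne_zero_iff.mpr h0
      rw [div_mul_eq_mul_div, mul_comm, Complex.mul_conj, Complex.normSq_eq_norm_sq]
      push_cast
      field_simp
  -- vanishing of the coefficients of patterns that are not single
  have hvan : ∀ ε : ι → Fin 3, AA C s (gg g ε) ≠ 0 → ∃ a, ε a ≠ 0 ∧ ∀ b, b ≠ a → ε b = 0 := by
    intro ε hne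
    have e1 := fou C s (gg g ε)
    have e2 : ∃ h' : Fin d → Fin m → ZMod q, (if h' ∈ K C ∧ h' ≠ 0 then ch (pr2 h' s) *
        ∏ i, kap (gg g ε i) (h' i) else 0) ≠ 0 := by
      by_contra hcon
      push Not at hcon
      rw [Finset.sum_eq_zero fun h' _ => hcon h', mul_zero] at e1
      rcases mul_eq_zero.mp e1 with e2 | e2
      · exact pow_ne_zero _ hqc e2
      · exact hne e2
    obtain ⟨h', hh'⟩ := e2
    by_cases hc : h' ∈ K C ∧ h' ≠ 0
    · rw [if_pos hc] at hh'
      have hp : ∏ i, kap (gg g ε i) (h' i) ≠ 0 := right_ne_zero_of_mul hh'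
      obtain ⟨c1, c2⟩ := core (gg_eq h k ε) (gg_mem h hK ε) (wt_gg h k ε) hNS hc.1 hp
      have c3 := c2 i₀
      rw [Finset.card_le_one] at c3
      have c4 : ∀ a b, ε a ≠ 0 → ε b ≠ 0 → a = b := by
        intro a b ha hb
        apply hinj
        apply c3
        · rw [Finset.mem_filter]
          refine ⟨Finset.mem_univ _, ?_⟩
          rw [gg_top h k i₀ hinj]
          exact mul_ne_zero (sg_ne ha) (htop a i₀).1
        · rw [Finset.mem_filter]
          refine ⟨Finset.mem_univ _, ?_⟩
          rw [gg_top h k i₀ hinj]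
          exact mul_ne_zero (sg_ne hb) (htop b i₀).1
      by_cases he : ∃ a, ε a ≠ 0
      · obtain ⟨a, ha⟩ := he
        refine ⟨a, ha, ?_⟩
        intro b hb
        by_contra hb0
        exact hb (c4 b a hb0 ha)
      · push Not at he
        exfalso
        apply hc.2
        rw [c1]
        unfold gg
        apply Finset.sum_eq_zero
        intro a _
        rw [he a]
        simp [sg]
    · rw [if_neg hc] at hh'
      exact absurd rfl hh'
  -- the mean of the Riesz product
  have hmean : ∑ x, (FF g z x : ℂ) = (q : ℂ) ^ (d * m) := by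
    rw [Finset.sum_congr rfl fun x _ => FF_expand g z x, Finset.sum_comm]
    have e1 : ∀ ε : ι → Fin 3, ∑ x : Fin d → Fin m → ZMod q, (∏ a, ww (z a) (ε a)) * ch (pr2 (gg g ε) x) =
        if ε = 0 then (q : ℂ) ^ (d * m) else 0 := by
      intro ε
      rw [← Finset.mul_sum, sum_ch_pr2]
      by_cases h0 : ε = 0
      · subst h0
        rw [if_pos rfl, if_pos]
        · simp [ww]
        · unfold gg
          apply Finset.sum_eq_zero
          intro a _
          simp [sg]
      · rw [if_neg h0, if_neg, mul_zero]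
        intro hzero
        apply h0
        have e2 : gg h ε = gg (fun a => tp (h a) (k a)) ε := by
          have := gg_eq h k ε
          rw [← hg] at this
          rw [hzero] at this
          exact (sub_eq_zero.mp this.symm)
        have e3 : gg h ε = 0 := by
          by_contra hne
          have h1 := hNS _ (gg_mem h hK ε) hne
          rw [e2] at h1
          have h2 := wt_gg h k ε
          omega
        funext a
        by_contra ha
        have h3 := gg_top h k i₀ hinj ε a
        rw [← e2, e3] at h3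
        exact mul_ne_zero (sg_ne ha) (htop a i₀).1 h3.symm
    rw [Finset.sum_congr rfl fun ε _ => e1 ε, Finset.sum_ite_eq']
    simp
  -- the sum against the discrepancy
  have hsum : ∑ x, (FF g z x : ℂ) * (Dl C s x : ℂ) = ∑ a, (‖A a‖ : ℂ) := by
    have e0 : ∑ x, (FF g z x : ℂ) * (Dl C s x : ℂ) =
        ∑ ε : ι → Fin 3, (∏ a, ww (z a) (ε a)) * AA C s (gg g ε) := by
      unfold AA
      rw [Finset.sum_congr rfl fun x _ => by rw [FF_expand g z x, Finset.sum_mul], Finset.sum_comm]
      apply Finset.sum_congr rfl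
      intro ε _
      rw [Finset.mul_sum]
      apply Finset.sum_congr rfl
      intro x _
      ring
    rw [e0]
    let e : ι × Bool → (ι → Fin 3) := fun p => Function.update 0 p.1 (if p.2 then 1 else 2)
    have he : Function.Injective e := by
      rintro ⟨a, b⟩ ⟨a', b'⟩ hab
      have h1 : e (a, b) a = e (a', b') a := by rw [hab]
      simp only [e] at h1
      rw [Function.update_self] at h1
      by_cases haa : a = a'
      · subst haa
        rw [Function.update_self] at h1
        cases b <;> cases b' <;> simp_all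
      · rw [Function.update_of_ne haa] at h1
        cases b <;> simp at h1
    rw [← Fintype.sum_of_injective e he (fun p => (∏ a, ww (z a) (e p a)) * AA C s (gg g (e p)))
      (fun ε => (∏ a, ww (z a) (ε a)) * AA C s (gg g ε)) ?_ (fun p => rfl)]
    · rw [Fintype.sum_prod_type]
      apply Finset.sum_congr rfl
      intro a _
      have w1 : ∀ b : Bool, ∏ a', ww (z a') (e (a, b) a') = ww (z a) (if b then 1 else 2) := by
        intro b
        rw [Finset.prod_eq_single a]
        · simp only [e]; rw [Function.update_self]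
        · intro c _ hc
          simp only [e]; rw [Function.update_of_ne hc]; simp [ww]
        · intro hx; exact absurd (Finset.mem_univ _) hx
      have w2 : ∀ b : Bool, gg g (e (a, b)) = (sg (if b then 1 else 2) : ZMod q) • g a := by
        intro b
        unfold gg
        rw [Finset.sum_eq_single a]
        · simp only [e]; rw [Function.update_self]
        · intro c _ hc
          simp only [e]; rw [Function.update_of_ne hc]; simp [sg]
        · intro hx; exact absurd (Finset.mem_univ _) hx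
      rw [Fintype.sum_bool, w1, w1, w2, w2]
      simp only [if_true, ww, sg, Matrix.cons_val_one, Matrix.cons_val]
      rw [one_smul]
      simp only [Bool.false_eq_true, if_false, Matrix.cons_val]
      rw [neg_one_smul, AA_neg]
      have h1 : z a * AA C s (g a) = (‖A a‖ : ℂ) := hz2 a
      have h2 : (starRingEnd ℂ) (z a) * (starRingEnd ℂ) (AA C s (g a)) = (‖A a‖ : ℂ) := by
        rw [← map_mul, h1, Complex.conj_ofReal]
      linear_combination (1 / 2 : ℂ) * h1 + (1 / 2 : ℂ) * h2
    · intro ε hε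
      by_cases h0 : AA C s (gg g ε) = 0
      · rw [h0, mul_zero]
      · exfalso
        obtain ⟨a, ha, hb⟩ := hvan ε h0
        apply hε
        have h3 : ε a = 1 ∨ ε a = 2 := by
          generalize ε a = t at ha
          fin_cases t
          · exact absurd rfl ha
          · left; rfl
          · right; rfl
        rcases h3 with h3 | h3
        · refine ⟨(a, true), ?_⟩
          funext b
          simp only [e]
          by_cases hba : b = a
          · subst hba; rw [Function.update_self, h3]; rfl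
          · rw [Function.update_of_ne hba, hb b hba]; rfl
        · refine ⟨(a, false), ?_⟩
          funext b
          simp only [e]
          by_cases hba : b = a
          · subst hba; rw [Function.update_self, h3]; rfl
          · rw [Function.update_of_ne hba, hb b hba]; rfl
  -- conclusion
  have r1 : ∑ x, FF g z x = (q : ℝ) ^ (d * m) := by
    have := hmean
    exact_mod_cast this
  have r2 : ∑ x, FF g z x * Dl C s x = ∑ a, ‖A a‖ := by
    have := hsum
    exact_mod_cast this
  have r3 : ∑ x, FF g z x * Dl C s x ≤ M * (q : ℝ) ^ (d * m) := by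
    rw [← r1, Finset.mul_sum]
    apply Finset.sum_le_sum
    intro x _
    rw [mul_comm M]
    exact mul_le_mul_of_nonneg_left ((le_abs_self _).trans (hM x)) (FF_nonneg g z hz1 x)
  rw [r2] at r3
  have r4 : ∑ a, (q : ℝ) ^ (d * m) * ((1 / 2 : ℝ) ^ d * ((q : ℝ) ^ m / (q : ℝ) ^ (∑ i, ((k a i : ℕ) + 1)))) ≤
      ∑ a, ‖A a‖ := by
    apply Finset.sum_le_sum
    intro a _
    apply coefOne s (h a) (k a) (hK a) (htop a) hd
    intro v hv hv0
    have h1 := hNS v hv hv0
    have h2 : d ≤ Fintype.card ι * d := by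
      have : 0 < Fintype.card ι := Fintype.card_pos_iff.mpr ⟨a⟩
      exact Nat.le_mul_of_pos_left _ this
    omega
  rw [← Finset.mul_sum] at r4
  have r5 : (0 : ℝ) < (q : ℝ) ^ (d * m) := by positivity
  have r6 := r4.trans r3
  rw [mul_comm M] at r6
  exact le_of_mul_le_mul_left r6 r5

end

end Pool.N672.DN
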